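import Mathlib

/-!
The arithmetic core of the star cutset lemma.  Positions `0..n` on an induced path; `sp` marks the
neighbours of the centre `x`, `nb` the neighbours of the last vertex `y` of a link.
-/

set_option autoImplicit false

namespace Pool.Agent.Ehf.SC

theorem last {p : ℕ → Prop} {a b : ℕ} (hab : a ≤ b) (ha : p a) :
    ∃ c, a ≤ c ∧ c ≤ b ∧ p c ∧ ∀ j, c < j → j ≤ b → ¬p j := by
  classical
  exact ⟨Nat.findGreatest p b, Nat.le_findGreatest hab ha, Nat.findGreatest_le b,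
    Nat.findGreatest_spec hab ha, fun j h1 h2 => Nat.findGreatest_is_greatest h1 h2⟩

theorem first {p : ℕ → Prop} {a b : ℕ} (hab : a ≤ b) (hb : p b) :
    ∃ c, a ≤ c ∧ c ≤ b ∧ p c ∧ ∀ j, a ≤ j → j < c → ¬p j := by
  classical
  have h : ∃ c, a ≤ c ∧ p c := ⟨b, hab, hb⟩
  exact ⟨Nat.find h, (Nat.find_spec h).1, Nat.find_min' h ⟨hab, hb⟩, (Nat.find_spec h).2,
    fun j h1 h2 h3 => Nat.find_min h h2 ⟨h1, h3⟩⟩

/-- `p` holds at `a` only and `q` holds at `b` only, in `[a, b]`. -/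
def Mo (p q : ℕ → Prop) (a b : ℕ) : Prop :=
  a ≤ b ∧ p a ∧ q b ∧ (∀ j, a < j → j ≤ b → ¬p j) ∧ ∀ j, a ≤ j → j < b → ¬q j

/-- A minimal mixed segment. -/
def Mx (p q : ℕ → Prop) (a b : ℕ) : Prop := Mo p q a b ∨ Mo q p a b

theorem Mx.le {p q : ℕ → Prop} {a b : ℕ} (h : Mx p q a b) : a ≤ b := h.elim (·.1) (·.1)

theorem mx_self {p q : ℕ → Prop} {a : ℕ} (h1 : p a) (h2 : q a) : Mx p q a a :=
  Or.inl ⟨le_rfl, h1, h2, fun _ _ _ => by omega, fun _ _ _ => by omega⟩

theorem exists_mo {p q : ℕ → Prop} {a b : ℕ} (hab : a ≤ b) (ha : p a) (hb : q b) :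
    ∃ c d, a ≤ c ∧ d ≤ b ∧ Mo p q c d := by
  obtain ⟨d, d1, d2, d3, d4⟩ := first hab hb
  obtain ⟨c, c1, c2, c3, c4⟩ := last d1 ha
  exact ⟨c, d, c1, d2, c2, c3, d3, c4, fun j h1 h2 => d4 j (by omega) h2⟩

theorem exists_mx {p q : ℕ → Prop} {a b lo hi : ℕ} (ha : p a) (hb : q b) (h1 : lo ≤ a)
    (h2 : a ≤ hi) (h3 : lo ≤ b) (h4 : b ≤ hi) : ∃ c d, lo ≤ c ∧ d ≤ hi ∧ Mx p q c d := by
  rcases le_total a b with h | h
  · obtain ⟨c, d, e1, e2, e3⟩ := exists_mo h ha hb
    exact ⟨c, d, by omega, by omega, Or.inl e3⟩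
  · obtain ⟨c, d, e1, e2, e3⟩ := exists_mo h hb ha
    exact ⟨c, d, by omega, by omega, Or.inr e3⟩

/-- consecutive marked positions are at odd distance -/
def Alt (p : ℕ → Prop) (n : ℕ) : Prop :=
  ∀ a b, a < b → b ≤ n → p a → p b → (∀ j, a < j → j < b → ¬p j) → (a + b) % 2 = 1

/-- the facts that hold in all cases -/
structure Base (sp nb : ℕ → Prop) (n : ℕ) : Prop where
  even : n % 2 = 0
  s0 : sp 0
  sn : sp n
  altS : Alt sp n
  altN : Alt nb n
  far : ∀ a b c d, Mx sp nb a b → Mx sp nb c d → b + 1 < c → d ≤ n → (a + b + c + d) % 2 = 1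

variable {sp nb : ℕ → Prop} {n : ℕ}

/-- Case I, `y` misses both ends. -/
theorem caseIa (B : Base sp nb n) {s t d e : ℕ} (s1 : 2 ≤ s) (s2 : s + 2 ≤ n) (s3 : sp s)
    (t2 : t < n) (t3 : nb t) (t4 : ¬(t % 2 = 0 ∧ sp t)) (n0 : ¬nb 0) (nn : ¬nb n)
    (a0 : ∀ a b, Mx sp nb a b → 2 ≤ a → b < n → (a + b + d) % 2 = 0)
    (an : ∀ a b, Mx sp nb a b → 1 ≤ a → b + 2 ≤ n → (a + b + e) % 2 = 0)
    (h0 : ∀ f, f < n → nb f → (∀ j, j < f → ¬nb j) → (f + d) % 2 = 0)
    (hn : ∀ l, 0 < l → l ≤ n → nb l → (∀ j, l < j → j ≤ n → ¬nb j) → (l + e) % 2 = 0) :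
    False := by
  have ev := B.even
  obtain ⟨f, -, f2, f3, f4⟩ := first (Nat.zero_le t) t3
  obtain ⟨l, l1, l2, l3, l4⟩ := last t2.le t3
  have f0 : f ≠ 0 := fun h => n0 (h ▸ f3)
  have ln : l ≠ n := fun h => nn (h ▸ l3)
  have hf := h0 f (by omega) f3 fun j hj => f4 j (Nat.zero_le _) hj
  have hl := hn l (by omega) l2 l3 l4
  obtain ⟨u, -, u2, u3, u4⟩ := last (Nat.zero_le f) B.s0
  obtain ⟨v, v1, v2, v3, v4⟩ := first l2 B.sn
  have mu : Mx sp nb u f := Or.inl ⟨u2, u3, f3, u4, fun j _ hj => f4 j (Nat.zero_le _) hj⟩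
  have mv : Mx sp nb l v := Or.inr ⟨v1, l3, v3, fun j h1 h2 => l4 j h1 (by omega), v4⟩
  have p1 := a0 u f mu
  have p2 := an u f mu
  have p3 := a0 l v mv
  have p4 := an l v mv
  have q1 := u4 s
  have q2 := v4 s
  simp only [s3, not_true_eq_false, imp_false] at q1 q2
  rcases Nat.lt_or_ge f l with hfl | hfl
  · by_cases c : ∃ g, 2 ≤ g ∧ g + 2 ≤ n ∧ nb g
    · obtain ⟨g, g1, g2, g3⟩ := c
      obtain ⟨a, b, e1, e2, e3⟩ := exists_mx (lo := 2) (hi := n - 2) s3 g3 s1 (by omega) g1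
        (by omega)
      have p5 := a0 a b e3 e1 (by omega)
      have p6 := an a b e3 (by omega) (by omega)
      have p7 := B.far u f l v mu mv (by omega) v2
      omega
    · have e1 : f = 1 := by
        by_contra h
        exact c ⟨f, by omega, by omega, f3⟩
      have e2 : l = n - 1 := by
        by_contra h
        exact c ⟨l, by omega, by omega, l3⟩
      have := B.altN f l hfl l2 f3 l3 fun j h1 h2 h3 => c ⟨j, by omega, by omega, h3⟩
      omega
  · obtain rfl : f = t := by omega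
    obtain rfl : l = f := by omega
    by_cases c : sp l
    · have e1 : u = l := by
        by_contra h
        exact u4 l (by omega) le_rfl c
      have e2 : v = l := by
        by_contra h
        exact v4 l le_rfl (by omega) c
      simp only [c, and_true] at t4
      omega
    · have e1 : u ≠ l := fun h => c (h ▸ u3)
      have e2 : v ≠ l := fun h => c (h ▸ v3)
      have := B.altS u v (by omega) v2 u3 v3 fun j h1 h2 =>
        (le_total j l).elim (u4 j h1) fun h => v4 j h h2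
      omega

/-- Case I, `y` is adjacent to the left end. -/
theorem caseIb (B : Base sp nb n) {s t e : ℕ} (s1 : 2 ≤ s) (s2 : s + 2 ≤ n) (s3 : sp s)
    (t1 : 0 < t) (t2 : t < n) (t3 : nb t) (n0 : nb 0)
    (an : ¬nb n → ∀ a b, Mx sp nb a b → 1 ≤ a → b + 2 ≤ n → (a + b + e) % 2 = 0)
    (hn : ¬nb n → ∀ l, 0 < l → l ≤ n → nb l → (∀ j, l < j → j ≤ n → ¬nb j) → (l + e) % 2 = 0) :
    False := by
  have ev := B.even
  have a0 : ∀ a b, Mx sp nb a b → 2 ≤ a → b ≤ n → (a + b) % 2 = 1 := fun a b h h1 h2 => by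
    have := B.far 0 0 a b (mx_self B.s0 n0) h (by omega) h2
    omega
  have nn : ¬nb n := fun h => by
    have := a0 n n (mx_self B.sn h) (by omega) le_rfl
    omega
  replace an := an nn
  obtain ⟨f, f1, f2, f3, f4⟩ := first (a := 1) t1 t3
  obtain ⟨l, l1, l2, l3, l4⟩ := last t2.le t3
  have ln : l ≠ n := fun h => nn (h ▸ l3)
  have hf := B.altN 0 f (by omega) (by omega) n0 f3 fun j h1 h2 => f4 j h1 h2
  have hl := hn nn l (by omega) l2 l3 l4
  obtain ⟨v, v1, v2, v3, v4⟩ := first l2 B.sn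
  have mv : Mx sp nb l v := Or.inr ⟨v1, l3, v3, fun j h1 h2 => l4 j h1 (by omega), v4⟩
  have p3 := a0 l v mv
  have p4 := an l v mv
  have q2 := v4 s
  simp only [s3, not_true_eq_false, imp_false] at q2
  by_cases c : ∃ g, 2 ≤ g ∧ g + 2 ≤ n ∧ nb g
  · obtain ⟨g, g1, g2, g3⟩ := c
    obtain ⟨a, b, e1, e2, e3⟩ := exists_mx (lo := 2) (hi := n - 2) s3 g3 s1 (by omega) g1
      (by omega)
    have p5 := a0 a b e3 e1 (by omega)
    have p6 := an a b e3 (by omega) (by omega)
    have gl : g ≤ l := not_lt.1 fun h => l4 g h (by omega) g3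
    have fg : f ≤ g := not_lt.1 fun h => f4 g (by omega) h g3
    obtain ⟨u, -, u2, u3, u4⟩ := last (Nat.zero_le (l - 1)) B.s0
    have := B.altS u v (by omega) v2 u3 v3 fun j h1 h2 =>
      (Nat.lt_or_ge j l).elim (fun h => u4 j h1 (by omega)) fun h => v4 j h h2
    rcases Nat.lt_or_ge f l with hfl | hfl
    · obtain ⟨a', b', e4, e5, e6⟩ := exists_mx (lo := 1) (hi := l - 2) u3 f3 (by omega) (by omega)
        f1 (by omega)
      have p7 := an a' b' e6 e4 (by omega)
      have p8 := B.far a' b' l v e6 mv (by omega) v2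
      omega
    · obtain rfl : f = l := by omega
      have mu : Mx sp nb u f := Or.inl ⟨by omega, u3, f3, fun j h1 h2 =>
        (Nat.lt_or_ge j f).elim (fun h => u4 j h1 (by omega)) fun h => v4 j h (by omega),
        fun j h1 h2 => f4 j (by omega) h2⟩
      have := an u f mu (by omega) (by omega)
      omega
  · have e1 : f = 1 ∨ f = n - 1 := by
      by_contra h
      exact c ⟨f, by omega, by omega, f3⟩
    have e2 : l = 1 ∨ l = n - 1 := by
      by_contra h
      exact c ⟨l, by omega, by omega, l3⟩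
    rcases Nat.lt_or_ge f l with hfl | hfl
    · have := B.altN f l hfl l2 f3 l3 fun j h1 h2 h3 => c ⟨j, by omega, by omega, h3⟩
      omega
    obtain rfl : f = l := by omega
    rcases e1 with e1 | e1
    · have := B.altS 0 v (by omega) v2 B.s0 v3 fun j h1 h2 => v4 j (by omega) h2
      omega
    · obtain ⟨u, u1, u2, u3, u4⟩ := last (b := f) (by omega) s3
      have := B.altS u n (by omega) le_rfl u3 B.sn fun j h1 h2 => u4 j h1 (by omega)
      have := a0 u f (Or.inl ⟨u2, u3, f3, u4, fun j h1 h2 => f4 j (by omega) h2⟩) (by omega)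
        (by omega)
      omega

/-- Case II: the link sees an inner neighbour `o` of `x`. -/
theorem caseII (B : Base sp nb n) {o t d e : ℕ} (o1 : o % 2 = 0) (o2 : o < n) (o3 : sp o)
    (t2 : t < o) (t3 : nb t) (t4 : ¬(t % 2 = 0 ∧ sp t))
    (h0 : ∀ f, f < o → nb f → (∀ j, j < f → ¬nb j) → (f + e) % 2 = 0)
    (a0 : ¬nb 0 → ∀ a b, Mx sp nb a b → 2 ≤ a → b < o → (a + b + e) % 2 = 0)
    (an : ¬nb n → ∀ a b, Mx sp nb a b → 1 ≤ a → b < o → (a + b + e) % 2 = 0)
    (hn : nb n → e % 2 = 0)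
    (ao : ¬nb o → ∀ a b, Mx sp nb a b → b ≤ n → (b + 1 < o ∨ o + 1 < a) → (a + b + d) % 2 = 0)
    (ho : ¬nb o → ∀ l, l < o → nb l → (∀ j, l < j → j < o → ¬nb j) → (l + d) % 2 = 0) :
    False := by
  have ev := B.even
  obtain ⟨f, -, f2, f3, f4⟩ := first (Nat.zero_le t) t3
  have hf := h0 f (by omega) f3 fun j hj => f4 j (Nat.zero_le _) hj
  obtain ⟨u, -, u2, u3, u4⟩ := last (Nat.zero_le f) B.s0
  have mu : Mx sp nb u f := Or.inl ⟨u2, u3, f3, u4, fun j _ hj => f4 j (Nat.zero_le _) hj⟩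
  obtain ⟨s, s1, s2, s3, s4⟩ := first (a := f + 1) (b := o) (by omega) o3
  have us := B.altS u s (by omega) (by omega) u3 s3 fun j h1 h2 =>
    (Nat.lt_or_ge f j).elim (fun h => s4 j h h2) (u4 j h1)
  by_cases nn : nb n
  · have mn : Mx sp nb n n := mx_self B.sn nn
    have he := hn nn
    have n0 : ¬nb 0 := fun h => by
      have := B.far 0 0 n n (mx_self B.s0 h) mn (by omega) le_rfl
      omega
    have no : ¬nb o := fun h => by
      have := B.far o o n n (mx_self o3 h) mn (by omega) le_rfl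
      omega
    have f0 : f ≠ 0 := fun h => n0 (h ▸ f3)
    have p1 := ao no n n mn le_rfl (by omega)
    have p2 := ao no u f mu (by omega) (by omega)
    obtain ⟨a, b, e1, e2, e3⟩ := exists_mx (lo := 2) (hi := o - 1) s3 f3 (by omega) (by omega)
      (by omega) (by omega)
    have p3 := a0 n0 a b e3 e1 (by omega)
    have p4 := B.far a b n n e3 mn (by omega) le_rfl
    omega
  replace an := an nn
  have p1 := an u f mu
  obtain ⟨l, l1, l2, l3, l4⟩ := last (b := o - 1) (a := t) (by omega) t3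
  have l5 : ∀ j, l < j → j < o → ¬nb j := fun j h1 h2 => l4 j h1 (by omega)
  have key : (l + f) % 2 = 0 ∧ (nb o → f % 2 = 1) := by
    by_cases no : nb o
    · have p2 := B.far u f o o mu (mx_self o3 no) (by omega) o2.le
      have p3 := B.altN l o (by omega) o2.le l3 no l5
      exact ⟨by omega, fun _ => by omega⟩
    · have p2 := ao no u f mu (by omega) (by omega)
      have p3 := ho no l (by omega) l3 l5
      exact ⟨by omega, fun h => (no h).elim⟩
  rcases Nat.lt_or_ge f l with hfl | hfl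
  · have nos : ∀ j, f + 2 ≤ j → j < o → ¬sp j := fun j h1 h2 h3 => by
      obtain ⟨a, b, e1, e2, e3⟩ := exists_mx (lo := f + 2) (hi := o - 1) h3 l3 h1 (by omega)
        (by omega) l2
      have p2 := an a b e3 (by omega) (by omega)
      have p3 := B.far u f a b mu e3 (by omega) (by omega)
      omega
    have e1 : s = f + 1 := by
      by_contra h
      exact nos s (by omega) (by omega) s3
    have no : ¬nb o := fun h => by have := key.2 h; omega
    have := B.far u f l o mu (Or.inr ⟨by omega, l3, o3, fun j h1 h2 =>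
      (Nat.lt_or_eq_of_le h2).elim (l5 j h1) fun h => h ▸ no, fun j h1 h2 => nos j (by omega) h2⟩)
      (by omega) o2.le
    omega
  · obtain rfl : f = t := by omega
    obtain rfl : l = f := by omega
    have e1 : u ≠ l := fun h => t4 ⟨by omega, h ▸ u3⟩
    have := an l s (Or.inr ⟨by omega, l3, s3, fun j h1 h2 => l5 j h1 (by omega), fun j h1 h2 =>
      (Nat.lt_or_eq_of_le h1).elim (fun h => s4 j h h2) fun h => u4 j (by omega) (by omega)⟩)
      (by omega) (by omega)
    omega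

end Pool.Agent.Ehf.SC
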