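import Pool.Agent.MP_3ad207_lc.H46.Parity
import Pool.Agent.MP_3ad207_lc.H56.SCComb

/-!
(SC) The centre of a proper wheel in an even-hole-free graph is the centre of a star cutset that
separates the interior of a long sector from the rest of the rim.
-/

set_option autoImplicit false

namespace Pool.Agent.Ehf

open Set SC

variable {V : Type*} {G : SimpleGraph V}

theorem IP.cons {u v w : V} {n : ℕ} {X : Set V} (h : IP G u v n X) (e : G.Adj w u)
    (_ : 0 < n) (hA : Anti G {w} (insert v X)) : IP G w v (n + 1) (insert u X) := by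
  obtain ⟨f, hf, f0, fn, fX⟩ := h
  refine ⟨fun i => if i = 0 then w else f (i - 1), fun i j hij hj => ?_, by simp, by simpa using fn,
    fun i h0 hi => ?_⟩
  · have hj0 : j ≠ 0 := by omega
    by_cases c : i = 0
    · subst c
      simp only [hj0, if_true, if_false]
      by_cases d : j = 1
      · subst d
        simpa [f0] using ⟨e.ne, e⟩
      · have : f (j - 1) ∈ insert v X := by
          by_cases d' : j - 1 = n
          · exact Or.inl (d' ▸ fn)
          · exact Or.inr (fX _ (by omega) (by omega))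
        exact ⟨hA.ne rfl this, fun h => (hA.not_adj rfl this h).elim, fun h => by omega⟩
    · simp only [hj0, c, if_false]
      have := hf (i - 1) (j - 1) (by omega) (by omega)
      refine ⟨this.1, ?_⟩
      rw [this.2]
      omega
  · simp only [h0.ne', if_false]
    by_cases d : i = 1
    · subst d
      exact Or.inl f0
    · exact Or.inr (fX _ (by omega) (by omega))

theorem anti1 {x : V} {Y : Set V} (h : ∀ y ∈ Y, x ≠ y ∧ ¬G.Adj x y) : Anti G {x} Y := by
  rintro _ rfl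
  exact h

theorem Conn.tail {X : Set V} {f : ℕ → V} (hX : Conn G X) (h0 : Sees G (f 0) X) (k : ℕ)
    (h : ∀ i, i < k → G.Adj (f i) (f (i + 1))) :
    Conn G (X ∪ f '' Iio k) ∧ Sees G (f k) (X ∪ f '' Iio k) := by
  induction k with
  | zero => simpa using ⟨hX, h0⟩
  | succ k ih =>
    obtain ⟨h1, h2⟩ := ih fun i hi => h i (by omega)
    refine ⟨?_, f k, Or.inr ⟨k, by simp, rfl⟩, (h k (by omega)).symm⟩
    have e : Iio (k + 1) = insert k (Iio k) := by
      ext; simp only [mem_Iio, mem_insert_iff]; omega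
    rw [e, image_insert_eq, union_insert]
    exact h1.ins (Or.inr h2)

section Path

variable {r : ℕ → V} {n : ℕ} {x y : V}

/-- from a vertex off the path to a path vertex through a clean segment -/
theorem IsIP.ip_out (hr : IsIP G r n) (hy : ∀ j, j ≤ n → y ≠ r j) {a b : ℕ} (hab : a < b)
    (hb : b ≤ n) (ha : G.Adj y (r a)) (h : ∀ j, a < j → j ≤ b → ¬G.Adj y (r j)) :
    IP G y (r b) (b - a + 1) (seg r a (b - 1)) := by
  refine ((hr.ip_seg hab.le hb).cons ha (by omega) (anti1 ?_)).mono ?_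
  · rintro _ (rfl | ⟨k, k1, k2, rfl⟩)
    · exact ⟨hy b hb, h b hab le_rfl⟩
    · exact ⟨hy k (by omega), h k (by omega) (by omega)⟩
  · rintro _ (rfl | ⟨k, k1, k2, rfl⟩)
    · exact apply_mem_seg le_rfl (by omega)
    · exact apply_mem_seg (by omega) k2

theorem IsIP.ip_out' (hr : IsIP G r n) (hy : ∀ j, j ≤ n → y ≠ r j) {a b : ℕ} (hab : a < b)
    (hb : b ≤ n) (ha : G.Adj y (r b)) (h : ∀ j, a ≤ j → j < b → ¬G.Adj y (r j)) :
    IP G y (r a) (b - a + 1) (seg r (a + 1) b) := by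
  refine ((hr.ip_seg hab.le hb).symm.cons ha (by omega) (anti1 ?_)).mono ?_
  · rintro _ (rfl | ⟨k, k1, k2, rfl⟩)
    · exact ⟨hy a (by omega), h a le_rfl hab⟩
    · exact ⟨hy k (by omega), h k (by omega) (by omega)⟩
  · rintro _ (rfl | ⟨k, k1, k2, rfl⟩)
    · exact apply_mem_seg (by omega) le_rfl
    · exact apply_mem_seg k1 (by omega)

theorem IsIP.ip_mo (hr : IsIP G r n) (hx : ∀ j, j ≤ n → x ≠ r j) (hy : ∀ j, j ≤ n → y ≠ r j)
    (hne : x ≠ y) (hna : ¬G.Adj x y) {a b : ℕ} (hb : b ≤ n)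
    (h : Mo (fun j => G.Adj x (r j)) (fun j => G.Adj y (r j)) a b) :
    IP G x y (b - a + 2) (seg r a b) := by
  obtain ⟨h1, h2, h3, h4, h5⟩ := h
  rcases Nat.eq_or_lt_of_le h1 with rfl | h1
  · rw [seg_self, Nat.sub_self]
    exact IP.of_common h2 h3.symm hne hna
  · refine ((hr.ip_out' hy h1 hb h3 h5).symm.cons h2 (by omega) (anti1 ?_)).mono ?_
    · rintro _ (rfl | ⟨k, k1, k2, rfl⟩)
      · exact ⟨hne, hna⟩
      · exact ⟨hx k (by omega), h4 k k1 k2⟩
    · rintro _ (rfl | ⟨k, k1, k2, rfl⟩)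
      · exact apply_mem_seg le_rfl h1.le
      · exact apply_mem_seg (by omega) k2

theorem IsIP.ip_mx (hr : IsIP G r n) (hx : ∀ j, j ≤ n → x ≠ r j) (hy : ∀ j, j ≤ n → y ≠ r j)
    (hne : x ≠ y) (hna : ¬G.Adj x y) {a b : ℕ} (hb : b ≤ n)
    (h : Mx (fun j => G.Adj x (r j)) (fun j => G.Adj y (r j)) a b) :
    IP G x y (b - a + 2) (seg r a b) :=
  h.elim (hr.ip_mo hx hy hne hna hb) fun h =>
    (hr.ip_mo hy hx hne.symm (fun e => hna e.symm) hb h).symm

theorem EHF.alt (hG : EHF G) (hr : IsIP G r n) (hx : ∀ j, j ≤ n → x ≠ r j) :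
    Alt (fun j => G.Adj x (r j)) n := by
  intro a b hab hb ha hb' h
  have := hG.sector_odd hr hab hb ha hb' fun k k1 k2 => ⟨hx k (by omega), h k k1 k2⟩
  rw [Nat.odd_iff] at this
  omega

/-- a path from `y` to the spoke `r t` through a set `D` that sees only the positions in `A` -/
theorem EHF.via (hG : EHF G) (hr : IsIP G r n) (hx : ∀ j, j ≤ n → x ≠ r j)
    (hy : ∀ j, j ≤ n → y ≠ r j) (hne : x ≠ y) (hna : ¬G.Adj x y) {D : Set V} {A : ℕ → Prop}
    (hxD : Anti G {x} D) (hD : ∀ j, j ≤ n → ¬A j → Anti G {r j} D) {t d : ℕ} (ht : t ≤ n)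
    (xt : G.Adj x (r t)) (yt : ¬G.Adj y (r t)) (h : IP G y (r t) d D) :
    (∀ a b, Mx (fun j => G.Adj x (r j)) (fun j => G.Adj y (r j)) a b → b ≤ n →
      (b + 1 < t ∨ t + 1 < a) → (∀ j, a ≤ j → j ≤ b → ¬A j) → (a + b + d) % 2 = 0) ∧
    (∀ g, t < g → g ≤ n → G.Adj y (r g) → (∀ j, t ≤ j → j < g → ¬G.Adj y (r j)) →
      (∀ j, t < j → j ≤ g → ¬A j) → (g + t + d) % 2 = 0) ∧
    (∀ g, g < t → G.Adj y (r g) → (∀ j, g < j → j ≤ t → ¬G.Adj y (r j)) →
      (∀ j, g ≤ j → j < t → ¬A j) → (g + t + d) % 2 = 0) := by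
  have sg : ∀ a b, b ≤ n → (∀ j, a ≤ j → j ≤ b → ¬A j) → Anti G (seg r a b) D := by
    rintro a b hb hA _ ⟨k, k1, k2, rfl⟩
    exact hD k (by omega) (hA k k1 k2) _ rfl
  refine ⟨fun a b hm hb hab hA => ?_, fun g h1 h2 h3 h4 h5 => ?_, fun g h1 h3 h4 h5 => ?_⟩
  · have h1 := h.symm.cons xt (h.pos (hy t ht)) (anti1 (by
      rintro _ (rfl | hz)
      exacts [⟨hne, hna⟩, hxD x rfl _ hz]))
    have h2 := hG.odd_add' (hr.ip_mx hx hy hne hna hb hm) h1 hne hna (by
      rw [insert_eq, anti_union_right, ← seg_self]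
      exact ⟨hab.elim (fun h => hr.anti_seg h ht) fun h => (hr.anti_seg h hb).symm, sg a b hb hA⟩)
    have := hm.le
    rw [Nat.odd_iff] at h2
    omega
  · have := hG.odd_add' (hr.ip_out' hy h1 h2 h3 h4) h (hy t ht) yt (sg _ _ h2 h5)
    rw [Nat.odd_iff] at this
    omega
  · have := hG.odd_add' (hr.ip_out hy h1 ht h3 h4) h (hy t ht) yt
      (sg _ _ (by omega) fun j a b => h5 j a (by omega))
    rw [Nat.odd_iff] at this
    omega

end Path

/-- The wheel: rim path `r`, the rest of the rim inside the connected set `X`, centre `x`. -/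
structure Whl (G : SimpleGraph V) (r : ℕ → V) (n : ℕ) (x : V) (X : Set V) : Prop where
  ehf : EHF G
  ip : IsIP G r n
  two : 2 ≤ n
  off : ∀ j, j ≤ n → x ≠ r j
  s0 : G.Adj x (r 0)
  sn : G.Adj x (r n)
  conn : Conn G X
  xX : Anti G {x} X
  rX : ∀ j, 0 < j → j < n → Anti G {r j} X
  x0 : Sees G (r 0) X
  xn : Sees G (r n) X

namespace Whl

variable {r p : ℕ → V} {n m : ℕ} {x : V} {X : Set V}

theorem rev (W : Whl G r n x X) : Whl G (fun j => r (n - j)) n x X :=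
  ⟨W.ehf, W.ip.rev, W.two, fun _ _ => W.off _ (by omega), W.sn, by simpa using W.s0, W.conn, W.xX,
    fun _ _ _ => W.rX _ (by omega) (by omega), W.xn, by simpa using W.x0⟩

theorem even (W : Whl G r n x X) : n % 2 = 0 := by
  have := W.two
  obtain ⟨d, hd⟩ := W.conn.exists_ip_sees W.x0 W.xn
  have ne := W.ip.ne (Nat.zero_le n) le_rfl (by omega)
  have h1 := W.ehf.odd_of_sector hd ne W.s0 W.sn W.xX
  have h2 := W.ehf.odd_add' (W.ip.ip_seg (Nat.zero_le n) le_rfl) hd ne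
    (W.ip.not_adj (by omega) le_rfl) (by
      rintro _ ⟨k, k1, k2, rfl⟩
      exact W.rX k (by omega) (by omega) _ rfl)
  rw [Nat.odd_iff] at h1 h2
  omega

theorem base (W : Whl G r n x X) {y : V} (hy : ∀ j, j ≤ n → y ≠ r j) (hne : x ≠ y)
    (hna : ¬G.Adj x y) : Base (fun j => G.Adj x (r j)) (fun j => G.Adj y (r j)) n := by
  refine ⟨W.even, W.s0, W.sn, W.ehf.alt W.ip W.off, W.ehf.alt W.ip hy,
    fun a b c d h1 h2 h3 h4 => ?_⟩
  have e1 := h1.le
  have e2 := h2.le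
  have := W.ehf.odd_add' (W.ip.ip_mx W.off hy hne hna (by omega) h1)
    (W.ip.ip_mx W.off hy hne hna h4 h2) hne hna (W.ip.anti_seg h3 h4)
  rw [Nat.odd_iff] at this
  omega

end Whl

/-- A shortest link from `X` to the forbidden part of the rim. -/
structure Lnk (G : SimpleGraph V) (r : ℕ → V) (n : ℕ) (x : V) (X : Set V) (p : ℕ → V) (m : ℕ) :
    Prop where
  ip : IsIP G p m
  off : ∀ i, i ≤ m → ∀ j, j ≤ n → p i ≠ r j
  xp : ∀ i, i ≤ m → x ≠ p i ∧ ¬G.Adj x (p i)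
  p0 : Sees G (p 0) X
  pX : ∀ i, 0 < i → i ≤ m → Anti G {p i} X
  ev : ∀ i, i < m → ∀ j, j ≤ n → G.Adj (p i) (r j) → j % 2 = 0 ∧ G.Adj x (r j)

namespace Lnk

variable {r p : ℕ → V} {n m : ℕ} {x : V} {X : Set V}

theorem rev (W : Whl G r n x X) (L : Lnk G r n x X p m) :
    Lnk G (fun j => r (n - j)) n x X p m :=
  ⟨L.ip, fun i hi _ _ => L.off i hi _ (by omega), L.xp, L.p0, L.pX, fun i hi j hj e => by
    have := L.ev i hi (n - j) (by omega) e
    have := W.even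
    exact ⟨by omega, by simp only [*]⟩⟩

theorem conn (W : Whl G r n x X) (L : Lnk G r n x X p m) (k : ℕ) (hk : k ≤ m) :
    Conn G (X ∪ p '' Iio k) ∧ Sees G (p k) (X ∪ p '' Iio k) :=
  W.conn.tail L.p0 k fun _ _ => L.ip.adj_succ (by omega)

theorem xD (W : Whl G r n x X) (L : Lnk G r n x X p m) {k : ℕ} (hk : k ≤ m) :
    Anti G {x} (X ∪ p '' Iio k) :=
  W.xX.union_right (anti1 (by
    rintro _ ⟨i, hi, rfl⟩
    exact L.xp i (le_trans (le_of_lt hi) hk)))

theorem xS (L : Lnk G r n x X p m) {a b : ℕ} (hb : b ≤ m) : Anti G {x} (seg p a b) :=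
  anti1 (by
    rintro _ ⟨i, -, hi, rfl⟩
    exact L.xp i (by omega))

theorem caseI (W : Whl G r n x X) (L : Lnk G r n x X p m) {s t : ℕ} (s1 : 2 ≤ s) (s2 : s + 2 ≤ n)
    (s3 : G.Adj x (r s)) (t1 : 0 < t) (t2 : t < n) (t3 : G.Adj (p m) (r t))
    (t4 : ¬(t % 2 = 0 ∧ G.Adj x (r t))) (nn : ¬G.Adj (p m) (r n))
    (hI : ∀ i, i < m → ∀ j, 0 < j → j < n → ¬G.Adj (p i) (r j)) : False := by
  obtain ⟨c1, c2⟩ := L.conn W m le_rfl
  have hD : ∀ j, j ≤ n → ¬(j = 0 ∨ j = n) → Anti G {r j} (X ∪ p '' Iio m) := fun j hj h =>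
    (W.rX j (by omega) (by omega)).union_right (anti1 (by
      rintro _ ⟨i, hi, rfl⟩
      exact ⟨(L.off i (le_of_lt hi) j hj).symm, fun e => hI i hi j (by omega) (by omega) e.symm⟩))
  have B := W.base (L.off m le_rfl) (L.xp m le_rfl).1 (L.xp m le_rfl).2
  have ev := W.even
  have via := fun t d ht xt yt h => W.ehf.via (t := t) (d := d) W.ip W.off (L.off m le_rfl)
    (L.xp m le_rfl).1 (L.xp m le_rfl).2 (L.xD W le_rfl) hD ht xt yt h
  obtain ⟨e, he⟩ := c1.exists_ip_sees c2 (W.xn.mono subset_union_left)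
  obtain ⟨v1, -, v3⟩ := via n e le_rfl W.sn nn he
  have an := fun a b h (h1 : 1 ≤ a) (h2 : b + 2 ≤ n) =>
    v1 a b h (by omega) (by omega) fun j _ _ => by omega
  have hn : ∀ l, 0 < l → l ≤ n → G.Adj (p m) (r l) →
      (∀ j, l < j → j ≤ n → ¬G.Adj (p m) (r j)) → (l + e) % 2 = 0 := fun l h1 h2 h3 h4 => by
    have := v3 l (lt_of_le_of_ne h2 fun h => nn (h ▸ h3)) h3 h4 fun j _ _ => by omega
    omega
  by_cases n0 : G.Adj (p m) (r 0)
  · exact caseIb B s1 s2 s3 t1 t2 t3 n0 (fun _ => an) fun _ => hn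
  obtain ⟨d, hd⟩ := c1.exists_ip_sees c2 (W.x0.mono subset_union_left)
  obtain ⟨w1, w2, -⟩ := via 0 d (Nat.zero_le _) W.s0 n0 hd
  refine caseIa B s1 s2 s3 t2 t3 t4 n0 nn
    (fun a b h h1 h2 => w1 a b h (by omega) (by omega) fun j _ _ => by omega) an
    (fun f h1 h2 h3 => ?_) hn
  exact w2 f (Nat.pos_of_ne_zero fun h => n0 (h ▸ h2)) h1.le h2 (fun j _ => h3 j)
    fun j _ _ => by omega

theorem c4 (W : Whl G r n x X) (L : Lnk G r n x X p m) {i j k : ℕ} (hi : i < m) (hj : j ≤ n)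
    (hk : k ≤ n) (e1 : G.Adj (p i) (r j)) (e2 : G.Adj (p i) (r k)) : j = k := by
  by_contra h
  have h1 := L.ev i hi j hj e1
  have h2 := L.ev i hi k hk e2
  have := W.ehf.adj_of_common (L.xp i hi.le).1 (L.xp i hi.le).2 h1.2 e1 h2.2 e2 (W.ip.ne hj hk h)
  rw [W.ip.adj_iff hj hk] at this
  omega

/-- the inner vertices of the link see at most one spoke -/
theorem one (W : Whl G r n x X) (L : Lnk G r n x X p m) (b : ℕ) (hb : b < m) :
    ∀ a, 0 < a → a ≤ b → ∀ c, 0 < c → c ≤ b → ∀ j, j ≤ n → ∀ k, k ≤ n → j < k →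
      G.Adj (p a) (r j) → G.Adj (p c) (r k) → False := by
  induction b with
  | zero => exact fun a _ _ => by omega
  | succ b ih =>
    intro a a0 a1 c c0 c1 j hj k hk jk e1 e2
    replace ih := ih (by omega)
    have ih' : ∀ a, 0 < a → a ≤ b → ∀ c, 0 < c → c ≤ b → ∀ j, j ≤ n → ∀ k, k ≤ n →
        G.Adj (p a) (r j) → G.Adj (p c) (r k) → j = k := fun a a0 a1 c c0 c1 j hj k hk e1 e2 => by
      rcases lt_trichotomy j k with h | h | h
      exacts [(ih a a0 a1 c c0 c1 j hj k hk h e1 e2).elim, h,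
        (ih c c0 c1 a a0 a1 k hk j hj h e2 e1).elim]
    have only : ∀ i, 0 < i → i ≤ b + 1 → ∀ l, l ≤ n → G.Adj (p i) (r l) → l = j ∨ l = k := by
      intro i i0 i1 l hl e
      by_cases h1 : (a ≤ b ∧ i ≤ b) ∨ a = i
      · exact Or.inl (h1.elim (fun h => ih' i i0 h.2 a a0 h.1 l hl j hj e e1)
          fun h => L.c4 W (by omega) hl hj e (h ▸ e1))
      by_cases h2 : (c ≤ b ∧ i ≤ b) ∨ c = i
      · exact Or.inr (h2.elim (fun h => ih' i i0 h.2 c c0 h.1 l hl k hk e e2)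
          fun h => L.c4 W (by omega) hl hk e (h ▸ e2))
      by_cases h3 : a = c
      · exact absurd (L.c4 W (by omega) hj hk e1 (h3 ▸ e2)) jk.ne
      · exact (ih a a0 (by omega) c c0 (by omega) j hj k hk jk e1 e2).elim
    have j2 := (L.ev a (by omega) j hj e1).1
    have k2 := (L.ev c (by omega) k hk e2).1
    have ev := W.even
    have aZ : ∀ l, l ≤ n → l ≠ j → l ≠ k → Anti G {r l} (seg p 1 (b + 1)) := fun l hl h1 h2 =>
      anti1 (by
        rintro _ ⟨i, i0, i1, rfl⟩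
        exact ⟨(L.off i (by omega) l hl).symm, fun e => (only i i0 i1 l hl e.symm).elim h1 h2⟩)
    obtain ⟨l1, l2⟩ := W.conn.tail W.x0 j fun i _ => W.ip.adj_succ (by omega)
    obtain ⟨r1, r2⟩ := W.conn.tail (f := fun l => r (n - l)) W.rev.x0 (n - k) fun i _ =>
      W.rev.ip.adj_succ (by omega)
    rw [show n - (n - k) = k by omega] at r2
    have mem : ∀ z ∈ X ∪ r '' Iio j ∪ (X ∪ (fun l => r (n - l)) '' Iio (n - k)),
        z ∈ X ∨ ∃ l, l ≤ n ∧ (l < j ∨ k < l) ∧ r l = z := by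
      rintro z ((h | ⟨l, hl, rfl⟩) | h | ⟨l, hl, rfl⟩)
      exacts [Or.inl h, Or.inr ⟨l, by grind, Or.inl hl, rfl⟩, Or.inl h,
        Or.inr ⟨n - l, by omega, by grind, rfl⟩]
    refine W.ehf.theta (W.ip.ne hj hk jk.ne) (W.ip.not_adj (by omega) hk)
      (W.ip.conn_seg (i := j + 1) (j := k - 1) (by omega) (by omega))
      (l1.un r1 (Touch.of_mem (Or.inl W.conn.nonempty.some_mem) (Or.inl W.conn.nonempty.some_mem)))
      (L.ip.conn_seg (i := 1) (j := b + 1) (by omega) hb.le) ?_ ?_ ?_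
      (Or.inr ⟨_, apply_mem_seg le_rfl (by omega), W.ip.adj_succ (by omega)⟩)
      (Or.inr ⟨_, apply_mem_seg (by omega) le_rfl, W.ip.adj_pred (by omega) hk⟩)
      (Or.inr (l2.mono subset_union_left)) (Or.inr (r2.mono subset_union_right))
      (Or.inr ⟨_, apply_mem_seg a0 a1, e1.symm⟩) (Or.inr ⟨_, apply_mem_seg c0 c1, e2.symm⟩)
    · rintro _ ⟨i, i0, i1, rfl⟩ z hz
      rcases mem z hz with h | ⟨l, h1, h2, rfl⟩
      · exact W.rX i (by omega) (by omega) _ rfl z h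
      · refine ⟨W.ip.ne (by omega) h1 (by omega), ?_⟩
        rw [W.ip.adj_iff (by omega) h1]
        omega
    · rintro _ ⟨i, i0, i1, rfl⟩
      exact aZ i (by omega) (by omega) (by omega) _ rfl
    · intro z hz
      rcases mem z hz with h | ⟨l, h1, h2, rfl⟩
      · rintro _ ⟨i, i0, i1, rfl⟩
        exact (L.pX i i0 (by omega)).symm z h _ rfl
      · exact aZ l h1 (by omega) (by omega) _ rfl

theorem one' (W : Whl G r n x X) (L : Lnk G r n x X p m) {a c j k : ℕ} (a0 : 0 < a) (a1 : a < m)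
    (c0 : 0 < c) (c1 : c < m) (hj : j ≤ n) (hk : k ≤ n) (e1 : G.Adj (p a) (r j))
    (e2 : G.Adj (p c) (r k)) : j = k := by
  rcases lt_trichotomy j k with h | h | h
  exacts [(L.one W (m - 1) (by omega) a a0 (by omega) c c0 (by omega) j hj k hk h e1 e2).elim, h,
    (L.one W (m - 1) (by omega) c c0 (by omega) a a0 (by omega) k hk j hj h e2 e1).elim]

/-- if the first vertex of the link sees an inner spoke then the link sees no other spoke -/
theorem two (W : Whl G r n x X) (L : Lnk G r n x X p m) {a j o : ℕ} (a0 : 0 < a) (a1 : a < m)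
    (hj : j ≤ n) (o0 : 0 < o) (o1 : o < n) (e1 : G.Adj (p 0) (r o)) (e2 : G.Adj (p a) (r j)) :
    j = o := by
  by_contra hne
  obtain ⟨o2, xo⟩ := L.ev 0 (by omega) o o1.le e1
  obtain ⟨j2, xj⟩ := L.ev a a1 j hj e2
  have ev := W.even
  have aZ : ∀ l, l ≤ n → l ≠ j → Anti G {r l} (seg p 1 a) := fun l hl h1 => anti1 (by
    rintro _ ⟨i, i0, i1, rfl⟩
    exact ⟨(L.off i (by omega) l hl).symm, fun e => h1 (L.one' W i0 (by omega) a0 a1 hl hj e.symm e2)⟩)
  have cZ := L.ip.conn_seg (i := 1) (j := a) a0 a1.le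
  have ZX : Anti G (seg p 1 a) X := by
    rintro _ ⟨i, i0, i1, rfl⟩
    exact L.pX i i0 (by omega) _ rfl
  have rr : ∀ a b, a ≤ n → b ≤ n → a % 2 = 0 → b % 2 = 0 → a ≠ b → Anti G {r a} {r b} :=
    fun a b ha hb a2 b2 hab => anti_singleton_singleton.2 ⟨W.ip.ne ha hb hab, by
      rw [W.ip.adj_iff ha hb]; omega⟩
  have s1 : Sees G (p 0) (seg p 1 a) := ⟨_, apply_mem_seg le_rfl a0, L.ip.adj_succ (by omega)⟩
  have s2 : Sees G (r j) (seg p 1 a) := ⟨_, apply_mem_seg a0 le_rfl, e2.symm⟩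
  by_cases c : j = 0 ∨ j = n
  · refine W.ehf.theta (u := p 0) (v := r j) (X := {r o} ∪ {x}) (L.off 0 (by omega) j hj)
      (fun e => hne (L.c4 W (by omega) hj o1.le e e1))
      ((conn_singleton _).un (conn_singleton _) (Touch.of_adj rfl rfl xo.symm)) cZ W.conn
      ((aZ o o1.le (Ne.symm hne)).union_left (L.xS a1.le)) ((W.rX o o0 o1).union_left W.xX) ZX
      (Or.inr ⟨_, Or.inl rfl, e1⟩) (Or.inr ⟨_, Or.inr rfl, xj.symm⟩) (Or.inr s1) (Or.inr s2)
      (Or.inr L.p0) (Or.inr ?_)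
    rcases c with rfl | rfl
    exacts [W.x0, W.xn]
  · refine W.ehf.theta (u := x) (v := p 0) (X := {r o}) (Y := {r j} ∪ seg p 1 a) (Z := {r 0} ∪ X)
      (L.xp 0 (by omega)).1 (L.xp 0 (by omega)).2 (conn_singleton _)
      ((conn_singleton _).un cZ (touch_singleton_left.2 (Or.inr s2)))
      ((conn_singleton _).un W.conn (touch_singleton_left.2 (Or.inr W.x0)))
      ((rr o j o1.le hj o2 j2 (Ne.symm hne)).union_right (aZ o o1.le (Ne.symm hne)))
      ((rr o 0 o1.le (by omega) o2 rfl (by omega)).union_right (W.rX o o0 o1))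
      (((rr j 0 hj (by omega) j2 rfl (by omega)).union_right
        (W.rX j (by omega) (by omega))).union_left
        ((aZ 0 (by omega) (by omega)).symm.union_right ZX))
      (Or.inr ⟨_, rfl, xo⟩) (Or.inr ⟨_, rfl, e1⟩) (Or.inr ⟨_, Or.inl rfl, xj⟩)
      (Or.inr (s1.mono subset_union_right)) (Or.inr ⟨_, Or.inl rfl, W.s0⟩)
      (Or.inr (L.p0.mono subset_union_right))

theorem caseII (W : Whl G r n x X) (L : Lnk G r n x X p m) {o t i₀ : ℕ} (o0 : 0 < o) (o1 : o < n)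
    (hi : i₀ < m) (e₀ : G.Adj (p i₀) (r o)) (t2 : t < o) (t3 : G.Adj (p m) (r t))
    (t4 : ¬(t % 2 = 0 ∧ G.Adj x (r t))) : False := by
  obtain ⟨o2, xo⟩ := L.ev i₀ hi o o1.le e₀
  have ev := W.even
  have hA : ∀ i, i < m → ∀ j, j ≤ n → G.Adj (p i) (r j) → j = o ∨ (i = 0 ∧ (j = 0 ∨ j = n)) := by
    intro i h1 j hj e
    rcases Nat.eq_zero_or_pos i with rfl | i0 <;> rcases Nat.eq_zero_or_pos i₀ with rfl | i1
    · exact Or.inl (L.c4 W h1 hj o1.le e e₀)
    · by_cases c : j = 0 ∨ j = n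
      · exact Or.inr ⟨rfl, c⟩
      · exact Or.inl (L.two W i1 hi o1.le (by omega) (by omega) e e₀).symm
    · exact Or.inl (L.two W i0 h1 hj o0 o1 e₀ e)
    · exact Or.inl (L.one' W i0 h1 i1 hi hj o1.le e e₀)
  obtain ⟨i, -, i2, i3, i4⟩ := first (p := fun i => G.Adj (p i) (r o)) (Nat.zero_le i₀) e₀
  have hA' : ∀ k, i ≤ k → k < m → ∀ j, j ≤ n → j ≠ o → ¬G.Adj (p k) (r j) := by
    intro k h1 h2 j hj h3 e
    obtain ⟨rfl, -⟩ := (hA k h2 j hj e).resolve_left h3
    obtain rfl : i = 0 := by omega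
    exact h3 (L.c4 W h2 hj o1.le e i3)
  have y1 := L.off m le_rfl
  obtain ⟨y2, y3⟩ := L.xp m le_rfl
  -- the paths to the two ends
  have ends : ∀ u, u = 0 ∨ u = n → (G.Adj (p m) (r u) → (m - i) % 2 = 0) ∧
      (¬G.Adj (p m) (r u) → ∃ e, (e + (m - i)) % 2 = 0 ∧ IP G (p m) (r u) e (X ∪ p '' Iio m)) := by
    intro u hu
    have un : u ≤ n := by omega
    have xu : G.Adj x (r u) := by rcases hu with rfl | rfl; exacts [W.s0, W.sn]
    have uX : Sees G (r u) X := by rcases hu with rfl | rfl; exacts [W.x0, W.xn]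
    obtain ⟨c1, c2⟩ := L.conn W i (by omega)
    obtain ⟨α, hα⟩ := c1.exists_ip_sees c2 (uX.mono subset_union_left)
    have α0 := hα.pos (L.off i (by omega) u un)
    have h1 := W.ehf.odd_of_sector (hα.cons i3.symm α0 (by
        rw [insert_eq, anti_union_right, anti_union_right]
        refine ⟨anti_singleton_singleton.2 ⟨W.ip.ne o1.le un (by omega), ?_⟩, W.rX o o0 o1,
          anti1 ?_⟩
        · rw [W.ip.adj_iff o1.le un]; omega
        · rintro _ ⟨k, hk, rfl⟩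
          exact ⟨(L.off k (by grind) o o1.le).symm, fun e => i4 k (Nat.zero_le _) hk e.symm⟩))
      (W.ip.ne o1.le un (by omega)) xo xu (by
        rw [insert_eq]
        exact (anti_singleton_singleton.2 (L.xp i (by omega))).union_right (L.xD W (by omega)))
    have far : ∀ k, i ≤ k → k < m → Anti G {p (k + 1)} (X ∪ p '' Iio k) := fun k h1 h2 =>
      (L.pX (k + 1) (by omega) h2).union_right (anti1 (by
        rintro _ ⟨l, hl, rfl⟩
        have : l < k := hl
        exact ⟨L.ip.ne h2 (by omega) (by omega), fun e => L.ip.not_adj (by omega) h2 e.symm⟩))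
    have sub : ∀ k, insert (p k) (X ∪ p '' Iio k) ⊆ X ∪ p '' Iio (k + 1) := by
      rintro k _ (rfl | h | ⟨l, hl, rfl⟩)
      exacts [Or.inr ⟨k, by simp, rfl⟩, Or.inl h, Or.inr ⟨l, by grind, rfl⟩]
    have step : ∀ k, i ≤ k → k < m → ¬G.Adj (p (k + 1)) (r u) →
        IP G (p k) (r u) (α + (k - i)) (X ∪ p '' Iio k) →
        IP G (p (k + 1)) (r u) (α + (k + 1 - i)) (X ∪ p '' Iio (k + 1)) := by
      intro k h1 h2 h3 h4
      rw [show α + (k + 1 - i) = α + (k - i) + 1 by omega]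
      refine (h4.cons (L.ip.adj_succ h2).symm (by omega) ?_).mono (sub k)
      rw [insert_eq]
      exact (anti_singleton_singleton.2 ⟨L.off _ h2 u un, h3⟩).union_right (far k h1 h2)
    have all : ∀ k, i ≤ k → k < m → IP G (p k) (r u) (α + (k - i)) (X ∪ p '' Iio k) := by
      intro k h1
      induction k, h1 using Nat.le_induction with
      | base => exact fun _ => by simpa using hα
      | succ k h1 ih =>
        exact fun h2 => step k h1 (by omega) (hA' _ (by omega) h2 u un (by omega)) (ih (by omega))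
    obtain ⟨k, rfl⟩ : ∃ k, m = k + 1 := ⟨m - 1, by omega⟩
    have h2 := all k (by omega) (by omega)
    rw [Nat.odd_iff] at h1
    refine ⟨fun e => ?_, fun e => ⟨_, by omega, step k (by omega) (by omega) e h2⟩⟩
    have := W.ehf.odd_of_sector h2 (L.off k (by omega) u un) (L.ip.adj_succ (by omega)).symm e
      (far k (by omega) (by omega))
    rw [Nat.odd_iff] at this
    omega
  have hD : ∀ j, j ≤ n → ¬(j = 0 ∨ j = n ∨ j = o) → Anti G {r j} (X ∪ p '' Iio m) := fun j hj h =>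
    (W.rX j (by omega) (by omega)).union_right (anti1 (by
      rintro _ ⟨k, hk, rfl⟩
      exact ⟨(L.off k (le_of_lt hk) j hj).symm, fun e => by have := hA k hk j hj e.symm; omega⟩))
  have via := fun t d ht xt yt h => W.ehf.via (t := t) (d := d) W.ip W.off y1 y2 y3
    (L.xD W le_rfl) hD ht xt yt h
  obtain ⟨d, hd⟩ := (L.ip.conn_seg (i := i) (j := m - 1) (by omega) (by omega)).exists_ip_sees
    (u := p m) (v := r o) ⟨_, apply_mem_seg (by omega) le_rfl, L.ip.adj_pred (by omega) le_rfl⟩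
    ⟨_, apply_mem_seg le_rfl (by omega), i3.symm⟩
  have vo := fun no => W.ehf.via (A := fun j => j = o) W.ip W.off y1 y2 y3 (L.xS (by omega))
    (fun j hj h => anti1 (by
      rintro _ ⟨k, k1, k2, rfl⟩
      exact ⟨(L.off k (by omega) j hj).symm, fun e => hA' k k1 (by omega) j hj h e.symm⟩))
    o1.le xo no hd
  refine SC.caseII (d := d) (e := m - i) (W.base y1 y2 y3) o2 o1 xo t2 t3 t4
    (fun f h1 h2 h3 => ?_) (fun n0 a b h h1 h2 => ?_) (fun nn a b h h1 h2 => ?_)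
    (ends n (Or.inr rfl)).1
    (fun no a b h h1 h2 => (vo no).1 a b h h1 h2 fun j _ _ => by omega) fun no l h1 h2 h3 => ?_
  · by_cases n0 : G.Adj (p m) (r 0)
    · have := (ends 0 (Or.inl rfl)).1 n0
      have : f = 0 := by
        by_contra h
        exact h3 0 (by omega) n0
      omega
    · obtain ⟨e, h4, h5⟩ := (ends 0 (Or.inl rfl)).2 n0
      have := (via 0 e (by omega) W.s0 n0 h5).2.1 f (Nat.pos_of_ne_zero fun h => n0 (h ▸ h2))
        (by omega) h2 (fun j _ => h3 j) fun j _ _ => by omega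
      omega
  · obtain ⟨e, h4, h5⟩ := (ends 0 (Or.inl rfl)).2 n0
    have := (via 0 e (by omega) W.s0 n0 h5).1 a b h (by omega) (by omega) fun j _ _ => by omega
    omega
  · obtain ⟨e, h4, h5⟩ := (ends n (Or.inr rfl)).2 nn
    have := (via n e le_rfl W.sn nn h5).1 a b h (by omega) (by omega) fun j _ _ => by omega
    omega
  · have := (vo no).2.2 l h1 h2 (fun j a b => (Nat.lt_or_eq_of_le b).elim (h3 j a) fun h => h ▸ no)
      fun j _ _ => by omega
    omega

end Lnk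

/-- (SC), strong form: a connected set outside `N[x]` that touches `X` touches the inner part of
the rim path only in spokes at even positions. -/
theorem Whl.sc {r : ℕ → V} {n : ℕ} {x : V} {X Y : Set V} (W : Whl G r n x X) {s : ℕ} (s1 : 2 ≤ s)
    (s2 : s + 2 ≤ n) (s3 : G.Adj x (r s)) (hY : Conn G Y) (xY : Anti G {x} Y) (hYX : Touch G Y X)
    {t : ℕ} (t1 : 0 < t) (t2 : t < n) (ht : r t ∈ cN G Y) : t % 2 = 0 ∧ G.Adj x (r t) := by
  by_contra t4
  obtain ⟨m, p, hp, pY, p0, pm, pA, pB⟩ := hY.extract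
    (B := {z | ∃ j, 0 < j ∧ j < n ∧ ¬(j % 2 = 0 ∧ G.Adj x (r j)) ∧ r j = z}) hYX
    (Touch.symm (touch_iff.2 ⟨_, ⟨t, t1, t2, t4, rfl⟩, ht⟩)) (Anti.symm (by
      rintro _ ⟨j, j1, j2, -, rfl⟩
      exact W.rX j j1 j2 _ rfl))
  have ev := W.even
  have sp : ∀ j, j ≤ n → (j % 2 = 0 ∧ G.Adj x (r j)) ∨
      r j ∈ {z | ∃ j, 0 < j ∧ j < n ∧ ¬(j % 2 = 0 ∧ G.Adj x (r j)) ∧ r j = z} := by
    intro j hj
    by_cases c : j % 2 = 0 ∧ G.Adj x (r j)
    · exact Or.inl c
    · exact Or.inr ⟨j, Nat.pos_of_ne_zero fun h => c ⟨by omega, h ▸ W.s0⟩,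
        lt_of_le_of_ne hj fun h => c ⟨by omega, h ▸ W.sn⟩, c, rfl⟩
  have L : Lnk G r n x X p m := ⟨hp, fun i hi j hj e => (sp j hj).elim
      (fun h => xY.not_adj rfl (pY i hi).1 (e ▸ h.2)) fun h => (pY i hi).2.2 (e ▸ h),
    fun i hi => xY x rfl _ (pY i hi).1, p0,
    fun i h1 h2 => anti_iff.2 (by rintro _ rfl; exact pA i h1 h2),
    fun i hi j hj e => (sp j hj).resolve_right fun h => pB i hi (Or.inr ⟨_, h, e⟩)⟩
  obtain ⟨_, ⟨u, u1, u2, u4, rfl⟩, u3⟩ := pm
  have un : n - (n - u) = u := by omega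
  have u4' : ¬((n - u) % 2 = 0 ∧ G.Adj x (r (n - (n - u)))) := fun h =>
    u4 ⟨by omega, un ▸ h.2⟩
  by_cases hI : ∀ i, i < m → ∀ j, 0 < j → j < n → ¬G.Adj (p i) (r j)
  · by_cases nn : G.Adj (p m) (r n)
    · refine (L.rev W).caseI W.rev (s := n - s) (t := n - u) (by omega) (by omega)
        (by rwa [show n - (n - s) = s by omega]) (by omega) (by omega) (by rwa [un]) u4' ?_
        fun i hi j j1 j2 => hI i hi _ (by omega) (by omega)
      intro n0
      rw [Nat.sub_self] at n0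
      exact W.ip.not_adj (by omega) le_rfl (W.ehf.adj_of_common (L.xp m le_rfl).1
        (L.xp m le_rfl).2 W.s0 n0 W.sn nn (W.ip.ne (by omega) le_rfl (by omega)))
    · exact L.caseI W s1 s2 s3 u1 u2 u3 u4 nn hI
  · push Not at hI
    obtain ⟨i, hi, o, o0, o1, e⟩ := hI
    rcases lt_trichotomy u o with h | rfl | h
    · exact L.caseII W o0 o1 hi e h u3 u4
    · exact u4 (L.ev i hi u o1.le e)
    · exact (L.rev W).caseII W.rev (o := n - o) (t := n - u) (by omega) (by omega) hi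
        (by rwa [show n - (n - o) = o by omega]) (by omega) (by rwa [un]) u4'

/-- (SC): the component of `G - N[x]` at a vertex of `X` misses the rim path. -/
theorem Whl.sc_comp {r : ℕ → V} {n : ℕ} {x u : V} {X : Set V} (W : Whl G r n x X) {s : ℕ}
    (s1 : 2 ≤ s) (s2 : s + 2 ≤ n) (s3 : G.Adj x (r s)) (hu : u ∈ X) {t : ℕ} (t2 : t ≤ n) :
    r t ∉ comp G (cN G {x})ᶜ u := by
  intro ht
  have hx : ¬G.Adj x (r t) := fun e => comp_subset _ _ ht (mem_cN_singleton.2 (Or.inr e.symm))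
  exact hx (W.sc (t := t) s1 s2 s3 (conn_comp ht.1) (anti_iff.2 (comp_subset _ u)).symm
    (Touch.of_mem (mem_comp_self ht.1) hu) (Nat.pos_of_ne_zero fun h => hx (h ▸ W.s0))
    (lt_of_le_of_ne t2 fun h => hx (h ▸ W.sn)) (Or.inl ht)).2

end Pool.Agent.Ehf
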