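import Pool.Agent.MP_3ad207_lc.H46.Spec5
import Pool.Agent.MP_3ad207_lc.H56.SC

/-! The two star cutset statements for proper wheels. -/

set_option autoImplicit false

namespace Pool.Agent.Ehf

open Set SC

variable {V : Type*} {G : SimpleGraph V}

theorem Wheel.whl (hG : EHF G) {r : ℕ → V} {m : ℕ} {X : Set V} {z : V} (W : Wheel G r m X z) :
    Whl G r m z X := by
  obtain ⟨s, s1, s2, -⟩ := W.mid
  exact ⟨hG, W.ip, by omega, fun j hj => (W.off j hj).symm, W.z0, W.zm, W.conn, W.zX,
    fun j h1 h2 => (W.anti.symm).mono (singleton_subset_iff.2 (apply_mem_seg h1 (by omega))) le_rfl,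
    W.s0, W.sm⟩

theorem sc1Stmt : SC1Stmt := by
  intro V _ G hG r m X z W Y hY zY hYX i hi hr
  obtain ⟨s, s1, s2, s3⟩ := W.mid
  have hx : ¬G.Adj z (r i) := zY.not_adj rfl hr
  exact hx ((W.whl hG).sc (t := i) s1 s2 s3 hY zY hYX
    (Nat.pos_of_ne_zero fun h => hx (h ▸ W.z0)) (lt_of_le_of_ne hi fun h => hx (h ▸ W.zm))
    (Or.inl hr)).2

/-- the rim seen from another long sector -/
theorem Wheel.rot (hG : EHF G) {r : ℕ → V} {m : ℕ} {X : Set V} {z : V} (W : Wheel G r m X z)
    {a b : ℕ} (hab : a + 2 ≤ b) (hb : b ≤ m) (za : G.Adj z (r a)) (zb : G.Adj z (r b))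
    (hn : ∀ l, a < l → l < b → ¬G.Adj z (r l)) :
    ∃ (q : ℕ → V) (n : ℕ), Whl G q n z (seg r (a + 1) (b - 1)) ∧ m - b + 2 ≤ n ∧
      ∀ l, l ≤ m - b → q l = r (b + l) := by
  obtain ⟨d, hd⟩ := W.conn.exists_ip_sees W.sm W.s0
  have d2 : 2 ≤ d := hd.two_le (W.ip.ne le_rfl (Nat.zero_le m) (by omega)) fun e =>
    W.ip.not_adj (by omega) le_rfl e.symm
  obtain ⟨f, hf, f0, fd, fX⟩ := hd
  obtain ⟨c, rfl⟩ : ∃ c, m = b + c := ⟨m - b, by omega⟩
  rw [Nat.add_sub_cancel_left]
  have hip := W.ip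
  let q : ℕ → V := fun l => if l ≤ c then r (b + l) else if l < c + d then f (l - c)
    else r (l - (c + d))
  have qA : ∀ l, l ≤ c → q l = r (b + l) := fun l h => by simp only [q, h, if_true]
  have qB : ∀ l, c ≤ l → l ≤ c + d → q l = f (l - c) := fun l h1 h2 => by
    rcases Nat.eq_or_lt_of_le h1 with rfl | h1
    · rw [qA _ le_rfl, Nat.sub_self, f0]
    · rcases Nat.eq_or_lt_of_le h2 with rfl | h2
      · simp only [q, not_le.2 h1, lt_irrefl, if_false, Nat.sub_self, Nat.add_sub_cancel_left, fd]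
      · simp only [q, not_le.2 h1, h2, if_true, if_false]
  have qC : ∀ l, c + d ≤ l → q l = r (l - (c + d)) := fun l h => by
    have h1 : ¬l ≤ c := by omega
    simp only [q, h1, not_lt.2 h, if_false]
  have rX : ∀ l, 0 < l → l < b + c → ∀ k, 0 < k → k < d → r l ≠ f k ∧ ¬G.Adj (r l) (f k) :=
    fun l l1 l2 k k1 k2 => W.anti.symm _ (apply_mem_seg l1 (by omega)) _ (fX k k1 k2)
  refine ⟨q, c + d + a, ⟨hG, fun i j hij hj => ?_, by omega, fun j hj => ?_, ?_, ?_,
    hip.conn_seg (by omega) (by omega), anti1 ?_, fun j j1 j2 => anti1 ?_, ?_, ?_⟩, by omega, qA⟩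
  · by_cases j1 : j ≤ c
    · rw [qA i (by omega), qA j j1, hip.adj_iff (by omega) (by omega)]
      exact ⟨hip.ne (by omega) (by omega) (by omega), by omega⟩
    by_cases i1 : c + d ≤ i
    · rw [qC i i1, qC j (by omega), hip.adj_iff (by omega) (by omega)]
      exact ⟨hip.ne (by omega) (by omega) (by omega), by omega⟩
    by_cases ij : c ≤ i ∧ j ≤ c + d
    · rw [qB i ij.1 (by omega), qB j (by omega) ij.2, hf.adj_iff (by omega) (by omega)]
      exact ⟨hf.ne (by omega) (by omega) (by omega), by omega⟩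
    by_cases i2 : i ≤ c
    · by_cases j2 : c + d ≤ j
      · rw [qA i i2, qC j j2, hip.adj_iff (by omega) (by omega)]
        exact ⟨hip.ne (by omega) (by omega) (by omega), by omega⟩
      · rw [qA i i2, qB j (by omega) (by omega)]
        have := rX (b + i) (by omega) (by omega) (j - c) (by omega) (by omega)
        exact ⟨this.1, fun e => (this.2 e).elim, fun e => by omega⟩
    · rw [qB i (by omega) (by omega), qC j (by omega)]
      have := rX (j - (c + d)) (by omega) (by omega) (i - c) (by omega) (by omega)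
      exact ⟨this.1.symm, fun e => (this.2 e.symm).elim, fun e => by omega⟩
  · by_cases j1 : j ≤ c
    · rw [qA j j1]
      exact (W.off _ (by omega)).symm
    by_cases j2 : c + d ≤ j
    · rw [qC j j2]
      exact (W.off _ (by omega)).symm
    · rw [qB j (by omega) (by omega)]
      exact W.zX.ne rfl (fX _ (by omega) (by omega))
  · rwa [qA 0 (Nat.zero_le _)]
  · rwa [qC _ (by omega), Nat.add_sub_cancel_left]
  · rintro _ ⟨k, k1, k2, rfl⟩
    exact ⟨(W.off k (by omega)).symm, hn k (by omega) (by omega)⟩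
  · rintro _ ⟨k, k1, k2, rfl⟩
    by_cases c1 : j ≤ c
    · rw [qA j c1, hip.adj_iff (by omega) (by omega)]
      exact ⟨hip.ne (by omega) (by omega) (by omega), by omega⟩
    by_cases c2 : c + d ≤ j
    · rw [qC j c2, hip.adj_iff (by omega) (by omega)]
      exact ⟨hip.ne (by omega) (by omega) (by omega), by omega⟩
    · rw [qB j (by omega) (by omega)]
      have := rX k (by omega) (by omega) (j - c) (by omega) (by omega)
      exact ⟨this.1.symm, fun e => this.2 e.symm⟩
  · rw [qA 0 (Nat.zero_le _)]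
    exact ⟨_, apply_mem_seg (by omega) le_rfl, hip.adj_pred (by omega) (by omega)⟩
  · rw [qC _ (by omega), Nat.add_sub_cancel_left]
    exact ⟨_, apply_mem_seg le_rfl (by omega), hip.adj_succ (by omega)⟩

theorem sc2Stmt : SC2Stmt := by
  intro V _ G hG r m X z W Y hY zY i k j ik kj jm zk hi hj
  have ni : ¬G.Adj z (r i) := zY.not_adj rfl hi
  have nj : ¬G.Adj z (r j) := zY.not_adj rfl hj
  have jm' : j ≠ m := fun h => nj (h ▸ W.zm)
  obtain ⟨a, -, a2, a3, a4⟩ := last (p := fun l => G.Adj z (r l)) (Nat.zero_le i) W.z0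
  obtain ⟨b, b1, b2, b3, b4⟩ := first (p := fun l => G.Adj z (r l)) ik.le zk
  have ai : a ≠ i := fun h => ni (h ▸ a3)
  have bi : b ≠ i := fun h => ni (h ▸ b3)
  obtain ⟨q, n, hW, hn, hq⟩ := W.rot hG (a := a) (b := b) (by omega) (by omega) a3 b3
    fun l l1 l2 => (le_total l i).elim (a4 l l1) fun h => b4 l h l2
  have e : q (j - b) = r j := by
    rw [hq _ (by omega)]
    congr 1
    omega
  have := (hW.sc (s := m - b) (t := j - b) (by omega) hn (by
    rw [hq _ le_rfl, show b + (m - b) = m by omega]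
    exact W.zm) hY zY (Touch.of_mem hi (apply_mem_seg (by omega) (by omega))) (by omega) (by omega)
    (Or.inl (e ▸ hj))).2
  exact nj (e ▸ this)

end Pool.Agent.Ehf
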