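import Mathlib

/-!
The dynamic programme for maximum stable sets (mathematical definitions, no machines).
-/

set_option autoImplicit false

namespace Pool.Agent.MP_3ad207_lc.H56

open Set
open scoped Classical

noncomputable section

section Generic

variable {V : Type} (G : SimpleGraph V)

/-- Closed neighbourhood `N[X]`. -/
def cN (X : Set V) : Set V := {y | y ∈ X ∨ ∃ x ∈ X, G.Adj x y}

/-- The vertices reachable from `X ∩ U` by walks inside `U`. -/
def Reach (U X : Set V) : Set V :=
  {y | ∃ x ∈ X, x ∈ U ∧ Relation.ReflTransGen (fun a b => G.Adj a b ∧ b ∈ U) x y}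

/-- Only the edges with both ends in `A` are kept. -/
def restr (A : Set V) : SimpleGraph V where
  Adj x y := G.Adj x y ∧ x ∈ A ∧ y ∈ A
  symm := ⟨fun _ _ h => ⟨h.1.symm, h.2.2, h.2.1⟩⟩
  loopless := ⟨fun _ h => G.irrefl h.1⟩

/-- The hypothesis of the frozen statement: no even hole. -/
def EHF0 : Prop :=
  ∀ k : ℕ, 2 ≤ k → IsEmpty (SimpleGraph.Embedding (SimpleGraph.cycleGraph (2 * k)) G)

end Generic

/-- An operation on vertex sets: arguments `n G S X Y Z`. -/
abbrev Op : Type :=
  ∀ n : ℕ, SimpleGraph (Fin n) → Set (Fin n) → Set (Fin n) → Set (Fin n) → Set (Fin n) → Set (Fin n)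

/-- The four operations that are always available. -/
def baseOps : List Op :=
  [fun _ _ _ X Y _ => X ∪ Y, fun _ _ _ X Y _ => X \ Y, fun _ G _ X _ _ => cN G X,
    fun _ G _ X Y _ => Reach G X Y]

variable {n : ℕ}

/-- The list of all singletons. -/
def sings (n : ℕ) : List (Set (Fin n)) := (List.finRange n).map fun z => {z}

/-- The canonical sets of level `k`, as a list. -/
def canS (ops : List Op) (G : SimpleGraph (Fin n)) (S : Set (Fin n)) : ℕ → List (Set (Fin n))
  | 0 => ∅ :: univ :: S :: sings n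
  | k + 1 => canS ops G S k ++ (baseOps ++ ops).flatMap fun o =>
      (canS ops G S k).flatMap fun X => (canS ops G S k).flatMap fun Y =>
        (canS ops G S k).map fun Z => o n G S X Y Z

/-- `X` is canonical of level `k`. -/
def Can (ops : List Op) (G : SimpleGraph (Fin n)) (S : Set (Fin n)) (k : ℕ) (X : Set (Fin n)) :
    Prop := X ∈ canS ops G S k

/-- Additive injective weight; it orders sets by `|X|`, then `|X ∩ S|`, then binary value. -/
def wt (S X : Set (Fin n)) : ℕ :=
  ∑ x : Fin n, if x ∈ X then 2 ^ n * (n + 1) + (if x ∈ S then 2 ^ n else 0) + 2 ^ x.val else 0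

/-- The heavier of two sets. -/
def better (S X Y : Set (Fin n)) : Set (Fin n) := if wt S X ≤ wt S Y then Y else X

/-- `X` if it is stable, else the empty set. -/
def clean (G : SimpleGraph (Fin n)) (X : Set (Fin n)) : Set (Fin n) :=
  if G.IsIndepSet X then X else ∅

/-- The candidate for `Γ` given by the deleted set `W` and the chosen set `Ch`. -/
def cand (G : SimpleGraph (Fin n)) (S : Set (Fin n)) (J : Set (Fin n) → Set (Fin n))
    (Γ W Ch : Set (Fin n)) : Set (Fin n) :=
  (Ch ∩ Γ) ∪ {y | ∃ x ∈ Wᶜ, y ∈ better S (J (Reach G Wᶜ {x}) ∩ Γ) (S ∩ Reach G Wᶜ {x} ∩ Γ)}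

/-- The table after `r` rounds; `F` is the list of sets that may be deleted or chosen. -/
def tab (G : SimpleGraph (Fin n)) (S : Set (Fin n)) (F : List (Set (Fin n))) :
    ℕ → Set (Fin n) → Set (Fin n)
  | 0, Γ => S ∩ Γ
  | r + 1, Γ => (F.flatMap fun W => F.map fun Ch => clean G (cand G S (tab G S F r) Γ W Ch)).foldl
      (better S) (tab G S F r Γ)

/-- One augmentation step. -/
def step (ops : List Op) (K c : ℕ) (G : SimpleGraph (Fin n)) (S : Set (Fin n)) : Set (Fin n) :=
  tab G S (canS ops G S K) (c * (n + 1)) univ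

/-- The algorithm: vertices are switched on one after the other. -/
def mis (ops : List Op) (K c : ℕ) (G : SimpleGraph (Fin n)) : Set (Fin n) :=
  (List.finRange n).foldl (fun S v => step ops K c (restr G {x | x ≤ v}) (S \ {v})) univ

/-- `I` is the heaviest stable set. -/
def IsOpt (G : SimpleGraph (Fin n)) (S I : Set (Fin n)) : Prop :=
  G.IsIndepSet I ∧ ∀ T, G.IsIndepSet T → wt S T ≤ wt S I

/-- `S` is a maximum stable set of `G - v`. -/
def MaxOff (G : SimpleGraph (Fin n)) (v : Fin n) (S : Set (Fin n)) : Prop :=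
  v ∉ S ∧ G.IsIndepSet S ∧ ∀ T, G.IsIndepSet T → v ∉ T → T.ncard ≤ S.ncard

/-- The claim `R_r(P)`: after `r` rounds the table is right on every `Γ` without outer neighbour
in `I` whose part in `H = I Δ S` lies in `P`. -/
def RR (ops : List Op) (K : ℕ) (G : SimpleGraph (Fin n)) (S I : Set (Fin n)) (r : ℕ)
    (P : Set (Fin n)) : Prop :=
  ∀ Γ : Set (Fin n), Disjoint (cN G Γ \ Γ) I → Γ ∩ symmDiff I S ⊆ P →
    tab G S (canS ops G S K) r Γ = I ∩ Γ

/-- What the graph theory has to deliver. -/
def StepOK (ops : List Op) (K c : ℕ) : Prop :=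
  ∀ (n : ℕ) (G : SimpleGraph (Fin n)) (v : Fin n) (S I : Set (Fin n)), EHF0 G → MaxOff G v S →
    IsOpt G S I → RR ops K G S I (c * (n + 1)) (symmDiff I S)

end

end Pool.Agent.MP_3ad207_lc.H56
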