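import Pool.Agent.MP_3ad207_lc.H56.Alg

/-!
Correctness of the dynamic programme: canonical sets, the weight, the context lemma, the outer loop.
-/

set_option autoImplicit false

namespace Pool.Agent.MP_3ad207_lc.H56

open Set
open scoped Classical

variable {n : ℕ} {ops : List Op} {G : SimpleGraph (Fin n)} {S I : Set (Fin n)}

/-! ### Canonical sets -/

theorem Can.succ {k : ℕ} {X : Set (Fin n)} (h : Can ops G S k X) : Can ops G S (k + 1) X :=
  List.mem_append_left _ h

theorem Can.mono {k l : ℕ} {X : Set (Fin n)} (h : Can ops G S k X) (hk : k ≤ l) :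
    Can ops G S l X := by
  induction hk with
  | refl => exact h
  | step _ ih => exact ih.succ

theorem Can.empty (k : ℕ) : Can ops G S k ∅ :=
  Can.mono (k := 0) (by simp [Can, canS]) (Nat.zero_le k)

theorem Can.univ (k : ℕ) : Can ops G S k univ :=
  Can.mono (k := 0) (by simp [Can, canS]) (Nat.zero_le k)

theorem Can.base (k : ℕ) : Can ops G S k S :=
  Can.mono (k := 0) (by simp [Can, canS]) (Nat.zero_le k)

theorem Can.single (k : ℕ) (v : Fin n) : Can ops G S k {v} :=
  Can.mono (k := 0) (by simp [Can, canS, sings]) (Nat.zero_le k)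

theorem Can.op' {k : ℕ} {o : Op} (ho : o ∈ baseOps ++ ops) {X Y Z : Set (Fin n)}
    (hX : Can ops G S k X) (hY : Can ops G S k Y) (hZ : Can ops G S k Z) :
    Can ops G S (k + 1) (o n G S X Y Z) := by
  refine List.mem_append_right _ (List.mem_flatMap.2 ⟨o, ho, List.mem_flatMap.2 ⟨X, hX,
    List.mem_flatMap.2 ⟨Y, hY, List.mem_map.2 ⟨Z, hZ, rfl⟩⟩⟩⟩)

theorem Can.op {k : ℕ} {o : Op} (ho : o ∈ ops) {X Y Z : Set (Fin n)}
    (hX : Can ops G S k X) (hY : Can ops G S k Y) (hZ : Can ops G S k Z) :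
    Can ops G S (k + 1) (o n G S X Y Z) := Can.op' (List.mem_append_right _ ho) hX hY hZ

theorem Can.union {k : ℕ} {X Y : Set (Fin n)} (hX : Can ops G S k X) (hY : Can ops G S k Y) :
    Can ops G S (k + 1) (X ∪ Y) :=
  Can.op' (o := fun _ _ _ X Y _ => X ∪ Y) (by simp [baseOps]) hX hY hX

theorem Can.diff {k : ℕ} {X Y : Set (Fin n)} (hX : Can ops G S k X) (hY : Can ops G S k Y) :
    Can ops G S (k + 1) (X \ Y) :=
  Can.op' (o := fun _ _ _ X Y _ => X \ Y) (by simp [baseOps]) hX hY hX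

theorem Can.cN {k : ℕ} {X : Set (Fin n)} (hX : Can ops G S k X) :
    Can ops G S (k + 1) (cN G X) :=
  Can.op' (o := fun _ G _ X _ _ => H56.cN G X) (by simp [baseOps]) hX hX hX

theorem Can.reach {k : ℕ} {U X : Set (Fin n)} (hU : Can ops G S k U) (hX : Can ops G S k X) :
    Can ops G S (k + 1) (Reach G U X) :=
  Can.op' (o := fun _ G _ X Y _ => Reach G X Y) (by simp [baseOps]) hU hX hX

theorem Can.compl {k : ℕ} {X : Set (Fin n)} (hX : Can ops G S k X) : Can ops G S (k + 1) Xᶜ := by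
  rw [compl_eq_univ_sdiff]
  exact (Can.univ k).diff hX

theorem Can.inter {k : ℕ} {X Y : Set (Fin n)} (hX : Can ops G S k X) (hY : Can ops G S k Y) :
    Can ops G S (k + 2) (X ∩ Y) := by
  rw [← Set.sdiff_sdiff_right_self]
  exact hX.succ.diff (hX.diff hY)

/-- A union of `m` canonical sets. -/
theorem Can.biUnion {ι : Type} {k : ℕ} (s : Finset ι) (f : ι → Set (Fin n))
    (h : ∀ i ∈ s, Can ops G S k (f i)) : Can ops G S (k + s.card) (⋃ i ∈ s, f i) := by
  induction s using Finset.induction_on with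
  | empty => simpa using Can.empty k
  | insert a s ha ih =>
    rw [Finset.set_biUnion_insert, Finset.card_insert_of_notMem ha]
    exact ((h a (by simp)).mono (Nat.le_add_right _ _)).union (ih fun i hi => h i (by simp [hi]))

/-- A set of at most `k` vertices. -/
theorem Can.of_ncard {k : ℕ} {X : Set (Fin n)} (h : X.ncard ≤ k) : Can ops G S k X := by
  have := Can.biUnion (ops := ops) (G := G) (S := S) (k := 0) X.toFinset (fun v => {v})
    (fun v _ => Can.single 0 v)
  have e : (⋃ v ∈ X.toFinset, ({v} : Set (Fin n))) = X := by ext; simp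
  rw [e] at this
  exact this.mono (by rw [← ncard_eq_toFinset_card']; omega)

/-! ### The weight -/

/-- The binary value of a set. -/
noncomputable def bin (X : Set (Fin n)) : ℕ := ∑ x : Fin n, if x ∈ X then 2 ^ x.val else 0

theorem bin_eq (X : Set (Fin n)) : bin X = ∑ i ∈ X.toFinset.map Fin.valEmbedding, 2 ^ i := by
  rw [Finset.sum_map, bin, ← Finset.sum_filter]
  exact Finset.sum_congr (by ext; simp) fun _ _ => rfl

theorem bin_lt (X : Set (Fin n)) : bin X < 2 ^ n := by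
  rw [bin_eq]
  refine Nat.geomSum_lt le_rfl fun k hk => ?_
  obtain ⟨x, -, rfl⟩ := Finset.mem_map.1 hk
  exact x.2

theorem bin_inj {X Y : Set (Fin n)} (h : bin X = bin Y) : X = Y := by
  rw [bin_eq, bin_eq] at h
  have := Finset.map_injective _ (Finset.geomSum_injective le_rfl h)
  exact toFinset_inj.1 this

theorem sum_ite_const (X : Set (Fin n)) (c : ℕ) :
    (∑ x : Fin n, if x ∈ X then c else 0) = X.ncard * c := by
  rw [← Finset.sum_filter, Finset.sum_const, smul_eq_mul, ncard_eq_toFinset_card']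
  congr 2
  ext; simp

theorem wt_eq (S X : Set (Fin n)) :
    wt S X = X.ncard * (2 ^ n * (n + 1)) + (X ∩ S).ncard * 2 ^ n + bin X := by
  rw [wt, bin, ← sum_ite_const, ← sum_ite_const, ← Finset.sum_add_distrib,
    ← Finset.sum_add_distrib]
  refine Finset.sum_congr rfl fun x _ => ?_
  by_cases h1 : x ∈ X <;> by_cases h2 : x ∈ S <;> simp [h1, h2]

theorem ncard_le_n (X : Set (Fin n)) : X.ncard ≤ n := by
  simpa using ncard_le_card X

theorem wt_lt_of_ncard_lt {X Y : Set (Fin n)} (h : X.ncard < Y.ncard) : wt S X < wt S Y := by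
  rw [wt_eq, wt_eq]
  have h1 := bin_lt X
  have h2 := Nat.mul_le_mul_right (2 ^ n) (ncard_le_n (X ∩ S))
  have h3 := Nat.mul_le_mul_right (2 ^ n * (n + 1)) (Nat.succ_le_of_lt h)
  simp only [Nat.succ_mul] at h3
  nlinarith

theorem wt_lt_of_inter_lt {X Y : Set (Fin n)} (h : X.ncard = Y.ncard)
    (h' : (X ∩ S).ncard < (Y ∩ S).ncard) : wt S X < wt S Y := by
  rw [wt_eq, wt_eq, h]
  have h1 := bin_lt X
  have h3 := Nat.mul_le_mul_right (2 ^ n) (Nat.succ_le_of_lt h')
  simp only [Nat.succ_mul] at h3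
  omega

theorem wt_inj {X Y : Set (Fin n)} (h : wt S X = wt S Y) : X = Y := by
  have h1 : X.ncard = Y.ncard := by
    rcases lt_trichotomy X.ncard Y.ncard with h1 | h1 | h1
    · exact absurd h (wt_lt_of_ncard_lt h1).ne
    · exact h1
    · exact absurd h (wt_lt_of_ncard_lt h1).ne'
  have h2 : (X ∩ S).ncard = (Y ∩ S).ncard := by
    rcases lt_trichotomy (X ∩ S).ncard (Y ∩ S).ncard with h2 | h2 | h2
    · exact absurd h (wt_lt_of_inter_lt h1 h2).ne
    · exact h2
    · exact absurd h (wt_lt_of_inter_lt h1.symm h2).ne'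
  rw [wt_eq, wt_eq, h1, h2] at h
  exact bin_inj (by omega)

theorem wt_union {X Y : Set (Fin n)} (h : Disjoint X Y) : wt S (X ∪ Y) = wt S X + wt S Y := by
  rw [wt, wt, wt, ← Finset.sum_add_distrib]
  refine Finset.sum_congr rfl fun x _ => ?_
  have : x ∈ X → x ∉ Y := fun hx => Set.disjoint_left.1 h hx
  by_cases h1 : x ∈ X <;> by_cases h2 : x ∈ Y <;> simp_all

theorem exists_opt (G : SimpleGraph (Fin n)) (S : Set (Fin n)) : ∃ I, IsOpt G S I := by
  obtain ⟨I, hI, h⟩ := exists_max_image {T | G.IsIndepSet T} (wt S) (toFinite _)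
    ⟨∅, pairwise_empty _⟩
  exact ⟨I, hI, h⟩

/-- The optimum is a maximum stable set. -/
theorem IsOpt.ncard_le (h : IsOpt G S I) {T : Set (Fin n)} (hT : G.IsIndepSet T) :
    T.ncard ≤ I.ncard :=
  not_lt.1 fun hlt => absurd (h.2 T hT) (not_le.2 (wt_lt_of_ncard_lt hlt))

/-- Among the maximum stable sets the optimum has the largest intersection with `S`. -/
theorem IsOpt.inter_le (h : IsOpt G S I) {T : Set (Fin n)} (hT : G.IsIndepSet T)
    (hc : T.ncard = I.ncard) : (T ∩ S).ncard ≤ (I ∩ S).ncard :=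
  not_lt.1 fun hlt => absurd (h.2 T hT) (not_le.2 (wt_lt_of_inter_lt hc.symm hlt))

/-- (OPT) -/
theorem IsOpt.local (h : IsOpt G S I) {Γ T : Set (Fin n)} (hΓ : Disjoint (cN G Γ \ Γ) I)
    (hT : G.IsIndepSet T) (hTΓ : T ⊆ Γ) : wt S T ≤ wt S (I ∩ Γ) := by
  have h1 : G.IsIndepSet (T ∪ I \ Γ) := by
    have key : ∀ x ∈ T, ∀ y ∈ I \ Γ, ¬G.Adj x y := fun x hx y hy hxy =>
      Set.disjoint_left.1 hΓ ⟨Or.inr ⟨x, hTΓ hx, hxy⟩, hy.2⟩ hy.1
    rintro x (hx | hx) y (hy | hy) hne
    · exact hT hx hy hne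
    · exact key x hx y hy
    · exact fun hxy => key y hy x hx hxy.symm
    · exact h.1 hx.1 hy.1 hne
  have h2 := h.2 _ h1
  have h3 : I = I ∩ Γ ∪ I \ Γ := (inter_union_sdiff I Γ).symm
  rw [wt_union (Set.disjoint_left.2 fun x hx hx' => hx'.2 (hTΓ hx))] at h2
  have h4 : wt S I = wt S (I ∩ Γ) + wt S (I \ Γ) := by
    conv_lhs => rw [h3]
    exact wt_union (Set.disjoint_left.2 fun x hx hx' => hx'.2 hx.2)
  omega

/-! ### The table -/

theorem better_cases (S X Y : Set (Fin n)) : better S X Y = X ∨ better S X Y = Y := by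
  unfold better; split_ifs <;> simp

theorem le_better_left (S X Y : Set (Fin n)) : wt S X ≤ wt S (better S X Y) := by
  unfold better; split_ifs with h
  exacts [h, le_rfl]

theorem le_better_right (S X Y : Set (Fin n)) : wt S Y ≤ wt S (better S X Y) := by
  unfold better; split_ifs with h
  exacts [le_rfl, (not_le.1 h).le]

theorem foldl_better (l : List (Set (Fin n))) (X : Set (Fin n)) :
    l.foldl (better S) X ∈ X :: l ∧ ∀ Y ∈ X :: l, wt S Y ≤ wt S (l.foldl (better S) X) := by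
  induction l generalizing X with
  | nil => simp
  | cons Z l ih =>
    obtain ⟨h1, h2⟩ := ih (better S X Z)
    rw [List.foldl_cons]
    have h3 := h2 _ List.mem_cons_self
    refine ⟨?_, fun Y hY => ?_⟩
    · rcases List.mem_cons.1 h1 with h1 | h1
      · rw [h1]
        rcases better_cases S X Z with h | h <;> simp [h]
      · simp [h1]
    · rcases List.mem_cons.1 hY with rfl | hY
      · exact (le_better_left S Y Z).trans h3
      · rcases List.mem_cons.1 hY with rfl | hY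
        · exact (le_better_right S X Y).trans h3
        · exact h2 _ (List.mem_cons_of_mem _ hY)

theorem cand_subset (J : Set (Fin n) → Set (Fin n)) (Γ W Ch : Set (Fin n)) :
    cand G S J Γ W Ch ⊆ Γ := by
  rintro y (hy | ⟨x, -, hy⟩)
  · exact hy.2
  · rcases better_cases S (J (Reach G Wᶜ {x}) ∩ Γ) (S ∩ Reach G Wᶜ {x} ∩ Γ) with h | h <;>
      exact (h ▸ hy).2

theorem tab_inv (hS : G.IsIndepSet S) (F : List (Set (Fin n))) (r : ℕ) (Γ : Set (Fin n)) :
    G.IsIndepSet (tab G S F r Γ) ∧ tab G S F r Γ ⊆ Γ := by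
  induction r with
  | zero => exact ⟨hS.mono inter_subset_left, inter_subset_right⟩
  | succ r ih =>
    rw [tab]
    rcases List.mem_cons.1 (foldl_better (S := S) (F.flatMap fun W => F.map fun Ch =>
      clean G (cand G S (tab G S F r) Γ W Ch)) (tab G S F r Γ)).1 with h | h
    · rw [h]; exact ih
    · obtain ⟨W, -, h⟩ := List.mem_flatMap.1 h
      obtain ⟨Ch, -, h⟩ := List.mem_map.1 h
      rw [← h, clean]
      split_ifs with hc
      · exact ⟨hc, cand_subset _ _ _ _⟩
      · exact ⟨pairwise_empty _, empty_subset _⟩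

theorem RR.zero {K : ℕ} : RR ops K G S I 0 ∅ := by
  intro Γ _ h
  ext x
  have := @h x
  simp only [tab, mem_inter_iff, mem_symmDiff, mem_empty_iff_false] at this ⊢
  tauto

theorem RR.anti {K r : ℕ} {P P' : Set (Fin n)} (h : RR ops K G S I r P) (hP : P' ⊆ P) :
    RR ops K G S I r P' := fun Γ h1 h2 => h Γ h1 (h2.trans hP)

theorem tab_eq_of_le (hS : G.IsIndepSet S) (hI : IsOpt G S I) {F : List (Set (Fin n))} {r : ℕ}
    {Γ : Set (Fin n)} (hΓ : Disjoint (cN G Γ \ Γ) I) (h : wt S (I ∩ Γ) ≤ wt S (tab G S F r Γ)) :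
    tab G S F r Γ = I ∩ Γ :=
  wt_inj (le_antisymm (hI.local hΓ (tab_inv hS F r Γ).1 (tab_inv hS F r Γ).2) h)

theorem RR.succ (hS : G.IsIndepSet S) (hI : IsOpt G S I) {K r : ℕ} {P : Set (Fin n)}
    (h : RR ops K G S I r P) : RR ops K G S I (r + 1) P := by
  intro Γ h1 h2
  refine tab_eq_of_le hS hI h1 ?_
  rw [← h Γ h1 h2, tab]
  exact (foldl_better _ _).2 _ List.mem_cons_self

theorem RR.mono (hS : G.IsIndepSet S) (hI : IsOpt G S I) {K r r' : ℕ} {P : Set (Fin n)}
    (h : RR ops K G S I r P) (hr : r ≤ r') : RR ops K G S I r' P := by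
  induction hr with
  | refl => exact h
  | step _ ih => exact ih.succ hS hI

theorem RR.empty (hS : G.IsIndepSet S) (hI : IsOpt G S I) (K r : ℕ) : RR ops K G S I r ∅ :=
  RR.zero.mono hS hI (Nat.zero_le r)

/-! ### Components -/

section Comp

variable {V : Type} {G : SimpleGraph V}

theorem subset_cN (X : Set V) : X ⊆ cN G X := fun _ h => Or.inl h

theorem cN_mono {X Y : Set V} (h : X ⊆ Y) : cN G X ⊆ cN G Y := by
  rintro y (hy | ⟨x, hx, hy⟩)
  exacts [Or.inl (h hy), Or.inr ⟨x, h hx, hy⟩]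

theorem Reach_subset (U X : Set V) : Reach G U X ⊆ U := by
  rintro y ⟨x, -, hx, h⟩
  induction h with
  | refl => exact hx
  | tail _ h _ => exact h.2

theorem mem_Reach_self {U X : Set V} {x : V} (hX : x ∈ X) (hU : x ∈ U) : x ∈ Reach G U X :=
  ⟨x, hX, hU, .refl⟩

theorem Reach.adj {U X : Set V} {y z : V} (hy : y ∈ Reach G U X) (h : G.Adj y z) (hz : z ∈ U) :
    z ∈ Reach G U X := by
  obtain ⟨x, h1, h2, h3⟩ := hy
  exact ⟨x, h1, h2, h3.tail ⟨h, hz⟩⟩

theorem Reach_mono {U U' X X' : Set V} (hU : U ⊆ U') (hX : X ⊆ X') :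
    Reach G U X ⊆ Reach G U' X' := by
  rintro y ⟨x, h1, h2, h3⟩
  exact ⟨x, hX h1, hU h2, Relation.ReflTransGen.mono (fun a b h => ⟨h.1, hU h.2⟩) _ _ h3⟩

end Comp

/-- The context lemma in abstract form: `W` is deleted, `Ch = W ∩ I` is chosen. -/
theorem ctx0 (hS : G.IsIndepSet S) (hI : IsOpt G S I) {K r : ℕ} {P W Ch : Set (Fin n)}
    (hW : Can ops G S K W) (hCh : Can ops G S K Ch) (hWI : W ∩ I = Ch) (hN : cN G Ch ⊆ W)
    (h : ∀ x ∈ P, x ∉ W → RR ops K G S I r (Reach G Wᶜ {x} ∩ symmDiff I S)) :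
    RR ops K G S I (r + 1) P := by
  intro Γ h1 h2
  refine tab_eq_of_le hS hI h1 ?_
  have hΔ : ∀ x, Disjoint (cN G (Reach G Wᶜ {x}) \ Reach G Wᶜ {x}) I := by
    intro x
    refine Set.disjoint_left.2 ?_
    rintro y ⟨hy | ⟨z, hz, hzy⟩, hy'⟩ hyI
    · exact hy' hy
    · have hyW : y ∈ W := by
        by_contra hyW
        exact hy' (Reach.adj hz hzy hyW)
      exact Reach_subset _ _ hz (hN (Or.inr ⟨y, hWI ▸ ⟨hyW, hyI⟩, hzy.symm⟩))
  have key : ∀ x ∈ Wᶜ, better S (tab G S (canS ops G S K) r (Reach G Wᶜ {x}) ∩ Γ)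
      (S ∩ Reach G Wᶜ {x} ∩ Γ) = I ∩ (Reach G Wᶜ {x} ∩ Γ) := by
    intro x hx
    set Δ := Reach G Wᶜ {x} with hΔe
    have hd : Disjoint (cN G (Δ ∩ Γ) \ (Δ ∩ Γ)) I := by
      refine Set.disjoint_left.2 ?_
      rintro y ⟨hy, hy'⟩ hyI
      by_cases hyΔ : y ∈ Δ
      · exact Set.disjoint_left.1 h1 ⟨cN_mono inter_subset_right hy, fun h => hy' ⟨hyΔ, h⟩⟩ hyI
      · exact Set.disjoint_left.1 (hΔ x) ⟨cN_mono inter_subset_left hy, hyΔ⟩ hyI
    have hi := tab_inv hS (canS ops G S K) r Δ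
    refine wt_inj (S := S) (le_antisymm ?_ ?_)
    · rcases better_cases S (tab G S (canS ops G S K) r Δ ∩ Γ) (S ∩ Δ ∩ Γ) with e | e <;> rw [e]
      · exact hI.local hd (hi.1.mono inter_subset_left) (inter_subset_inter_left _ hi.2)
      · exact hI.local hd (hS.mono fun y hy => hy.1.1) fun y hy => ⟨hy.1.2, hy.2⟩
    · by_cases hP : ∃ y ∈ P, y ∈ Δ
      · obtain ⟨y, hyP, hy⟩ := hP
        have hyW : y ∉ W := Reach_subset _ _ hy
        have e : tab G S (canS ops G S K) r Δ = I ∩ Δ := by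
          refine h y hyP hyW Δ (hΔ x) (inter_subset_inter_left _ ?_)
          obtain ⟨x', rfl, hx', hxy⟩ := hy
          have hyx : x' ∈ Reach G Wᶜ {y} := by
            clear hyP
            induction hxy with
            | refl => exact mem_Reach_self rfl hx'
            | @tail b c hb hbc ih =>
              have hbW : b ∉ W := Reach_subset _ _ (⟨x', rfl, hx', hb⟩ : b ∈ Reach G Wᶜ {x'})
              obtain ⟨_, rfl, -, h3⟩ := ih hbW
              exact ⟨c, rfl, hyW, .head ⟨hbc.1.symm, hbW⟩ h3⟩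
          rintro z ⟨_, rfl, -, hz⟩
          obtain ⟨_, rfl, h3, h4⟩ := hyx
          exact ⟨_, rfl, h3, h4.trans hz⟩
        refine le_trans (le_of_eq ?_) (le_better_left _ _ _)
        rw [e, inter_assoc]
      · refine le_trans (le_of_eq ?_) (le_better_right _ _ _)
        congr 1
        ext y
        have h3 := @h2 y
        have h4 : ¬(y ∈ P ∧ y ∈ Δ) := fun h => hP ⟨y, h⟩
        simp only [mem_inter_iff, mem_symmDiff] at h3 ⊢
        tauto
  have hc : cand G S (tab G S (canS ops G S K) r) Γ W Ch = I ∩ Γ := by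
    ext y
    constructor
    · rintro (hy | ⟨x, hx, hy⟩)
      · exact ⟨(hWI ▸ hy.1 : y ∈ W ∩ I).2, hy.2⟩
      · rw [key x hx] at hy
        exact ⟨hy.1, hy.2.2⟩
    · intro hy
      by_cases hyW : y ∈ W
      · exact Or.inl ⟨hWI ▸ ⟨hyW, hy.1⟩, hy.2⟩
      · refine Or.inr ⟨y, hyW, ?_⟩
        rw [key y hyW]
        exact ⟨hy.1, mem_Reach_self rfl hyW, hy.2⟩
  rw [tab]
  refine (foldl_better _ _).2 _ (List.mem_cons_of_mem _ (List.mem_flatMap.2 ⟨W, hW,
    List.mem_map.2 ⟨Ch, hCh, ?_⟩⟩))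
  rw [hc, clean, if_pos (hI.1.mono inter_subset_left)]

/-- (CTX): chosen blacks `Cb`, deleted whites `Cw`, deleted outside set `Wo`. -/
theorem ctx (hS : G.IsIndepSet S) (hI : IsOpt G S I) {K r : ℕ} {P Cb Cw Wo : Set (Fin n)}
    (hb : Can ops G S K Cb) (hw : Can ops G S K Cw) (ho : Can ops G S K Wo)
    (hb' : Cb ⊆ I) (hw' : Disjoint Cw I) (ho' : Disjoint Wo (symmDiff I S)) {K' : ℕ}
    (hK : K + 5 ≤ K')
    (h : ∀ x ∈ P, x ∉ cN G Cb ∪ Cw ∪ Wo →
      RR ops K' G S I r (Reach G (cN G Cb ∪ Cw ∪ Wo)ᶜ {x} ∩ symmDiff I S)) :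
    RR ops K' G S I (r + 1) P := by
  have hCh : Can ops G S (K + 3) (Cb ∪ S ∩ Wo) :=
    (hb.mono (by omega)).union ((Can.base K).inter ho)
  have hsub : Cb ∪ S ∩ Wo ⊆ I := by
    rintro y (hy | hy)
    · exact hb' hy
    · by_contra hyI
      exact Set.disjoint_left.1 ho' hy.2 (mem_symmDiff.2 (Or.inr ⟨hy.1, hyI⟩))
  have hW : cN G Cb ∪ Cw ∪ Wo ⊆ Cw ∪ Wo ∪ cN G (Cb ∪ S ∩ Wo) := by
    rintro y ((hy | hy) | hy)
    exacts [Or.inr (cN_mono subset_union_left hy), Or.inl (Or.inl hy), Or.inl (Or.inr hy)]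
  refine ctx0 hS hI (W := Cw ∪ Wo ∪ cN G (Cb ∪ S ∩ Wo)) (Ch := Cb ∪ S ∩ Wo)
    ((((hw.union ho).mono (by omega)).union hCh.cN).mono hK) (hCh.mono (by omega)) ?_
    subset_union_right fun x hx hxW => (h x hx fun hx' => hxW (hW hx')).anti
      (inter_subset_inter_left _ (Reach_mono (compl_subset_compl.2 hW) Subset.rfl))
  ext y
  constructor
  · rintro ⟨(hy | hy) | hy | ⟨x, hx, hxy⟩, hyI⟩
    · exact absurd hyI (Set.disjoint_left.1 hw' hy)
    · refine Or.inr ⟨?_, hy⟩
      by_contra hyS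
      exact Set.disjoint_left.1 ho' hy (mem_symmDiff.2 (Or.inl ⟨hyI, hyS⟩))
    · exact hy
    · exact absurd hxy (hI.1 (hsub hx) hyI hxy.ne)
  · exact fun hy => ⟨Or.inr (Or.inl hy), hsub hy⟩

/-! ### The outer loop -/

theorem EHF0.restr {V : Type} {G : SimpleGraph V} (h : EHF0 G) (A : Set V) : EHF0 (restr G A) := by
  intro k hk
  refine ⟨fun f => (h k hk).false ⟨f.toEmbedding, fun {a b} => ?_⟩⟩
  have hA : ∀ a, f a ∈ A := by
    intro a
    obtain ⟨m, hm⟩ : ∃ m, 2 * k = m + 3 := ⟨2 * k - 3, by omega⟩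
    have hd : ∀ (N : ℕ) (_ : N = m + 3) (a : Fin N), ∃ b, (SimpleGraph.cycleGraph N).Adj a b := by
      rintro _ rfl a
      exact ⟨a + 1, by simp [SimpleGraph.cycleGraph_adj]⟩
    obtain ⟨b, hb⟩ := hd _ hm a
    exact (f.map_rel_iff.2 hb).2.1
  rw [← f.map_rel_iff]
  exact ⟨fun h => ⟨h, hA a, hA b⟩, fun h => h.1⟩

theorem step_eq {K c : ℕ} (h : StepOK ops K c) (hG : EHF0 G) {v : Fin n} (hS : MaxOff G v S)
    (hI : IsOpt G S I) : step ops K c G S = I := by
  rw [step, h n G v S I hG hS hI univ (by simp) inter_subset_right, inter_univ]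

theorem mis_max {K c : ℕ} (h : StepOK ops K c) (hG : EHF0 G) :
    G.IsIndepSet (mis ops K c G) ∧ ∀ T, G.IsIndepSet T → T.ncard ≤ (mis ops K c G).ncard := by
  have key : ∀ k, k ≤ n → ∀ X, X = ((List.finRange n).take k).foldl
      (fun S v => step ops K c (restr G {x | x ≤ v}) (S \ {v})) univ →
      (restr G {x | x.val < k}).IsIndepSet X ∧
        ∀ T, (restr G {x | x.val < k}).IsIndepSet T → T.ncard ≤ X.ncard := by
    intro k
    induction k with
    | zero =>
      rintro - X rfl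
      exact ⟨fun x _ y _ _ h => by simpa using h.2.1, fun T _ => ncard_le_ncard (subset_univ T)⟩
    | succ k ih =>
      rintro hk X rfl
      obtain ⟨h1, h2⟩ := ih (by omega) _ rfl
      have e : (List.finRange n).take (k + 1) = (List.finRange n).take k ++ [⟨k, hk⟩] := by
        rw [List.take_add_one, List.getElem?_eq_getElem (by simpa using hk)]
        simp
      rw [e, List.foldl_append, List.foldl_cons, List.foldl_nil]
      set Y := ((List.finRange n).take k).foldl
        (fun S v => step ops K c (restr G {x | x ≤ v}) (S \ {v})) univ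
      have e2 : {x : Fin n | x ≤ ⟨k, hk⟩} = {x | x.val < k + 1} := by
        ext x; simp [Fin.le_def]
      rw [e2]
      have hiso : ∀ T, (restr G {x | x.val < k}).IsIndepSet T →
          (restr G {x | x.val < k}).IsIndepSet (insert ⟨k, hk⟩ T) := by
        rintro T hT x (rfl | hx) y (rfl | hy) hne hxy
        · exact hne rfl
        · simpa using hxy.2.1
        · simpa using hxy.2.2
        · exact hT hx hy hne hxy
      have hY : (⟨k, hk⟩ : Fin n) ∈ Y := by
        by_contra hY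
        have := h2 _ (hiso Y h1)
        rw [ncard_insert_of_notMem hY] at this
        omega
      have hM : MaxOff (restr G {x | x.val < k + 1}) ⟨k, hk⟩ (Y \ {⟨k, hk⟩}) := by
        refine ⟨by simp, fun x hx y hy hne hxy => h1 hx.1 hy.1 hne ⟨hxy.1, ?_, ?_⟩,
          fun T hT hk' => ?_⟩
        · have a1 : x.val < k + 1 := hxy.2.1
          have a2 : x.val ≠ k := fun e => hx.2 (Fin.ext e)
          show x.val < k
          omega
        · have a1 : y.val < k + 1 := hxy.2.2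
          have a2 : y.val ≠ k := fun e => hy.2 (Fin.ext e)
          show y.val < k
          omega
        · have := h2 _ (hiso T fun x hx y hy hne hxy =>
            hT hx hy hne ⟨hxy.1, Nat.lt_succ_of_lt hxy.2.1, Nat.lt_succ_of_lt hxy.2.2⟩)
          rw [ncard_insert_of_notMem hk'] at this
          rw [ncard_sdiff_singleton_of_mem hY]
          omega
      obtain ⟨I, hI⟩ := exists_opt (restr G {x | x.val < k + 1}) (Y \ {⟨k, hk⟩})
      rw [step_eq h (hG.restr _) hM hI]
      exact ⟨hI.1, fun T hT => hI.ncard_le hT⟩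
  have e : restr G {x | x.val < n} = G := by
    ext x y
    exact ⟨fun h => h.1, fun h => ⟨h, x.2, y.2⟩⟩
  have := key n le_rfl (mis ops K c G) (by rw [List.take_of_length_le (by simp)]; rfl)
  rwa [e] at this

end Pool.Agent.MP_3ad207_lc.H56
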