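import Pool.Agent.MP_3ad207_lc.H56.Ops

/-!
The structural theorem `Ehf.MainStmt` implies the frozen statement.
-/

set_option autoImplicit false

namespace Pool.Agent.MP_3ad207_lc.H56

open Set Pool.Agent.Ehf
open scoped Classical

/-- The extra operations. -/
noncomputable def theOps : List Op := [sepOp, geoOp, clqOp]

theorem theOps_real : ∀ o ∈ theOps, OpReal o := by
  simp only [theOps, List.forall_mem_cons, List.not_mem_nil, IsEmpty.forall_iff, implies_true,
    and_true]
  exact ⟨sepOp_real, geoOp_real, clqOp_real⟩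

variable {n : ℕ} {G : SimpleGraph (Fin n)}

/-- The canonical sets of the algorithm. -/
def canSys (hG : EHF G) (S : Set (Fin n)) : CanSys G S where
  Can k X := Can theOps G S (k + 1) X
  mono h hk := h.mono (Nat.succ_le_succ hk)
  empty := Can.empty _
  univ := Can.univ _
  single x := Can.single _ x
  white := Can.base _
  union := Can.union
  diff := Can.diff
  nbhd h := cN_eq G _ ▸ h.cN
  cmp v h := comp_eq G _ v ▸ h.reach (Can.single _ v)
  geo a b h := geoOp_eq G S _ a b ▸
    Can.op (o := geoOp) (by simp [theOps]) h (Can.single _ a) (Can.single _ b)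
  clq h := by
    rcases clqOp_eq hG S h with e | ⟨u, v, e⟩ <;> rw [e]
    · exact Can.op (o := clqOp) (by simp [theOps]) (Can.empty _) (Can.empty _) (Can.empty _)
    · exact Can.op (o := clqOp) (by simp [theOps]) (Can.single _ u) (Can.single _ v) (Can.empty _)
  sep c t hT hU := sepOp_eq G S _ _ c t ▸ Can.op (o := sepOp) (by simp [theOps]) hT hU
    (((Can.single 0 c).union (Can.single 0 t)).mono (by omega))

theorem HH_eq {V : Type} (S I : Set V) : HH S I = symmDiff I S := rfl

/-- The table invariant of the algorithm. -/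
def rSys (hG : EHF G) {S I : Set (Fin n)} (hS : G.IsIndepSet S) (hI : IsOpt G S I) (K : ℕ) :
    RSys G S I (canSys hG S) K where
  R r P := RR theOps (K + 6) G S I r P
  zero := RR.zero
  succ h := h.succ hS hI
  mono h := h.anti
  ctx _ hb hw ho cb cw co h :=
    ctx hS hI cb cw co (hb.trans sdiff_subset) (Set.disjoint_left.2 fun _ hx => (hw hx).2) ho
      le_rfl fun x hx hx' => by
        rw [← cN_eq] at hx'
        rw [← cN_eq, ← comp_eq]
        exact h _ (conn_comp hx') (comp_subset _ _) ⟨x, mem_comp_self hx', hx⟩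

theorem stepOK (h : MainStmt) : ∃ K, StepOK theOps K 2 := by
  obtain ⟨K, h⟩ := h
  refine ⟨K + 6, fun n G v S I hG hS hI => ?_⟩
  rcases (HH S I).eq_empty_or_nonempty with e | hne
  · rw [← HH_eq, e]
    exact RR.empty hS.2.1 hI _ _
  · have := h (Fin n) G S I (setup hG.ehf hS hI hne) (canSys hG.ehf S) (rSys hG.ehf hS.2.1 hI K)
    rwa [Fintype.card_fin] at this

/-- The structural theorem implies the frozen statement `S14597`. -/
theorem final_of_main (h : MainStmt) :
    ∃ (tm : Turing.FinTM2) (p : Polynomial ℕ)
      (ι : Bool → tm.Γ tm.k₀) (ο : Bool → tm.Γ tm.k₁),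
      Function.Injective ι ∧ Function.Injective ο ∧
      ∀ (n : ℕ) (G : SimpleGraph (Fin n)) [DecidableRel G.Adj],
        (∀ k : ℕ, 2 ≤ k →
          IsEmpty (SimpleGraph.Embedding (SimpleGraph.cycleGraph (2 * k)) G)) →
        ∃ s : Finset (Fin n),
          G.IsIndepSet (s : Set (Fin n)) ∧
          (∀ t : Finset (Fin n), G.IsIndepSet (t : Set (Fin n)) → t.card ≤ s.card) ∧
          Nonempty (Turing.TM2OutputsInTime tm
            (((List.finRange n).flatMap
              (fun i => (List.finRange n).map (fun j => decide (G.Adj i j)))).map ι)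
            (some (((List.finRange n).map (fun i => decide (i ∈ s))).map ο))
            (p.eval (n * n))) := by
  obtain ⟨K, hK⟩ := stepOK h
  exact final theOps_real hK

end Pool.Agent.MP_3ad207_lc.H56
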