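import Pool.Agent.MP_3ad207_lc.H56.Real
import Pool.Agent.MP_3ad207_lc.H56.Ctx

/-!
The algorithm runs in polynomial time; bridge to the frozen statement.
-/

set_option autoImplicit false

namespace Pool.Agent.MP_3ad207_lc.H56

open Set Pool.Agent.Shared.H56
open scoped Classical

/-- The operation is realisable in polynomial time. -/
def OpReal (o : Op) : Prop := Real fun n G e => o n G (vr e 0) (vr e 1) (vr e 2) (vr e 3)

theorem OpReal.app {o : Op} (h : OpReal o) {s x y z : US} (hs : Real s) (hx : Real x) (hy : Real y)
    (hz : Real z) : Real fun n G e => o n G (s n G e) (x n G e) (y n G e) (z n G e) :=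
  Real.comp h (RealE.cons1 hs (RealE.cons1 hx (RealE.cons1 hy (RealE.cons1 hz RealE.nil))))

theorem baseOps_real : ∀ o ∈ baseOps, OpReal o := by
  simp only [baseOps, List.forall_mem_cons, List.not_mem_nil, IsEmpty.forall_iff, implies_true,
    and_true]
  exact ⟨(Real.var 1).union (Real.var 2), (Real.var 1).diff (Real.var 2), (Real.var 1).cN,
    (Real.var 1).reach (Real.var 2)⟩

theorem real_level {s : US} {l : UL} (hs : Real s) (hl : RealL l) (os : List Op)
    (h : ∀ o ∈ os, OpReal o) : RealL fun n G e => os.flatMap fun o => (l n G e).flatMap fun X =>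
      (l n G e).flatMap fun Y => (l n G e).map fun Z => o n G (s n G e) X Y Z := by
  induction os with
  | nil => exact RealL.nil
  | cons o t ih =>
    exact (hl.flatMap (hl.wk.flatMap (hl.wk.wk.map ((h o List.mem_cons_self).app hs.wk.wk.wk
      (Real.var 2) (Real.var 1) (Real.var 0))))).append
      (ih fun o ho => h o (List.mem_cons_of_mem _ ho))

theorem real_canS {ops : List Op} (h : ∀ o ∈ ops, OpReal o) {s : US} (hs : Real s) (k : ℕ) :
    RealL fun n G e => canS ops G (s n G e) k := by
  induction k with
  | zero => exact RealL.cons Real.empty (RealL.cons Real.univ (RealL.cons hs RealL.sings))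
  | succ k ih =>
    exact ih.append (real_level hs ih _ fun o ho =>
      (List.mem_append.1 ho).elim (baseOps_real o) (h o))

theorem Real.better {s x y : US} (hs : Real s) (hx : Real x) (hy : Real y) :
    Real fun n G e => better (s n G e) (x n G e) (y n G e) :=
  (Real.ite (hs.wt_le hx hy) hy hx).congr fun n G e => by
    unfold H56.better
    by_cases h : wt (s n G e) (x n G e) ≤ wt (s n G e) (y n G e) <;> simp [h]

theorem Real.clean {x : US} (hx : Real x) : Real fun n G e => clean G (x n G e) :=
  Real.ite hx.indep hx Real.empty

variable {n : ℕ}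

/-- The sets on which the table is needed. -/
noncomputable def keys (G : SimpleGraph (Fin n)) (F : List (Set (Fin n))) : List (Set (Fin n)) :=
  univ :: F.flatMap fun W => (sings n).map fun z => Reach G Wᶜ z

/-- One round. -/
noncomputable def rnd (G : SimpleGraph (Fin n)) (S : Set (Fin n)) (F : List (Set (Fin n)))
    (J : Set (Fin n) → Set (Fin n)) (Γ : Set (Fin n)) : Set (Fin n) :=
  (F.flatMap fun W => F.map fun Ch => clean G (cand G S J Γ W Ch)).foldl (better S) (J Γ)

theorem tab_iter (G : SimpleGraph (Fin n)) (S : Set (Fin n)) (F : List (Set (Fin n))) (r : ℕ) :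
    (fun L => (keys G F).map fun X => rnd G S F (look (keys G F) L) X)^[r]
      ((keys G F).map fun X => S ∩ X) = (keys G F).map (tab G S F r) := by
  induction r with
  | zero => rfl
  | succ r ih =>
    rw [Function.iterate_succ_apply', ih]
    refine List.map_congr_left fun X hX => ?_
    rw [tab, rnd, look_map _ hX]
    congr 1
    refine List.flatMap_congr fun W hW => List.map_congr_left fun Ch _ => ?_
    have : ∀ x, look (keys G F) ((keys G F).map (tab G S F r)) (Reach G Wᶜ {x}) =
        tab G S F r (Reach G Wᶜ {x}) := fun x => look_map _ (List.mem_cons_of_mem _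
      (List.mem_flatMap.2 ⟨W, hW, List.mem_map.2 ⟨{x}, by simp [sings], rfl⟩⟩))
    simp only [cand, this]

theorem real_keys {f : UL} (hf : RealL f) : RealL fun n G e => keys G (f n G e) :=
  RealL.cons Real.univ (hf.flatMap (RealL.sings.map ((Real.var 1).compl.reach (Real.var 0))))

theorem real_cand {s g w c : US} {k v : UL} (hs : Real s) (hk : RealL k) (hv : RealL v)
    (hg : Real g) (hw : Real w) (hc : Real c) : Real fun n G e =>
      cand G (s n G e) (look (k n G e) (v n G e)) (g n G e) (w n G e) (c n G e) :=
  (hc.inter hg).union (hw.compl.bigU (hs.wk.better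
    ((Real.look hk.wk hv.wk (hw.wk.compl.reach (Real.var 0))).inter hg.wk)
    ((hs.wk.inter (hw.wk.compl.reach (Real.var 0))).inter hg.wk)))

theorem real_rnd {s g : US} {f k v : UL} (hs : Real s) (hf : RealL f) (hk : RealL k)
    (hv : RealL v) (hg : Real g) : Real fun n G e =>
      rnd G (s n G e) (f n G e) (look (k n G e) (v n G e)) (g n G e) :=
  Real.foldL (hf.flatMap (hf.wk.map (real_cand hs.wk.wk hk.wk.wk hv.wk.wk hg.wk.wk (Real.var 1)
    (Real.var 0)).clean)) (hs.wk.wk.better (Real.var 0) (Real.var 1)) (Real.look hk hv hg)

theorem real_tab (c : ℕ) {s : US} {f : UL} (hs : Real s) (hf : RealL f) :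
    Real fun n G e => tab G (s n G e) (f n G e) (c * (n + 1)) univ :=
  (RealL.iterMap c (real_keys hf) (real_rnd hs.wk.wk hf.wk.wk (real_keys hf).wk.wk (RealL.var 1)
    (Real.var 0)) ((real_keys hf).map (hs.wk.inter (Real.var 0)))).headD.congr fun n G e =>
    congrArg (List.headD · ∅) (tab_iter G (s n G e) (f n G e) _)

theorem real_mis {ops : List Op} (h : ∀ o ∈ ops, OpReal o) (K c : ℕ) :
    Real fun _ G _ => mis ops K c G := by
  have h1 : Real fun n G e => step ops K c G (vr e 0 \ vr e 1) :=
    real_tab c ((Real.var 0).diff (Real.var 1)) (real_canS h ((Real.var 0).diff (Real.var 1)) K)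
  refine (Real.foldL RealL.sings (Real.restr ((Real.var 1).union (Real.var 1).below) h1)
    Real.univ).congr fun n G e => ?_
  rw [mis, sings, List.foldl_map]
  congr 1
  funext X v
  have : ({v} : Set (Fin n)) ∪ {y | ∃ x ∈ ({v} : Set (Fin n)), y < x} = {x | x ≤ v} := by
    ext x; simp [le_iff_eq_or_lt]
  simp only [vr_zero, vr_succ, this]

theorem chunk {α : Type} (m : ℕ) (f : α → Bs) (hf : ∀ a, (f a).length = m) (l : List α) :
    (List.range l.length).map (fun i => ((l.flatMap f).drop (i * m)).take m) = l.map f := by
  induction l with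
  | nil => rfl
  | cons a t ih =>
    rw [List.length_cons, List.range_succ_eq_map, List.map_cons, List.map_map, List.map_cons, ← ih,
      List.flatMap_cons]
    congr 1
    · simp [← hf a]
    · refine List.map_congr_left fun i _ => ?_
      have : (i + 1) * m = (f a).length + i * m := by rw [hf a]; ring
      simp only [Function.comp, Nat.succ_eq_add_one, this, List.drop_append, List.drop_eq_nil_of_le
        (Nat.le_add_right _ _), List.nil_append, Nat.add_sub_cancel_left]

theorem sqrt_count (m : ℕ) :
    ((List.range (m * m)).filter fun k => decide (k * k < m * m)).length = m := by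
  have : (List.range (m * m)).filter (fun k => decide (k * k < m * m)) = List.range m := by
    obtain ⟨d, hd⟩ : ∃ d, m * m = m + d := ⟨m * m - m, by have := Nat.le_mul_self m; omega⟩
    conv_lhs => enter [2]; rw [hd]
    rw [List.range_add, List.filter_append, List.filter_eq_self.2, List.filter_eq_nil_iff.2,
      List.append_nil]
    · simp only [List.mem_map, List.mem_range, decide_eq_true_eq, not_lt]
      rintro _ ⟨j, -, rfl⟩
      exact Nat.mul_self_le_mul_self (Nat.le_add_right _ _)
    · simpa using fun k hk => Nat.mul_self_lt_mul_self hk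
  rw [this, List.length_range]

/-- From the graph theory to the frozen statement. -/
theorem final {ops : List Op} (h : ∀ o ∈ ops, OpReal o) {K c : ℕ} (hs : StepOK ops K c) :
    ∃ (tm : Turing.FinTM2) (p : Polynomial ℕ)
      (ι : Bool → tm.Γ tm.k₀) (ο : Bool → tm.Γ tm.k₁),
      Function.Injective ι ∧ Function.Injective ο ∧
      ∀ (n : ℕ) (G : SimpleGraph (Fin n)) [DecidableRel G.Adj],
        (∀ k : ℕ, 2 ≤ k →
          IsEmpty (SimpleGraph.Embedding (SimpleGraph.cycleGraph (2 * k)) G)) →
        ∃ s : Finset (Fin n),
          G.IsIndepSet (s : Set (Fin n)) ∧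
          (∀ t : Finset (Fin n), G.IsIndepSet (t : Set (Fin n)) → t.card ≤ s.card) ∧
          Nonempty (Turing.TM2OutputsInTime tm
            (((List.finRange n).flatMap
              (fun i => (List.finRange n).map (fun j => decide (G.Adj i j)))).map ι)
            (some (((List.finRange n).map (fun i => decide (i ∈ s))).map ο))
            (p.eval (n * n))) := by
  obtain ⟨F, h1, h2⟩ := real_mis h K c
  let N : Raw → ℕ := fun r =>
    ((List.range r.s.length).filter fun k => decide (k * k < r.s.length)).length
  have hN : PT fun r => un (N r) :=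
    PT.un_length (PT.filter (f := fun (r : Raw) k => decide (k * k < r.s.length)) (by fun_prop)
      (by fun_prop))
  have hN' : PT N := hN.of_un
  have h3 : PT fun r : Raw => (List.range (N r)).map fun i => (r.s.drop (i * N r)).take (N r) :=
    PT.map (f := fun (r : Raw) i => (r.s.drop (i * N r)).take (N r)) (by fun_prop) (by fun_prop)
  have h4 : PT fun r : Raw =>
      Raw.mk (F ((List.range (N r)).map fun i => (r.s.drop (i * N r)).take (N r), [])) := by
    fun_prop
  obtain ⟨M⟩ := Poly.tm2 h4
  refine ⟨M.tm, M.time, M.inputAlphabet.symm, M.outputAlphabet.symm,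
    M.inputAlphabet.symm.injective, M.outputAlphabet.symm.injective, fun n G _ hG => ?_⟩
  obtain ⟨h5, h6⟩ := mis_max hs hG
  refine ⟨(mis ops K c G).toFinset, by simpa using h5, fun t ht => ?_, ?_⟩
  · have := h6 t ht
    rwa [ncard_coe_finset, ncard_eq_toFinset_card'] at this
  · have hl : ((List.finRange n).flatMap
        (fun i => (List.finRange n).map (fun j => decide (G.Adj i j)))).length = n * n := by
      simp [List.length_flatMap]
    have h7 := M.outputsFun ⟨(List.finRange n).flatMap
      (fun i => (List.finRange n).map (fun j => decide (G.Adj i j)))⟩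
    have h8 : N ⟨(List.finRange n).flatMap
        (fun i => (List.finRange n).map (fun j => decide (G.Adj i j)))⟩ = n := by
      simp only [N, hl, sqrt_count]
    have h9 := chunk n (fun i => (List.finRange n).map (fun j => decide (G.Adj i j))) (by simp)
      (List.finRange n)
    rw [List.length_finRange] at h9
    have h10 : (List.finRange n).map (fun i => (List.finRange n).map
        (fun j => decide (G.Adj i j))) = gcode G :=
      List.map_congr_left fun i _ => List.map_congr_left fun j _ => decide_eq_decide.2 Iff.rfl
    have h11 : code (mis ops K c G) =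
        (List.finRange n).map (fun i => decide (i ∈ (mis ops K c G).toFinset)) :=
      List.map_congr_left fun i _ => decide_eq_decide.2 (by simp)
    have h12 : F (gcode G, []) = code (mis ops K c G) := h2 n G []
    simp only [enc_raw, h8, h9, h10, h12, h11, hl] at h7
    exact ⟨h7⟩

end Pool.Agent.MP_3ad207_lc.H56
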