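import Pool.Agent.MP_3ad207_lc.H46.Spec
import Pool.Agent.MP_3ad207_lc.H56.Ctx

/-!
The tree set-up for the symmetric difference of the old stable set and the optimum.
-/

set_option autoImplicit false

namespace Pool.Agent.MP_3ad207_lc.H56

open Set Pool.Agent.Ehf
open scoped Classical

theorem EHF0.ehf {V : Type} {G : SimpleGraph V} (h : EHF0 G) : EHF G := by
  intro f m hm hc
  by_contra hodd
  obtain ⟨k, rfl⟩ : ∃ k, m = 2 * k := by
    rw [Nat.odd_iff] at hodd
    exact ⟨m / 2, by omega⟩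
  have key : ∀ a b : Fin (2 * k), a < b →
      (G.Adj (f a) (f b) ↔ (SimpleGraph.cycleGraph (2 * k)).Adj a b) := by
    intro a b hab
    rw [(hc a b hab b.2).2, SimpleGraph.cycleGraph_adj', Fin.coe_sub_iff_lt.2 hab,
      Fin.coe_sub_iff_le.2 hab.le]
    have h1 : a.val < b.val := hab
    have h2 := b.2
    omega
  refine (h k (by omega)).false ⟨⟨fun i => f i.val, fun a b e => ?_⟩, fun {a b} => ?_⟩
  · rcases lt_trichotomy a b with h1 | h1 | h1
    · exact absurd e (hc a b h1 b.2).1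
    · exact h1
    · exact absurd e.symm (hc b a h1 a.2).1
  · rcases lt_trichotomy a b with h1 | h1 | h1
    · exact key a b h1
    · subst h1; simp
    · rw [SimpleGraph.adj_comm, (SimpleGraph.cycleGraph _).adj_comm]
      exact key b a h1

theorem stable_iff {V : Type} {G : SimpleGraph V} {X : Set V} : Stable G X ↔ G.IsIndepSet X :=
  ⟨fun h x hx y hy _ => h x hx y hy, fun h _ hx _ hy e => h hx hy e.ne e⟩

theorem cN_eq {V : Type} (G : SimpleGraph V) (X : Set V) : Ehf.cN G X = H56.cN G X := by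
  ext y
  exact or_congr Iff.rfl ⟨fun ⟨x, h, e⟩ => ⟨x, h, e.symm⟩, fun ⟨x, h, e⟩ => ⟨x, h, e.symm⟩⟩

theorem comp_eq {V : Type} (G : SimpleGraph V) (U : Set V) (v : V) :
    comp G U v = Reach G U {v} := by
  ext y
  exact ⟨fun h => ⟨v, rfl, h.1, h.2⟩, fun ⟨_, rfl, h⟩ => h⟩

variable {n : ℕ} {G : SimpleGraph (Fin n)} {S I : Set (Fin n)} {v : Fin n}

theorem swap_card (A B T : Set (Fin n)) :
    (A \ T ∪ B ∩ T).ncard + (A ∩ T).ncard = A.ncard + (B ∩ T).ncard := by
  rw [ncard_union_eq (Set.disjoint_left.2 fun x hx hx' => hx.2 hx'.2),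
    ← ncard_inter_add_ncard_sdiff_eq_ncard A T]
  omega

theorem swap_indep {A B T : Set (Fin n)} (hA : Stable G A) (hB : Stable G B)
    (hT : ∀ y ∈ B ∩ T, ∀ x ∈ A, G.Adj y x → x ∈ T) : G.IsIndepSet (A \ T ∪ B ∩ T) := by
  rw [← stable_iff]
  rintro x (hx | hx) y (hy | hy) e
  · exact hA x hx.1 y hy.1 e
  · exact hx.2 (hT y hy x hx.1 e.symm)
  · exact hy.2 (hT x hx y hy.1 e)
  · exact hB x hx.1 y hy.1 e

theorem swapI (hS : Stable G S) (hI : IsOpt G S I) {T : Set (Fin n)} (hH : T ⊆ HH S I)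
    (hne : T.Nonempty) (hT : ∀ y ∈ S ∩ T, ∀ x ∈ I, G.Adj y x → x ∈ T) :
    (S ∩ T).ncard < (I ∩ T).ncard := by
  by_contra hlt
  have h1 := swap_indep (stable_iff.2 hI.1) hS hT
  have h2 := hI.ncard_le h1
  have h3 := swap_card I S T
  have h4 := hI.inter_le h1 (by omega)
  have h5 : I ∩ S ⊆ (I \ T ∪ S ∩ T) ∩ S := fun x hx =>
    ⟨Or.inl ⟨hx.1, fun h => (hH h).elim (fun h => h.2 hx.2) fun h => h.2 hx.1⟩, hx.2⟩
  have h6 := eq_of_subset_of_ncard_le h5 h4
  have h7 : S ∩ T = ∅ := eq_empty_of_forall_notMem fun x hx => by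
    have : x ∈ I ∩ S := h6 ▸ ⟨Or.inr hx, hx.1⟩
    exact (hH hx.2).elim (fun h => h.2 this.2) fun h => h.2 this.1
  have h8 : I ∩ T = ∅ := by
    rw [h7, ncard_empty] at hlt
    exact (ncard_eq_zero (toFinite _)).1 (by omega)
  obtain ⟨x, hx⟩ := hne
  rcases hH hx with h | h
  · exact (h8 ▸ ⟨h.1, hx⟩ : x ∈ (∅ : Set (Fin n)))
  · exact (h7 ▸ ⟨h.1, hx⟩ : x ∈ (∅ : Set (Fin n)))

theorem swapS (hS : MaxOff G v S) (hI : Stable G I) {T : Set (Fin n)} (hv : v ∉ T)
    (hT : ∀ y ∈ I ∩ T, ∀ x ∈ S, G.Adj y x → x ∈ T) : (I ∩ T).ncard ≤ (S ∩ T).ncard := by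
  have h1 := hS.2.2 _ (swap_indep (stable_iff.2 hS.2.1) hI hT) (by
    rintro (h | h)
    exacts [hS.1 h.1, hv h.2])
  have h2 := swap_card S I T
  omega

/-- Two black neighbours of a white vertex `w` are not joined in `H - w`. -/
theorem not_mem_comp {V : Type} {G : SimpleGraph V} {S I : Set V} (hG : EHF G) (hS : Stable G S)
    (hI : Stable G I) {w a b : V} (hw : w ∈ S) (ha : a ∈ I) (hab : a ≠ b) (wa : G.Adj w a)
    (wb : G.Adj w b) : b ∉ comp G (HH S I \ {w}) a := by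
  rintro ⟨haH, h⟩
  obtain ⟨m, f, hf, f0, fm, fX⟩ := h.exists_isIP
  have fH : ∀ i, i ≤ m → f i ∈ HH S I \ {w} := fun i hi => by
    rcases Nat.eq_zero_or_pos i with rfl | h0
    · exact f0 ▸ haH
    · exact fX i h0 hi
  have col : ∀ i, i ≤ m → (f i ∈ I ↔ i % 2 = 0) := by
    intro i
    induction i with
    | zero => exact fun _ => by simpa [f0] using ha
    | succ i ih =>
      intro hi
      have e := hf.adj_succ (i := i) hi
      have ih := ih (by omega)
      by_cases c : f i ∈ I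
      · have := ih.1 c
        exact ⟨fun h => (hI _ c _ h e).elim, fun h => by omega⟩
      · have h1 : f i ∈ S := (fH i (by omega)).1.elim (fun h => (c h.1).elim) fun h => h.1
        have h2 : f (i + 1) ∈ I :=
          (fH (i + 1) hi).1.elim (fun h => h.1) fun h => (hS _ h1 _ h.1 e).elim
        have := mt ih.2 c
        exact ⟨fun _ => by omega, fun _ => h2⟩
  have hm : 0 < m := Nat.pos_of_ne_zero fun e => hab (by rw [← f0, ← fm, e])
  have hex : ∃ j, 0 < j ∧ j ≤ m ∧ G.Adj w (f j) := ⟨m, hm, le_rfl, fm ▸ wb⟩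
  obtain ⟨j0, jm, wj⟩ := Nat.find_spec hex
  have h1 := hG.sector_odd hf j0 jm (f0 ▸ wa) wj fun k k0 kj =>
    ⟨fun e => (fH k (by omega)).2 e.symm, fun e => Nat.find_min hex kj ⟨k0, by omega, e⟩⟩
  have h2 := (col _ jm).1 ((fH _ jm).1.elim (fun h => h.1) fun h => (hS _ hw _ h.1 wj).elim)
  rw [Nat.odd_iff] at h1
  omega

theorem setup (hG : EHF G) (hS : MaxOff G v S) (hI : IsOpt G S I) (hne : (HH S I).Nonempty) :
    Setup G S I := by
  have sS := stable_iff.2 hS.2.1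
  have sI := stable_iff.2 hI.1
  have bl : ∀ y ∈ S, ∀ x ∈ I, G.Adj y x → x ∈ I \ S := fun y hy x hx e =>
    ⟨hx, fun h => sS y hy x h e⟩
  have wh : ∀ y ∈ I, ∀ x ∈ S, G.Adj y x → x ∈ S \ I := fun y hy x hx e =>
    ⟨hx, fun h => sI y hy x h e⟩
  have root : ∀ x ∈ HH S I, v ∈ comp G (HH S I) x := by
    intro x hx
    by_contra hv
    have h1 := swapI sS hI (comp_subset _ x) ⟨x, mem_comp_self hx⟩ fun y hy z hz e =>
      mem_comp_of_adj hy.2 e (Or.inl (bl y hy.1 z hz e))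
    have h2 := swapS hS sI hv fun y hy z hz e =>
      mem_comp_of_adj hy.2 e (Or.inr (wh y hy.1 z hz e))
    omega
  refine ⟨hG, sS, sI, ?_, fun w hw => ?_⟩
  · obtain ⟨x, hx⟩ := hne
    exact conn_of_root (comp_subset _ _ (root x hx)) fun y hy => (root y hy).2.symm hy
  have two : ∀ a ∈ I, ∀ b ∈ I, a ≠ b → G.Adj w a → G.Adj w b →
      v ∈ comp G (HH S I \ {w}) a ∨ v ∈ comp G (HH S I \ {w}) b := by
    intro a ha b hb hab wa wb
    by_contra hv
    have mem : ∀ c ∈ I, G.Adj w c → c ∈ HH S I \ {w} := fun c hc e =>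
      ⟨Or.inl (bl w hw.1 c hc e), e.ne'⟩
    have lt : ∀ c ∈ I, G.Adj w c →
        (S ∩ comp G (HH S I \ {w}) c).ncard < (I ∩ comp G (HH S I \ {w}) c).ncard :=
      fun c hc e => swapI sS hI ((comp_subset _ c).trans sdiff_subset)
        ⟨c, mem_comp_self (mem c hc e)⟩ fun y hy z hz e' =>
          mem_comp_of_adj hy.2 e' ⟨Or.inl (bl y hy.1 z hz e'), fun h => hw.2 (h ▸ hz)⟩
    have h1 := lt a ha wa
    have h2 := lt b hb wb
    have hd : Disjoint (comp G (HH S I \ {w}) b) (comp G (HH S I \ {w}) a) :=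
      (comp_anti_of_notMem (mem b hb wb) (not_mem_comp hG sS sI hw.1 ha hab wa wb)).disjoint
    have h3 := swapS hS sI (T := {w} ∪ (comp G (HH S I \ {w}) b ∪ comp G (HH S I \ {w}) a))
      (by
        rintro (h | h | h)
        exacts [hS.1 (h ▸ hw.1), hv (Or.inr h), hv (Or.inl h)])
      (by
        rintro y ⟨hy, h⟩ z hz e
        by_cases c : z = w
        · exact Or.inl c
        rcases h with h | h | h
        · exact (hw.2 (h ▸ hy)).elim
        · exact Or.inr (Or.inl (mem_comp_of_adj h e ⟨Or.inr (wh y hy z hz e), c⟩))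
        · exact Or.inr (Or.inr (mem_comp_of_adj h e ⟨Or.inr (wh y hy z hz e), c⟩)))
    have h4 : (I ∩ comp G (HH S I \ {w}) b).ncard + (I ∩ comp G (HH S I \ {w}) a).ncard ≤
        (I ∩ ({w} ∪ (comp G (HH S I \ {w}) b ∪ comp G (HH S I \ {w}) a))).ncard := by
      rw [← ncard_union_eq (hd.mono inter_subset_right inter_subset_right),
        ← inter_union_distrib_left]
      exact ncard_le_ncard (inter_subset_inter_right _ subset_union_right)
    have h5 : (S ∩ ({w} ∪ (comp G (HH S I \ {w}) b ∪ comp G (HH S I \ {w}) a))).ncard ≤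
        1 + ((S ∩ comp G (HH S I \ {w}) b).ncard + (S ∩ comp G (HH S I \ {w}) a).ncard) := by
      rw [inter_union_distrib_left, inter_union_distrib_left]
      refine (ncard_union_le _ _).trans (Nat.add_le_add ?_ (ncard_union_le _ _))
      exact (ncard_le_ncard inter_subset_right).trans (ncard_singleton w).le
    omega
  have h1 := swapI sS hI (T := {w} ∪ {x | x ∈ I ∧ G.Adj w x})
    (by
      rintro x (rfl | h)
      exacts [Or.inr hw, Or.inl (bl w hw.1 x h.1 h.2)])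
    ⟨w, Or.inl rfl⟩
    (by
      rintro y ⟨hy, rfl | h⟩ x hx e
      exacts [Or.inr ⟨hx, e⟩, (sS w hw.1 y hy h.2).elim])
  have h2 : 0 < (S ∩ ({w} ∪ {x | x ∈ I ∧ G.Adj w x})).ncard :=
    (ncard_pos (toFinite _)).2 ⟨w, hw.1, Or.inl rfl⟩
  obtain ⟨a, ha, b, hb, hab⟩ := (one_lt_ncard (toFinite _)).1 (lt_of_le_of_lt h2 h1)
  have wa : G.Adj w a := (ha.2.resolve_left fun h => hw.2 (h ▸ ha.1)).2
  have wb : G.Adj w b := (hb.2.resolve_left fun h => hw.2 (h ▸ hb.1)).2
  refine ⟨a, b, hab, bl w hw.1 a ha.1 wa, bl w hw.1 b hb.1 wb, wa, wb, fun c hc wc => ?_⟩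
  by_contra hcon
  have ca : c ≠ a := fun h => hcon (Or.inl h)
  have cb : c ≠ b := fun h => hcon (Or.inr h)
  have no : ∀ x ∈ I, ∀ y ∈ I, x ≠ y → G.Adj w x → G.Adj w y → v ∈ comp G (HH S I \ {w}) x →
      v ∈ comp G (HH S I \ {w}) y → False := fun x hx y _ xy wx wy h h' =>
    not_mem_comp hG sS sI hw.1 hx xy wx wy ⟨h.1, h.2.trans (h'.2.symm h'.1)⟩
  rcases two a ha.1 b hb.1 hab wa wb with h | h
  · rcases two c hc.1 b hb.1 cb wc wb with h' | h'
    · exact no c hc.1 a ha.1 ca wc wa h' h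
    · exact no a ha.1 b hb.1 hab wa wb h h'
  · rcases two c hc.1 a ha.1 ca wc wa with h' | h'
    · exact no c hc.1 b hb.1 cb wc wb h' h
    · exact no a ha.1 b hb.1 hab wa wb h' h

end Pool.Agent.MP_3ad207_lc.H56
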