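import Pool.Agent.MP_3ad207_lc.H56.Main
import Pool.Agent.MP_3ad207_lc.H56.Setup

/-!
The three extra operations: separators, geodesics, maximal cliques.
-/

set_option autoImplicit false

namespace Pool.Agent.MP_3ad207_lc.H56

open Set Pool.Agent.Ehf
open scoped Classical

noncomputable section

variable {n : ℕ}

/-! ### Separators -/

/-- `N[z] ∪ N[N(z) ∩ T]`, for `A = {z}`. -/
def bN (G : SimpleGraph (Fin n)) (T A : Set (Fin n)) : Set (Fin n) :=
  cN G (A ∪ T ∩ {y | ∃ x ∈ A, G.Adj x y})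

def sepOp : Op := fun _ G _ T U Z =>
  {z | Disjoint Z (bN G T {z}) ∧ ¬∃ x, Z ⊆ Reach G (U \ bN G T {z}) {x}}

theorem Real.bN {t a : US} (ht : Real t) (ha : Real a) :
    Real fun n G e => bN G (t n G e) (a n G e) := (ha.union (ht.inter ha.oN)).cN

theorem sepOp_real : OpReal sepOp :=
  Real.compr (((Real.var 4).disjoint ((Real.var 2).bN (Real.var 0))).and
    (RealP.ex ((Real.var 5).subset (((Real.var 4).diff ((Real.var 3).bN (Real.var 1))).reach
      (Real.var 0)))).not)

theorem sepOp_eq (G : SimpleGraph (Fin n)) (S T U : Set (Fin n)) (c t : Fin n) :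
    SepSet G T U c t = sepOp n G S T U ({c} ∪ {t}) := by
  ext z
  have e : bN G T {z} = Ehf.cN G (ball G T z) := by
    rw [cN_eq, bN]
    congr 1
    ext y
    simp [ball]
  simp only [SepSet, sepOp, mem_ofPred_eq, e, ← comp_eq, disjoint_union_left,
    disjoint_singleton_left, union_subset_iff, singleton_subset_iff, and_assoc]
  refine and_congr_right fun _ => and_congr_right fun _ => not_congr ⟨fun h => ?_, ?_⟩
  · exact ⟨c, mem_comp_self h.1, h⟩
  · rintro ⟨x, h1, h2⟩
    rwa [comp_eq_of_mem h1]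

/-! ### Geodesics -/

/-- One step of breadth first search from `A` inside `U`. -/
def stp (G : SimpleGraph (Fin n)) (U A X : Set (Fin n)) : Set (Fin n) := U ∩ (A ∪ cN G X)

def geoOp : Op := fun n G _ U A B =>
  {x | ∃ p q : Fin n, x ∈ stp G U A ((stp G U A)^[p] ∅) ∧ x ∈ stp G U B ((stp G U B)^[q] ∅) ∧
    Disjoint B ((stp G U A)^[q] ((stp G U A)^[p] ∅))}

theorem Real.stp {u a x : US} (hu : Real u) (ha : Real a) (hx : Real x) :
    Real fun n G e => stp G (u n G e) (a n G e) (x n G e) := hu.inter (ha.union hx.cN)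

theorem Real.stpI {c u a x : US} (hc : Real c) (hu : Real u) (ha : Real a) (hx : Real x) :
    Real fun n G e => (H56.stp G (u n G e) (a n G e))^[({y | ∃ x ∈ c n G e, y < x}).ncard]
      (x n G e) := Real.iterC hc.below (hu.wk.stp ha.wk (Real.var 0)) hx

theorem ncard_below (p : Fin n) : ({y | ∃ x ∈ ({p} : Set (Fin n)), y < x}).ncard = p := by
  have : {y | ∃ x ∈ ({p} : Set (Fin n)), y < x} = (Finset.Iio p : Set (Fin n)) := by
    ext; simp
  rw [this, ncard_coe_finset, Fin.card_Iio]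

theorem geoOp_real : OpReal geoOp := by
  have hA := Real.stpI (Real.var 1) (Real.var 4) (Real.var 5) Real.empty
  have hB := Real.stpI (Real.var 0) (Real.var 4) (Real.var 6) Real.empty
  refine (Real.compr (RealP.ex (RealP.ex
    (((Real.var 2).subset ((Real.var 4).stp (Real.var 5) hA)).and
      (((Real.var 2).subset ((Real.var 4).stp (Real.var 6) hB)).and
        ((Real.var 6).disjoint (Real.stpI (Real.var 0) (Real.var 4) (Real.var 5) hA))))))).congr
    fun n G e => ?_
  simp only [geoOp, vr_zero, vr_succ, ncard_below, singleton_subset_iff]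

/-- There is a walk with `m` edges from `a` to `x` inside `U`. -/
def Wk {V : Type} (G : SimpleGraph V) (U : Set V) (a x : V) (m : ℕ) : Prop :=
  ∃ f, WalkIn G U f m ∧ f 0 = a ∧ f m = x

section Walks

variable {V : Type} {G : SimpleGraph V} {U : Set V} {a b x : V}

theorem Wk.zero : Wk G U a x 0 ↔ a ∈ U ∧ x = a :=
  ⟨fun ⟨_, h, h0, h1⟩ => ⟨h0 ▸ h.1 0 le_rfl, h1.symm.trans h0⟩,
    fun h => ⟨fun _ => a, ⟨fun _ _ => h.1, fun _ _ => by omega⟩, rfl, h.2.symm⟩⟩

theorem Wk.mem {m : ℕ} (h : Wk G U a x m) : x ∈ U := by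
  obtain ⟨f, h, -, h1⟩ := h
  exact h1 ▸ h.1 m le_rfl

theorem Wk.symm {m : ℕ} (h : Wk G U a x m) : Wk G U x a m := by
  obtain ⟨f, h, h0, h1⟩ := h
  refine ⟨fun i => f (m - i), ⟨fun i _ => h.1 _ (by omega), fun i hi => ?_⟩, h1, by simpa using h0⟩
  have := h.2 (m - (i + 1)) (by omega)
  rw [show m - (i + 1) + 1 = m - i by omega] at this
  exact this.symm

theorem wk_concat {i j : ℕ} (h : Wk G U a x i) (h' : Wk G U x b j) :
    ∃ f, WalkIn G U f (i + j) ∧ f 0 = a ∧ f (i + j) = b ∧ f i = x := by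
  obtain ⟨f, hf, f0, f1⟩ := h
  obtain ⟨g, hg, g0, g1⟩ := h'
  have e : ∀ k, i ≤ k → (if k ≤ i then f k else g (k - i)) = g (k - i) := by
    intro k hk
    split_ifs with c
    · obtain rfl : k = i := by omega
      rw [Nat.sub_self, g0, f1]
    · rfl
  refine ⟨fun k => if k ≤ i then f k else g (k - i), ⟨fun k hk => ?_, fun k hk => ?_⟩,
    by simpa using f0, ?_, by simpa using f1⟩
  · by_cases c : k ≤ i
    · simpa [c] using hf.1 k c
    · simpa [c] using hg.1 (k - i) (by omega)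
  · by_cases c : k < i
    · simpa [c.le, Nat.succ_le_of_lt c] using hf.2 k c
    · simp only [e k (by omega), e (k + 1) (by omega)]
      rw [show k + 1 - i = k - i + 1 by omega]
      exact hg.2 _ (by omega)
  · exact (e (i + j) (by omega)).trans (by rw [Nat.add_sub_cancel_left, g1])

theorem Wk.succ {m : ℕ} : Wk G U a x (m + 1) ↔ x ∈ U ∧ ∃ y, Wk G U a y m ∧ G.Adj y x := by
  constructor
  · rintro ⟨f, h, h0, rfl⟩
    exact ⟨h.1 _ le_rfl, f m, ⟨f, ⟨fun i hi => h.1 i (by omega), fun i hi => h.2 i (by omega)⟩,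
      h0, rfl⟩, h.2 m (by omega)⟩
  · rintro ⟨hx, y, h, e⟩
    have h1 : Wk G U y x 1 := by
      refine ⟨fun i => if i = 0 then y else x, ⟨fun i _ => ?_, fun i hi => ?_⟩, by simp, by simp⟩
      · by_cases c : i = 0
        · simpa [c] using h.mem
        · simpa [c] using hx
      · obtain rfl : i = 0 := by omega
        simpa using e
    obtain ⟨f, h2, h3, h4, -⟩ := wk_concat h h1
    exact ⟨f, h2, h3, h4⟩

theorem mem_Geo : x ∈ Geo G U a b ↔
    ∃ i j, Wk G U a x i ∧ Wk G U b x j ∧ ∀ m, Wk G U a b m → i + j ≤ m := by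
  constructor
  · rintro ⟨m, f, hf, f0, f1, hm, i, hi, rfl⟩
    refine ⟨i, m - i, ⟨f, ⟨fun k hk => hf.1 k (by omega), fun k hk => hf.2 k (by omega)⟩, f0, rfl⟩,
      Wk.symm ⟨fun k => f (i + k), ⟨fun k hk => hf.1 _ (by omega), fun k hk => hf.2 _ (by omega)⟩,
        rfl, ?_⟩, fun k ⟨g, h1, h2, h3⟩ => by have := hm k g h1 h2 h3; omega⟩
    show f (i + (m - i)) = b
    rw [← f1]
    congr 1
    omega
  · rintro ⟨i, j, h1, h2, h3⟩
    obtain ⟨f, h4, h5, h6, h7⟩ := wk_concat h1 h2.symm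
    exact ⟨i + j, f, h4, h5, h6, fun m g e1 e2 e3 => h3 m ⟨g, e1, e2, e3⟩, i, by omega, h7⟩

end Walks

theorem Wk.short {G : SimpleGraph (Fin n)} {U : Set (Fin n)} {a b : Fin n} {m : ℕ}
    (h : Wk G U a b m) : ∃ k, k < n ∧ Wk G U a b k := by
  obtain ⟨f, hf, f0, f1⟩ := h
  obtain ⟨k, g, -, hg, g0, g1, gX, -⟩ := exists_isIP_of_walk m f hf.2
  refine ⟨k, ?_, g, ⟨fun i hi => ?_, fun i hi => hg.adj_succ hi⟩, g0.trans f0, g1.trans f1⟩
  · have := Fintype.card_le_of_injective (fun i : Fin (k + 1) => g i) fun i j e =>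
      Fin.ext (hg.inj (by omega) (by omega) e)
    simpa using this
  · rcases Nat.eq_zero_or_pos i with rfl | h0
    · exact g0 ▸ hf.1 0 (Nat.zero_le _)
    · obtain ⟨l, -, h1, h2⟩ := gX i h0 hi
      exact h2 ▸ hf.1 l h1

theorem mem_stp {G : SimpleGraph (Fin n)} {U : Set (Fin n)} {a : Fin n} (k : ℕ) (x : Fin n) :
    x ∈ (stp G U {a})^[k] ∅ ↔ ∃ m, m < k ∧ Wk G U a x m := by
  induction k generalizing x with
  | zero => simp
  | succ k ih =>
    rw [Function.iterate_succ_apply']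
    constructor
    · rintro ⟨hx, rfl | h | ⟨y, hy, e⟩⟩
      · exact ⟨0, by omega, Wk.zero.2 ⟨hx, rfl⟩⟩
      · obtain ⟨m, h1, h2⟩ := (ih x).1 h
        exact ⟨m, by omega, h2⟩
      · obtain ⟨m, h1, h2⟩ := (ih y).1 hy
        exact ⟨m + 1, by omega, Wk.succ.2 ⟨hx, y, h2, e⟩⟩
    · rintro ⟨m, h1, h2⟩
      refine ⟨h2.mem, ?_⟩
      cases m with
      | zero => exact Or.inl (Wk.zero.1 h2).2
      | succ m =>
        obtain ⟨-, y, h3, e⟩ := Wk.succ.1 h2
        exact Or.inr (Or.inr ⟨y, (ih y).2 ⟨m, by omega, h3⟩, e⟩)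

theorem geoOp_eq (G : SimpleGraph (Fin n)) (S U : Set (Fin n)) (a b : Fin n) :
    Geo G U a b = geoOp n G S U {a} {b} := by
  ext x
  simp only [geoOp, mem_ofPred_eq, ← Function.iterate_succ_apply', ← Function.iterate_add_apply,
    disjoint_singleton_left, mem_stp, mem_Geo]
  constructor
  · rintro ⟨i, j, h1, h2, h3⟩
    obtain ⟨f, h4, h5, h6, -⟩ := wk_concat h1 h2.symm
    obtain ⟨k, hk, h7⟩ := Wk.short ⟨f, h4, h5, h6⟩
    have := h3 k h7
    refine ⟨⟨i, by omega⟩, ⟨j, by omega⟩, ⟨i, Nat.lt_succ_self _, h1⟩,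
      ⟨j, Nat.lt_succ_self _, h2⟩, fun ⟨m, h8, h9⟩ => ?_⟩
    have := h3 m h9
    simp only at h8
    omega
  · rintro ⟨p, q, ⟨i, hi, h1⟩, ⟨j, hj, h2⟩, h3⟩
    refine ⟨i, j, h1, h2, fun m hm => ?_⟩
    by_contra hlt
    exact h3 ⟨m, by omega, hm⟩

/-! ### Maximal cliques -/

/-- Greedy extension to a maximal clique. -/
def greedy (G : SimpleGraph (Fin n)) (A : Set (Fin n)) : Set (Fin n) :=
  (sings n).foldl (fun A Z => if A ⊆ cN G Z then A ∪ Z else A) A

def clqOp : Op := fun _ G _ X Y _ =>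
  greedy G (Y ∪ {y | ∃ x ∈ X, G.Adj x y} ∩ {y | ∃ x ∈ Y, G.Adj x y} ∩ {y | ∃ x ∈ Y, y < x})

theorem clqOp_real : OpReal clqOp :=
  Real.foldL RealL.sings (Real.ite ((Real.var 0).subset (Real.var 1).cN)
    ((Real.var 0).union (Real.var 1)) (Real.var 0))
    ((Real.var 2).union (((Real.var 1).oN.inter (Real.var 2).oN).inter (Real.var 2).below))

theorem foldl_inv {α : Type} (f : α → Fin n → α) (P : ℕ → α → Prop) (a : α) (h0 : P 0 a)
    (hs : ∀ (i : Fin n) x, P i x → P (i + 1) (f x i)) : P n ((List.finRange n).foldl f a) := by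
  have key : ∀ k, k ≤ n → P k (((List.finRange n).take k).foldl f a) := by
    intro k
    induction k with
    | zero => exact fun _ => h0
    | succ k ih =>
      intro hk
      have e : (List.finRange n).take (k + 1) = (List.finRange n).take k ++ [⟨k, hk⟩] := by
        rw [List.take_add_one, List.getElem?_eq_getElem (by simpa using hk)]
        simp
      rw [e, List.foldl_append]
      exact hs ⟨k, hk⟩ _ (ih (by omega))
  have := key n le_rfl
  rwa [List.take_of_length_le (by simp)] at this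

/-- The part of `K` below `j` is a maximal clique below `j`. -/
def Good (G : SimpleGraph (Fin n)) (K : Set (Fin n)) (j : ℕ) : Prop :=
  ∀ u : Fin n, u.val < j → K ∩ {x | x.val < j} ⊆ cN G {u} → u ∈ K

theorem mem_cN1 {G : SimpleGraph (Fin n)} {u x : Fin n} : x ∈ cN G {u} ↔ x = u ∨ G.Adj u x := by
  simp [cN]

theorem greedy_eq {G : SimpleGraph (Fin n)} {K : Set (Fin n)} (hK : Clq G K) {s : ℕ}
    (hs : ∀ j, s ≤ j → Good G K j) : greedy G (K ∩ {x | x.val < s}) = K := by
  rw [greedy, sings, List.foldl_map]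
  refine (foldl_inv _ (fun i A => A = K ∩ {x | x.val < max i s}) _ (by simp) ?_).trans ?_
  · rintro i _ rfl
    have e : i ∉ K →
        K ∩ {x : Fin n | x.val < max i.val s} = K ∩ {x | x.val < max (i.val + 1) s} := by
      intro hi
      ext x
      refine and_congr_right fun hx => ?_
      have : x.val ≠ i.val := fun h => hi (Fin.ext h ▸ hx)
      simp only [mem_ofPred_eq]
      omega
    split_ifs with c
    · have hi : i ∈ K := by
        by_contra hi
        exact hi (hs _ (le_max_right _ _) i (by omega) (e hi ▸ c))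
      ext x
      simp only [mem_union, mem_inter_iff, mem_ofPred_eq, mem_singleton_iff]
      constructor
      · rintro (h | rfl)
        exacts [⟨h.1, by omega⟩, ⟨hi, by omega⟩]
      · intro h
        by_cases d : x = i
        · exact Or.inr d
        · have : x.val ≠ i.val := fun h => d (Fin.ext h)
          exact Or.inl ⟨h.1, by omega⟩
    · refine e fun hi => c fun x hx => mem_cN1.2 ?_
      by_cases d : x = i
      exacts [Or.inl d, Or.inr (hK i hi x hx.1 (Ne.symm d))]
  · exact inter_eq_left.2 fun x _ => lt_max_of_lt_left x.2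

theorem clqOp_eq {G : SimpleGraph (Fin n)} (hG : EHF G) (S : Set (Fin n)) {K : Set (Fin n)}
    (hK : MaxClq G K) : K = clqOp n G S ∅ ∅ ∅ ∨ ∃ u v, K = clqOp n G S {u} {v} ∅ := by
  have top : ∀ j, n ≤ j → Good G K j := by
    intro j hj u _ h
    have h' : ∀ x ∈ K, x = u ∨ G.Adj u x := fun x hx =>
      mem_cN1.1 (h ⟨hx, lt_of_lt_of_le x.2 hj⟩)
    refine hK.2 (insert u K) ?_ (subset_insert _ _) (mem_insert _ _)
    rintro x (rfl | hx) y (rfl | hy) hne
    · exact (hne rfl).elim
    · exact (h' y hy).resolve_left hne.symm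
    · exact ((h' x hx).resolve_left hne).symm
    · exact hK.1 x hx y hy hne
  have hex : ∃ s, ∀ j, s ≤ j → Good G K j := ⟨n, top⟩
  have hs := Nat.find_spec hex
  rcases h : Nat.find hex with _ | t
  · left
    rw [h] at hs
    rw [← greedy_eq hK.1 hs, clqOp]
    congr 1
    simp
  · right
    rw [h] at hs
    have bad : ¬Good G K t := fun hg => Nat.find_min hex (m := t) (by omega) fun j hj =>
      (Nat.eq_or_lt_of_le hj).elim (fun e => e ▸ hg) (hs j)
    have ht : t < n := not_le.1 fun h => bad (top t h)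
    have gd := hs _ le_rfl
    simp only [Good, not_forall] at bad
    obtain ⟨u, hu, h1, h2⟩ := bad
    have h3 : ¬(K ∩ {x | x.val < t + 1} ⊆ cN G {u}) := fun h => h2 (gd u (by omega) h)
    obtain ⟨v, ⟨hv, hv'⟩, h4⟩ := not_subset.1 h3
    have hvt : v.val = t := by
      by_contra hne
      exact h4 (h1 ⟨hv, (by have : v.val < t + 1 := hv'; omega : v.val < t)⟩)
    rw [mem_cN1, not_or] at h4
    have low : ∀ x ∈ K, x.val < t → G.Adj u x ∧ G.Adj v x := fun x hx hxt =>
      ⟨(mem_cN1.1 (h1 ⟨hx, hxt⟩)).resolve_left fun e => h2 (e ▸ hx),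
        hK.1 v hv x hx fun e => by rw [e] at hvt; omega⟩
    refine ⟨u, v, ?_⟩
    rw [← greedy_eq hK.1 hs, clqOp]
    congr 1
    ext x
    simp only [mem_inter_iff, mem_ofPred_eq, mem_union, mem_singleton_iff, exists_eq_left,
      Fin.lt_def, hvt]
    constructor
    · rintro ⟨hx, hxt⟩
      by_cases d : x = v
      · exact Or.inl d
      · have : x.val ≠ v.val := fun h => d (Fin.ext h)
        exact Or.inr ⟨low x hx (by omega), by omega⟩
    · rintro (rfl | ⟨⟨ux, vx⟩, hxt⟩)
      · exact ⟨hv, by omega⟩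
      · refine ⟨gd x (by omega) fun y hy => mem_cN1.2 ?_, by omega⟩
        by_cases d : y = x
        · exact Or.inl d
        by_cases d' : y = v
        · exact Or.inr (d' ▸ vx.symm)
        have : y.val ≠ v.val := fun h => d' (Fin.ext h)
        have hy2 : y.val < t + 1 := hy.2
        obtain ⟨uy, vy⟩ := low y hy.1 (by omega)
        exact Or.inr (hG.adj_of_common (Ne.symm h4.1) h4.2 ux vx uy vy (Ne.symm d))

end

end Pool.Agent.MP_3ad207_lc.H56
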