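import Pool.Agent.Shared.H56.More
import Pool.Agent.MP_3ad207_lc.H56.Alg

/-!
A calculus of polynomial time realisable uniform functions on graphs with an environment of
lists of vertex sets.
-/

set_option autoImplicit false

namespace Pool.Agent.MP_3ad207_lc.H56

open Set Pool.Agent.Shared.H56
open scoped Classical

noncomputable section

abbrev Bs : Type := List Bool
abbrev Env (n : ℕ) : Type := List (List (Set (Fin n)))
abbrev In : Type := List Bs × List (List Bs)

variable {n : ℕ}

def code (X : Set (Fin n)) : Bs := (List.finRange n).map fun i => decide (i ∈ X)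
def gcode (G : SimpleGraph (Fin n)) : List Bs :=
  (List.finRange n).map fun i => code (G.neighborSet i)
def ecode (e : Env n) : List (List Bs) := e.map (List.map code)
def inp (G : SimpleGraph (Fin n)) (e : Env n) : In := (gcode G, ecode e)

/-- The `i`-th list of the environment. -/
def lv (e : Env n) (i : ℕ) : List (Set (Fin n)) := e.getD i []
/-- The `i`-th set of the environment. -/
def vr (e : Env n) (i : ℕ) : Set (Fin n) := (e.getD i []).headD ∅

@[simp] theorem lv_zero (l : List (Set (Fin n))) (e : Env n) : lv (l :: e) 0 = l := rfl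
@[simp] theorem lv_succ (l : List (Set (Fin n))) (e : Env n) (i : ℕ) :
    lv (l :: e) (i + 1) = lv e i := rfl
@[simp] theorem vr_zero (X : Set (Fin n)) (e : Env n) : vr ([X] :: e) 0 = X := rfl
@[simp] theorem vr_succ (l : List (Set (Fin n))) (e : Env n) (i : ℕ) :
    vr (l :: e) (i + 1) = vr e i := rfl

abbrev U (β : ℕ → Type) : Type := ∀ n : ℕ, SimpleGraph (Fin n) → Env n → β n
abbrev US : Type := U fun n => Set (Fin n)
abbrev UL : Type := U fun n => List (Set (Fin n))
abbrev UP : Type := U fun _ => Prop
abbrev UE : Type := U Env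

def Real (u : US) : Prop := ∃ F : In → Bs, PT F ∧ ∀ n G e, F (inp G e) = code (u n G e)
def RealL (u : UL) : Prop := ∃ F : In → List Bs, PT F ∧ ∀ n G e, F (inp G e) = (u n G e).map code
def RealP (u : UP) : Prop := ∃ F : In → Bool, PT F ∧ ∀ n G e, F (inp G e) = decide (u n G e)
def RealE (u : UE) : Prop :=
  ∃ F : In → List (List Bs), PT F ∧ ∀ n G e, F (inp G e) = ecode (u n G e)

theorem Real.congr {u w : US} (h : Real u) (e : ∀ n G e, u n G e = w n G e) : Real w := by
  obtain ⟨F, h1, h2⟩ := h
  exact ⟨F, h1, fun n G x => e n G x ▸ h2 n G x⟩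

theorem RealL.congr {u w : UL} (h : RealL u) (e : ∀ n G e, u n G e = w n G e) : RealL w := by
  obtain ⟨F, h1, h2⟩ := h
  exact ⟨F, h1, fun n G x => e n G x ▸ h2 n G x⟩

theorem RealP.congr {u w : UP} (h : RealP u) (e : ∀ n G e, u n G e ↔ w n G e) : RealP w := by
  obtain ⟨F, h1, h2⟩ := h
  exact ⟨F, h1, fun n G x => (h2 n G x).trans (decide_eq_decide.2 (e n G x))⟩

/-! ### Codes -/

@[simp] theorem code_length (X : Set (Fin n)) : (code X).length = n := by simp [code]

@[simp] theorem inp_length (G : SimpleGraph (Fin n)) (e : Env n) : (inp G e).1.length = n := by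
  simp [inp, gcode]

theorem code_getD (X : Set (Fin n)) (i : Fin n) : (code X).getD i false = decide (i ∈ X) := by
  simp [code]

theorem gcode_getD (G : SimpleGraph (Fin n)) (e : Env n) (i : Fin n) :
    (inp G e).1.getD i [] = code (G.neighborSet i) := by
  simp [inp, gcode]

theorem range_map {β : Type} (f : ℕ → β) :
    (List.range n).map f = (List.finRange n).map fun i : Fin n => f i.val := by
  rw [← List.map_coe_finRange_eq_range, List.map_map]; rfl

theorem range_any (f : ℕ → Bool) : (List.range n).any f = decide (∃ i : Fin n, f i = true) := by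
  rw [Bool.eq_iff_iff]
  simp only [List.any_eq_true, List.mem_range, decide_eq_true_eq]
  exact ⟨fun ⟨i, h1, h2⟩ => ⟨⟨i, h1⟩, h2⟩, fun ⟨i, h⟩ => ⟨i, i.2, h⟩⟩

theorem code_eq {X : Set (Fin n)} {f : ℕ → Bool} (h : ∀ i : Fin n, f i = decide (i ∈ X)) :
    (List.range n).map f = code X := by
  rw [range_map, code]
  exact List.map_congr_left fun i _ => h i

theorem code_inj {X Y : Set (Fin n)} (h : code X = code Y) : X = Y := by
  ext i
  have := code_getD X i
  rw [h, code_getD] at this
  exact (decide_eq_decide.1 this).symm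

/-- The code of a singleton. -/
def sing (n z : ℕ) : Bs := (List.range n).map fun i => decide (i = z)

theorem sing_eq (z : Fin n) : sing n z = code {z} :=
  code_eq fun i => decide_eq_decide.2 (by simp [Fin.ext_iff])

@[fun_prop] theorem pt_sing {α : Type} [N487b59b3 α] {m z : α → ℕ} (hm : PT fun a => un (m a))
    (hz : PT z) : PT fun a => sing (m a) (z a) := by
  unfold sing
  exact PT.map (f := fun a i => decide (i = z a)) (by fun_prop) (by fun_prop)

/-- Cut or pad to length `n`. -/
def nrm (n : ℕ) (x : Bs) : Bs := (List.range n).map fun i => x.getD i false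

theorem nrm_code (X : Set (Fin n)) : nrm n (code X) = code X := code_eq (code_getD X)

@[simp] theorem nrm_length (n : ℕ) (x : Bs) : (nrm n x).length = n := by simp [nrm]

@[fun_prop] theorem pt_nrm {α : Type} [N487b59b3 α] {m : α → ℕ} {x : α → Bs}
    (hm : PT fun a => un (m a)) (hx : PT x) : PT fun a => nrm (m a) (x a) := by
  unfold nrm
  exact PT.map (f := fun a i => (x a).getD i false) (by fun_prop) (by fun_prop)

theorem inp_cons (G : SimpleGraph (Fin n)) (l : List (Set (Fin n))) (e : Env n) :
    ((inp G e).1, l.map code :: (inp G e).2) = inp G (l :: e) := rfl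

theorem inp_cons1 (G : SimpleGraph (Fin n)) (X : Set (Fin n)) (e : Env n) :
    ((inp G e).1, [code X] :: (inp G e).2) = inp G ([X] :: e) := rfl

theorem Real.of_pred {u : US} (φ : In → ℕ → Bool) (hφ : PT fun q : In × ℕ => φ q.1 q.2)
    (h : ∀ n G e (z : Fin n), φ (inp G e) z = decide (z ∈ u n G e)) : Real u :=
  ⟨fun p => (List.range p.1.length).map (φ p), PT.map hφ (by fun_prop), fun n G e => by
    simp only [inp_length]; exact code_eq (h n G e)⟩

/-! ### Environments -/

theorem RealE.id : RealE fun _ _ e => e := ⟨fun p => p.2, by fun_prop, fun _ _ _ => rfl⟩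

theorem RealE.nil : RealE fun _ _ _ => [] := ⟨fun _ => [], by fun_prop, fun _ _ _ => rfl⟩

theorem RealE.tail : RealE fun _ _ e => e.tail :=
  ⟨fun p => p.2.tail, by fun_prop, fun _ _ e => by cases e <;> rfl⟩

theorem RealE.cons {l : UL} {σ : UE} (hl : RealL l) (hσ : RealE σ) :
    RealE fun n G e => l n G e :: σ n G e := by
  obtain ⟨F, h1, h2⟩ := hl
  obtain ⟨F', h3, h4⟩ := hσ
  exact ⟨fun p => F p :: F' p, by fun_prop, fun n G e => by simp only [h2, h4]; rfl⟩

theorem Real.comp {u : US} {σ : UE} (hu : Real u) (hσ : RealE σ) :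
    Real fun n G e => u n G (σ n G e) := by
  obtain ⟨F, h1, h2⟩ := hu
  obtain ⟨F', h3, h4⟩ := hσ
  exact ⟨fun p => F (p.1, F' p), by fun_prop, fun n G e => by rw [← h2]; simp only [h4]; rfl⟩

theorem RealL.comp {u : UL} {σ : UE} (hu : RealL u) (hσ : RealE σ) :
    RealL fun n G e => u n G (σ n G e) := by
  obtain ⟨F, h1, h2⟩ := hu
  obtain ⟨F', h3, h4⟩ := hσ
  exact ⟨fun p => F (p.1, F' p), by fun_prop, fun n G e => by rw [← h2]; simp only [h4]; rfl⟩

theorem RealP.comp {u : UP} {σ : UE} (hu : RealP u) (hσ : RealE σ) :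
    RealP fun n G e => u n G (σ n G e) := by
  obtain ⟨F, h1, h2⟩ := hu
  obtain ⟨F', h3, h4⟩ := hσ
  exact ⟨fun p => F (p.1, F' p), by fun_prop, fun n G e => by rw [← h2]; simp only [h4]; rfl⟩

theorem RealE.tail2 : RealE fun _ _ e => e.tail.tail :=
  ⟨fun p => p.2.tail.tail, by fun_prop, fun _ _ e => by rcases e with _ | ⟨_, _ | _⟩ <;> rfl⟩

theorem Real.wk {u : US} (hu : Real u) : Real fun n G e => u n G e.tail := hu.comp RealE.tail
theorem RealL.wk {u : UL} (hu : RealL u) : RealL fun n G e => u n G e.tail := hu.comp RealE.tail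
theorem RealP.wk {u : UP} (hu : RealP u) : RealP fun n G e => u n G e.tail := hu.comp RealE.tail

/-! ### Lists of sets -/

theorem RealL.nil : RealL fun _ _ _ => [] := ⟨fun _ => [], by fun_prop, fun _ _ _ => rfl⟩

theorem RealL.cons {u : US} {l : UL} (hu : Real u) (hl : RealL l) :
    RealL fun n G e => u n G e :: l n G e := by
  obtain ⟨F, h1, h2⟩ := hu
  obtain ⟨F', h3, h4⟩ := hl
  exact ⟨fun p => F p :: F' p, by fun_prop, fun n G e => by simp only [h2, h4]; rfl⟩

theorem Real.one {u : US} (hu : Real u) : RealL fun n G e => [u n G e] := RealL.cons hu RealL.nil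

theorem RealE.cons1 {u : US} {σ : UE} (hu : Real u) (hσ : RealE σ) :
    RealE fun n G e => [u n G e] :: σ n G e := RealE.cons hu.one hσ

theorem RealL.append {l l' : UL} (hl : RealL l) (hl' : RealL l') :
    RealL fun n G e => l n G e ++ l' n G e := by
  obtain ⟨F, h1, h2⟩ := hl
  obtain ⟨F', h3, h4⟩ := hl'
  exact ⟨fun p => F p ++ F' p, by fun_prop, fun n G e => by simp only [h2, h4, List.map_append]⟩

theorem RealL.var (i : ℕ) : RealL fun _ _ e => lv e i :=
  ⟨fun p => p.2.getD i [], by fun_prop, fun _ _ e => List.getD_map e [] (List.map code)⟩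

theorem RealL.flatMap {l u : UL} (hl : RealL l) (hu : RealL u) :
    RealL fun n G e => (l n G e).flatMap fun X => u n G ([X] :: e) := by
  obtain ⟨F, h1, h2⟩ := hl
  obtain ⟨F', h3, h4⟩ := hu
  refine ⟨fun p => (F p).flatMap fun x => F' (p.1, [x] :: p.2),
    PT.flatMap (f := fun (p : In) x => F' (p.1, [x] :: p.2)) (by fun_prop) h1, fun n G e => ?_⟩
  simp only [h2, List.flatMap_map, List.map_flatMap, inp_cons1, h4]

theorem RealL.map {l : UL} {u : US} (hl : RealL l) (hu : Real u) :
    RealL fun n G e => (l n G e).map fun X => u n G ([X] :: e) :=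
  (hl.flatMap hu.one).congr fun _ _ _ => List.map_eq_flatMap.symm

theorem RealL.sings : RealL fun n _ _ => sings n := by
  refine ⟨fun p => (List.range p.1.length).map (sing p.1.length),
    PT.map (f := fun (p : In) z => sing p.1.length z) (by fun_prop) (by fun_prop), fun n G e => ?_⟩
  simp only [inp_length, range_map, H56.sings, List.map_map, sing_eq]
  rfl

theorem RealL.ite {p : UP} {l l' : UL} (hp : RealP p) (hl : RealL l) (hl' : RealL l') :
    RealL fun n G e => if p n G e then l n G e else l' n G e := by
  obtain ⟨F, h1, h2⟩ := hp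
  obtain ⟨F', h3, h4⟩ := hl
  obtain ⟨F'', h5, h6⟩ := hl'
  refine ⟨fun p => bif F p then F' p else F'' p, by fun_prop, fun n G e => ?_⟩
  simp only [h2, h4, h6]
  by_cases h : p n G e <;> simp [h]

theorem RealL.filter {l : UL} {p : UP} (hl : RealL l) (hp : RealP p) :
    RealL fun n G e => (l n G e).filter fun X => decide (p n G ([X] :: e)) :=
  (hl.flatMap (RealL.ite hp (RealL.var 0) RealL.nil)).congr fun n G e => by
    induction l n G e with
    | nil => rfl
    | cons X t ih =>
      rw [List.flatMap_cons, ih]
      by_cases h : p n G ([X] :: e) <;> simp [h]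

theorem RealL.headD {l : UL} (hl : RealL l) : Real fun n G e => (l n G e).headD ∅ := by
  obtain ⟨F, h1, h2⟩ := hl
  refine ⟨fun p => (F p).headD (nrm p.1.length []), by fun_prop, fun n G e => ?_⟩
  have : nrm n [] = code (∅ : Set (Fin n)) := code_eq fun i => by simp
  simp only [h2, inp_length, this, List.headD_map]

/-! ### Sets and predicates -/

theorem Real.var (i : ℕ) : Real fun _ _ e => vr e i := (RealL.var i).headD

theorem Real.empty : Real fun _ _ _ => ∅ := RealL.nil.headD

theorem Real.bin (g : Bool → Bool → Bool) {u w r : US} (hu : Real u) (hw : Real w)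
    (h : ∀ n G e (z : Fin n), g (decide (z ∈ u n G e)) (decide (z ∈ w n G e)) =
      decide (z ∈ r n G e)) : Real r := by
  obtain ⟨F, h1, h2⟩ := hu
  obtain ⟨F', h3, h4⟩ := hw
  refine Real.of_pred (fun p z => g ((F p).getD z false) ((F' p).getD z false))
    (pt_bool3 (fun a b _ => g a b) (z := fun _ => false) (by fun_prop) (by fun_prop)
      (by fun_prop)) fun n G e z => ?_
  simp only [h2, h4, code_getD, h]

theorem Real.union {u w : US} (hu : Real u) (hw : Real w) : Real fun n G e => u n G e ∪ w n G e :=
  Real.bin (· || ·) hu hw fun _ _ _ _ => by simp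

theorem Real.inter {u w : US} (hu : Real u) (hw : Real w) : Real fun n G e => u n G e ∩ w n G e :=
  Real.bin (· && ·) hu hw fun _ _ _ _ => by simp

theorem Real.diff {u w : US} (hu : Real u) (hw : Real w) : Real fun n G e => u n G e \ w n G e :=
  Real.bin (fun a b => a && !b) hu hw fun _ _ _ _ => by simp

theorem Real.compl {u : US} (hu : Real u) : Real fun n G e => (u n G e)ᶜ :=
  Real.bin (fun a _ => !a) hu hu fun _ _ _ _ => by simp

theorem Real.univ : Real fun _ _ _ => univ := Real.empty.compl.congr fun _ _ _ => compl_empty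

theorem Real.ite {p : UP} {u w : US} (hp : RealP p) (hu : Real u) (hw : Real w) :
    Real fun n G e => if p n G e then u n G e else w n G e :=
  (RealL.ite hp hu.one hw.one).headD.congr fun n G e => by split_ifs <;> rfl

/-- Open neighbourhood. -/
theorem Real.oN {u : US} (hu : Real u) : Real fun n G e => {y | ∃ x ∈ u n G e, G.Adj x y} := by
  obtain ⟨F, h1, h2⟩ := hu
  refine Real.of_pred (fun p y => (List.range p.1.length).any fun x =>
    (F p).getD x false && (p.1.getD x []).getD y false)
    (PT.any (f := fun (q : In × ℕ) x => (F q.1).getD x false && (q.1.1.getD x []).getD q.2 false)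
      (by fun_prop) (by fun_prop)) fun n G e z => ?_
  simp only [inp_length, range_any, h2, code_getD, gcode_getD]
  exact decide_eq_decide.2 (by simp)

theorem Real.cN {u : US} (hu : Real u) : Real fun n G e => cN G (u n G e) := hu.union hu.oN

/-- The vertices below some member. -/
theorem Real.below {u : US} (hu : Real u) : Real fun n G e => {y | ∃ x ∈ u n G e, y < x} := by
  obtain ⟨F, h1, h2⟩ := hu
  refine Real.of_pred (fun p y => (List.range p.1.length).any fun x =>
    (F p).getD x false && decide (y < x))
    (PT.any (f := fun (q : In × ℕ) x => (F q.1).getD x false && decide (q.2 < x))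
      (by fun_prop) (by fun_prop)) fun n G e z => ?_
  simp only [inp_length, range_any, h2, code_getD]
  exact decide_eq_decide.2 (by simp)

/-- Comprehension over a vertex. -/
theorem Real.compr {p : UP} (hp : RealP p) : Real fun n G e => {z | p n G ([{z}] :: e)} := by
  obtain ⟨F, h1, h2⟩ := hp
  refine Real.of_pred (fun p z => F (p.1, [sing p.1.length z] :: p.2)) (by fun_prop)
    fun n G e z => ?_
  simp only [inp_length, sing_eq, inp_cons1, h2]
  exact decide_eq_decide.2 Iff.rfl

/-- Union over the vertices of a set. -/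
theorem Real.bigU {a u : US} (ha : Real a) (hu : Real u) :
    Real fun n G e => {y | ∃ x ∈ a n G e, y ∈ u n G ([{x}] :: e)} := by
  obtain ⟨F, h1, h2⟩ := ha
  obtain ⟨F', h3, h4⟩ := hu
  refine Real.of_pred (fun p y => (List.range p.1.length).any fun x =>
    (F p).getD x false && (F' (p.1, [sing p.1.length x] :: p.2)).getD y false)
    (PT.any (f := fun (q : In × ℕ) x => (F q.1).getD x false &&
      (F' (q.1.1, [sing q.1.1.length x] :: q.1.2)).getD q.2 false)
      (by fun_prop) (by fun_prop)) fun n G e z => ?_
  simp only [inp_length, range_any, h2, sing_eq, inp_cons1, h4, code_getD]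
  exact decide_eq_decide.2 (by simp)

theorem Real.nonempty {u : US} (hu : Real u) : RealP fun n G e => (u n G e).Nonempty := by
  obtain ⟨F, h1, h2⟩ := hu
  refine ⟨fun p => (List.range p.1.length).any fun x => (F p).getD x false,
    PT.any (f := fun (p : In) x => (F p).getD x false) (by fun_prop) (by fun_prop),
    fun n G e => ?_⟩
  simp only [inp_length, range_any, h2, code_getD]
  exact decide_eq_decide.2 (by simp [Set.Nonempty])

theorem RealP.not {p : UP} (hp : RealP p) : RealP fun n G e => ¬p n G e := by
  obtain ⟨F, h1, h2⟩ := hp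
  exact ⟨fun p => !F p, by fun_prop, fun n G e => by simp [h2]⟩

theorem RealP.and {p q : UP} (hp : RealP p) (hq : RealP q) :
    RealP fun n G e => p n G e ∧ q n G e := by
  obtain ⟨F, h1, h2⟩ := hp
  obtain ⟨F', h3, h4⟩ := hq
  exact ⟨fun p => F p && F' p, by fun_prop, fun n G e => by simp [h2, h4]⟩

theorem RealP.or {p q : UP} (hp : RealP p) (hq : RealP q) :
    RealP fun n G e => p n G e ∨ q n G e :=
  (hp.not.and hq.not).not.congr fun _ _ _ => by tauto

theorem RealP.ex {p : UP} (hp : RealP p) : RealP fun n G e => ∃ z, p n G ([{z}] :: e) :=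
  (Real.compr hp).nonempty

theorem RealP.all {p : UP} (hp : RealP p) : RealP fun n G e => ∀ z, p n G ([{z}] :: e) :=
  hp.not.ex.not.congr fun _ _ _ => by simp

theorem Real.subset {u w : US} (hu : Real u) (hw : Real w) :
    RealP fun n G e => u n G e ⊆ w n G e :=
  (hu.diff hw).nonempty.not.congr fun _ _ _ => by
    rw [not_nonempty_iff_eq_empty, Set.sdiff_eq_empty]

theorem Real.disjoint {u w : US} (hu : Real u) (hw : Real w) :
    RealP fun n G e => Disjoint (u n G e) (w n G e) :=
  (hu.inter hw).nonempty.not.congr fun _ _ _ => by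
    rw [not_nonempty_iff_eq_empty, Set.disjoint_iff_inter_eq_empty]

theorem Real.eq {u w : US} (hu : Real u) (hw : Real w) : RealP fun n G e => u n G e = w n G e :=
  ((hu.subset hw).and (hw.subset hu)).congr fun _ _ _ => Subset.antisymm_iff.symm

theorem Real.indep {u : US} (hu : Real u) : RealP fun n G e => G.IsIndepSet (u n G e) :=
  (hu.disjoint hu.oN).congr fun n G e => by
    rw [Set.disjoint_left]
    exact ⟨fun h x hx y hy _ hxy => h hy ⟨x, hx, hxy⟩,
      fun h y hy ⟨x, hx, hxy⟩ => h hx hy hxy.ne hxy⟩

/-- Change of the graph. -/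
theorem Real.restr {a u : US} (ha : Real a) (hu : Real u) :
    Real fun n G e => u n (restr G (a n G e)) e := by
  obtain ⟨F, h1, h2⟩ := ha
  obtain ⟨F', h3, h4⟩ := hu
  have h5 : PT fun p : In => (List.range p.1.length).map fun i => (List.range p.1.length).map
      fun j => (p.1.getD i []).getD j false && ((F p).getD i false && (F p).getD j false) :=
    PT.map (f := fun (p : In) i => (List.range p.1.length).map
      fun j => (p.1.getD i []).getD j false && ((F p).getD i false && (F p).getD j false))
      (PT.map (f := fun (q : In × ℕ) j => (q.1.1.getD q.2 []).getD j false &&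
        ((F q.1).getD q.2 false && (F q.1).getD j false)) (by fun_prop) (by fun_prop))
      (by fun_prop)
  refine ⟨_, h3.comp (h5.prodMk PT.id'.snd), fun n G e => ?_⟩
  rw [← h4]
  congr 1
  refine Prod.ext ?_ rfl
  simp only [inp_length]
  rw [range_map]
  refine List.map_congr_left fun i _ => code_eq fun j => ?_
  simp only [gcode_getD, h2, code_getD]
  rw [Bool.eq_iff_iff]
  simp [H56.restr]

/-! ### Loops -/

theorem Real.foldL {l : UL} {u w : US} (hl : RealL l) (hu : Real u) (hw : Real w) :
    Real fun n G e => (l n G e).foldl (fun X Y => u n G ([X] :: [Y] :: e)) (w n G e) := by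
  obtain ⟨F, h1, h2⟩ := hl
  obtain ⟨F', h3, h4⟩ := hu
  obtain ⟨F'', h5, h6⟩ := hw
  refine ⟨fun p => (F p).foldl (fun x y => nrm p.1.length (F' (p.1, [x] :: [y] :: p.2)))
    (nrm p.1.length (F'' p)), PT.foldl (f := fun (p : In) x y =>
      nrm p.1.length (F' (p.1, [x] :: [y] :: p.2))) (by fun_prop) (by fun_prop) h1
      ⟨3 * Polynomial.X, fun p k => ?_⟩, fun n G e => ?_⟩
  · have : ∀ (t : List Bs) (x : Bs), x.length = p.1.length → (t.foldl (fun x y =>
        nrm p.1.length (F' (p.1, [x] :: [y] :: p.2))) x).length = p.1.length := by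
      intro t
      induction t with
      | nil => exact fun _ h => h
      | cons y t ih => exact fun x _ => ih _ (nrm_length _ _)
    rw [sz_list_bool, this _ _ (nrm_length _ _)]
    have h7 := length_le_sz p.1
    have h8 : sz p = 2 * sz p.1 + 1 + sz p.2 := sz_pair p.1 p.2
    simp only [Polynomial.eval_mul, Polynomial.eval_ofNat, Polynomial.eval_X]
    omega
  · simp only [h2, h6, inp_length, nrm_code]
    generalize w n G e = X
    induction l n G e generalizing X with
    | nil => rfl
    | cons Y t ih =>
      simp only [List.map_cons, List.foldl_cons]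
      rw [← ih]
      congr 1
      exact (congrArg _ (h4 n G ([X] :: [Y] :: e))).trans (nrm_code _)

/-- Iteration, as often as the list `l` is long. -/
theorem Real.iterL {l : UL} {u w : US} (hl : RealL l) (hu : Real u) (hw : Real w) :
    Real fun n G e => (fun X => u n G ([X] :: e))^[(l n G e).length] (w n G e) :=
  (Real.foldL hl (hu.comp (RealE.cons (RealL.var 0) RealE.tail2)) hw).congr fun n G e =>
    List.foldl_const (fun X => u n G ([X] :: e)) _ _

/-- The list of the singletons of the members of a set. -/
def elems (X : Set (Fin n)) : List (Set (Fin n)) := (sings n).filter fun Y => decide (Y ⊆ X)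

theorem elems_length (X : Set (Fin n)) : (elems X).length = X.ncard := by
  rw [elems, sings, List.filter_map, List.length_map, ncard_eq_toFinset_card',
    ← List.toFinset_card_of_nodup ((List.nodup_finRange n).filter _)]
  congr 1
  ext x
  simp

theorem Real.elems {u : US} (hu : Real u) : RealL fun n G e => elems (u n G e) :=
  RealL.sings.filter ((Real.var 0).subset hu.wk)

/-- Iteration `|c|` times. -/
theorem Real.iterC {c u w : US} (hc : Real c) (hu : Real u) (hw : Real w) :
    Real fun n G e => (fun X => u n G ([X] :: e))^[(c n G e).ncard] (w n G e) :=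
  (Real.iterL hc.elems hu hw).congr fun n G e => by rw [elems_length]

/-- Iteration `n` times. -/
theorem Real.iterN {u w : US} (hu : Real u) (hw : Real w) :
    Real fun n G e => (fun X => u n G ([X] :: e))^[n] (w n G e) :=
  (Real.iterL RealL.sings hu hw).congr fun n G e => by simp [sings]

theorem RealL.length_le {l l' : UL} (hl : RealL l) (hl' : RealL l') :
    RealP fun n G e => (l n G e).length ≤ (l' n G e).length := by
  obtain ⟨F, h1, h2⟩ := hl
  obtain ⟨F', h3, h4⟩ := hl'
  exact ⟨fun p => decide ((F p).length ≤ (F' p).length), by fun_prop, fun n G e =>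
    decide_eq_decide.2 (by simp [h2, h4])⟩

theorem Real.ncard_le {u w : US} (hu : Real u) (hw : Real w) :
    RealP fun n G e => (u n G e).ncard ≤ (w n G e).ncard :=
  (hu.elems.length_le hw.elems).congr fun n G e => by rw [elems_length, elems_length]

theorem iter_fix (f : Set (Fin n) → Set (Fin n)) (hf : ∀ A, A ⊆ f A) (A : Set (Fin n)) :
    f (f^[n] A) = f^[n] A := by
  by_contra hne
  have key : ∀ k ≤ n + 1, k ≤ (f^[k] A).ncard := by
    intro k
    induction k with
    | zero => simp
    | succ k ih =>
      intro hk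
      have h1 : f (f^[k] A) ≠ f^[k] A := by
        intro h
        obtain ⟨d, hd⟩ : ∃ d, n = d + k := ⟨n - k, by omega⟩
        apply hne
        have : f^[n] A = f^[k] A := by
          refine (congrArg (fun j => f^[j] A) hd).trans ?_
          simp only [Function.iterate_add_apply, Function.iterate_fixed h]
        rw [this, h]
      rw [Function.iterate_succ_apply']
      have := ncard_lt_ncard (ssubset_of_subset_of_ne (hf _) h1.symm)
      have := ih (by omega)
      omega
  have h1 := key _ le_rfl
  have h2 : (f^[n + 1] A).ncard ≤ n := by simpa using ncard_le_card (f^[n + 1] A)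
  omega

theorem Reach_eq_iter (G : SimpleGraph (Fin n)) (W X : Set (Fin n)) :
    Reach G W X = (fun A => A ∪ (W ∩ cN G A))^[n] (X ∩ W) := by
  refine Subset.antisymm ?_ ?_
  · have h1 := iter_fix (fun A => A ∪ (W ∩ cN G A)) (fun _ => subset_union_left) (X ∩ W)
    have h2 : ∀ k, X ∩ W ⊆ (fun A => A ∪ (W ∩ cN G A))^[k] (X ∩ W) := by
      intro k
      induction k with
      | zero => exact Subset.rfl
      | succ k ih => rw [Function.iterate_succ_apply']; exact ih.trans subset_union_left
    rintro y ⟨x, hx, hx', h⟩
    induction h with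
    | refl => exact h2 n ⟨hx, hx'⟩
    | tail _ h ih => exact h1 ▸ Or.inr ⟨h.2, Or.inr ⟨_, ih, h.1⟩⟩
  · have : ∀ j, (fun A => A ∪ (W ∩ cN G A))^[j] (X ∩ W) ⊆ Reach G W X := by
      intro j
      induction j with
      | zero => exact fun x hx => ⟨x, hx.1, hx.2, .refl⟩
      | succ j ih =>
        rw [Function.iterate_succ_apply']
        rintro y (hy | ⟨hy, hy' | ⟨z, hz, hzy⟩⟩)
        · exact ih hy
        · exact ih hy'
        · obtain ⟨x, h1, h2, h3⟩ := ih hz
          exact ⟨x, h1, h2, h3.tail ⟨hzy, hy⟩⟩
    exact this _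

theorem Real.reach {u x : US} (hu : Real u) (hx : Real x) :
    Real fun n G e => Reach G (u n G e) (x n G e) :=
  (Real.iterN ((Real.var 0).union (hu.wk.inter (Real.var 0).cN)) (hx.inter hu)).congr
    fun n G e => (Reach_eq_iter G (u n G e) (x n G e)).symm

theorem sz_map_le {α β : Type} [N487b59b3 β] (f : α → β) (c : ℕ) (h : ∀ x, sz (f x) ≤ c)
    (l : List α) : sz (l.map f) ≤ l.length * (2 * c + 1) := by
  induction l with
  | nil => simp
  | cons x t ih =>
    have := h x
    simp only [List.map_cons, sz_cons, List.length_cons]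
    nlinarith

/-- Iterated recomputation of a table indexed by the list `k`. -/
theorem RealL.iterMap (m : ℕ) {k w : UL} {u : US} (hk : RealL k) (hu : Real u) (hw : RealL w) :
    RealL fun n G e => (fun L => (k n G e).map fun X => u n G ([X] :: L :: e))^[m * (n + 1)]
      (w n G e) := by
  obtain ⟨F, h1, h2⟩ := hk
  obtain ⟨F', h3, h4⟩ := hu
  obtain ⟨F'', h5, h6⟩ := hw
  obtain ⟨B, hB⟩ := h1.size
  obtain ⟨C, hC⟩ := h5.size
  refine ⟨fun p => (fun L => (F p).map fun x =>
    nrm p.1.length (F' (p.1, [x] :: L :: p.2)))^[m * (p.1.length + 1)] (F'' p),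
    PT.iterate_un (f := fun (p : In) L => (F p).map fun x =>
      nrm p.1.length (F' (p.1, [x] :: L :: p.2)))
      (PT.map (f := fun (q : In × List Bs) x => nrm q.1.1.length (F' (q.1.1, [x] :: q.2 :: q.1.2)))
        (by fun_prop) (by fun_prop)) h5 (by fun_prop)
      ⟨C + B * (6 * Polynomial.X + 1), fun p j _ => ?_⟩, fun n G e => ?_⟩
  · simp only [Polynomial.eval_add, Polynomial.eval_mul, Polynomial.eval_ofNat, Polynomial.eval_X,
      Polynomial.eval_one]
    cases j with
    | zero => exact (hC p).trans (Nat.le_add_right _ _)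
    | succ j =>
      rw [Function.iterate_succ_apply']
      refine (sz_map_le _ (3 * p.1.length) (fun x => by simp [sz_list_bool]) _).trans
        (le_trans (Nat.mul_le_mul ((length_le_sz _).trans (hB p)) ?_) (Nat.le_add_left _ _))
      have h7 := length_le_sz p.1
      have h8 : sz p = 2 * sz p.1 + 1 + sz p.2 := sz_pair p.1 p.2
      omega
  · simp only [h2, h6, inp_length]
    induction m * (n + 1) with
    | zero => rfl
    | succ j ih =>
      rw [Function.iterate_succ_apply', Function.iterate_succ_apply', ih, List.map_map,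
        List.map_map]
      exact List.map_congr_left fun X _ =>
        (congrArg _ (h4 n G ([X] :: _ :: e))).trans (nrm_code _)

/-- Table lookup. -/
def look (k v : List (Set (Fin n))) (X : Set (Fin n)) : Set (Fin n) :=
  (((k.zip v).filter fun q => decide (q.1 = X)).headD (∅, ∅)).2

theorem look_map {k : List (Set (Fin n))} (J : Set (Fin n) → Set (Fin n)) {X : Set (Fin n)}
    (h : X ∈ k) : look k (k.map J) X = J X := by
  induction k with
  | nil => cases h
  | cons Y t ih =>
    by_cases hY : Y = X
    · simp [look, hY]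
    · have := ih ((List.mem_cons.1 h).resolve_left (Ne.symm hY))
      simpa [look, hY] using this

theorem Real.look {k v : UL} {x : US} (hk : RealL k) (hv : RealL v) (hx : Real x) :
    Real fun n G e => look (k n G e) (v n G e) (x n G e) := by
  obtain ⟨F, h1, h2⟩ := hk
  obtain ⟨F', h3, h4⟩ := hv
  obtain ⟨F'', h5, h6⟩ := hx
  have h7 : PT fun p : In => ((F p).zip (F' p)).filter fun q => decide (q.1 = F'' p) :=
    PT.filter (f := fun (p : In) (q : Bs × Bs) => decide (q.1 = F'' p)) (by fun_prop) (by fun_prop)
  refine ⟨fun p => ((((F p).zip (F' p)).filter fun q => decide (q.1 = F'' p)).headD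
    (nrm p.1.length [], nrm p.1.length [])).2, by fun_prop, fun n G e => ?_⟩
  have : nrm n [] = code (∅ : Set (Fin n)) := code_eq fun i => by simp
  simp only [h2, h4, h6, inp_length, this, List.zip_map, List.filter_map, H56.look]
  have e1 : ((fun q : Bs × Bs => decide (q.1 = code (x n G e))) ∘ Prod.map code code) =
      fun q : Set (Fin n) × Set (Fin n) => decide (q.1 = x n G e) :=
    funext fun q => decide_eq_decide.2 ⟨code_inj, congrArg code⟩
  rw [e1]
  exact congrArg Prod.snd (List.headD_map (f := Prod.map code code) (a := (∅, ∅)))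

/-- The weight on codes. -/
def wtB (n : ℕ) (s x : Bs) : ℕ :=
  ((List.range n).map fun i => bif x.getD i false then
    2 ^ n * (n + 1) + (bif s.getD i false then 2 ^ n else 0) + 2 ^ min i n else 0).sum

theorem wtB_code (S X : Set (Fin n)) : wtB n (code S) (code X) = wt S X := by
  rw [wtB, range_map, wt, Fin.sum_univ_def]
  congr 1
  refine List.map_congr_left fun i _ => ?_
  rw [code_getD, code_getD, min_eq_left i.2.le]
  by_cases h1 : i ∈ X <;> by_cases h2 : i ∈ S <;> simp [h1, h2]

theorem Real.wt_le {s x y : US} (hs : Real s) (hx : Real x) (hy : Real y) :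
    RealP fun n G e => wt (s n G e) (x n G e) ≤ wt (s n G e) (y n G e) := by
  obtain ⟨F, h1, h2⟩ := hs
  obtain ⟨F', h3, h4⟩ := hx
  obtain ⟨F'', h5, h6⟩ := hy
  have key : ∀ {A : In → Bs}, PT A → PT fun p : In => wtB p.1.length (F p) (A p) := by
    intro A hA
    unfold wtB
    exact PT.sum (PT.map (f := fun (p : In) i => bif (A p).getD i false then
      2 ^ p.1.length * (p.1.length + 1) + (bif (F p).getD i false then 2 ^ p.1.length else 0) +
        2 ^ min i p.1.length else 0) (by fun_prop) (by fun_prop))
  exact ⟨fun p => decide (wtB p.1.length (F p) (F' p) ≤ wtB p.1.length (F p) (F'' p)),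
    PT.decLe (key h3) (key h5), fun n G e => decide_eq_decide.2 (by
      simp only [inp_length, h2, h4, h6, wtB_code])⟩

end

end Pool.Agent.MP_3ad207_lc.H56
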