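import Pool.Agent.MP_3ad207_lc.H46.Spec
import Pool.Agent.MP_3ad207_lc.H56.SC

/-!
Star case, part A: a centre `c` with a stable set `W` of neighbours; the states `(Y, D)`.
-/

set_option autoImplicit false

namespace Pool.Agent.Ehf

open Set

variable {V : Type*} {G : SimpleGraph V}

theorem anti11 {x y : V} (h1 : x ≠ y) (h2 : ¬G.Adj x y) : Anti G {x} {y} :=
  anti_singleton_singleton.2 ⟨h1, h2⟩

theorem anti1' {x : V} {Y : Set V} (h1 : x ∉ Y) (h2 : ¬Sees G x Y) : Anti G {x} Y :=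
  anti_singleton_left.2 ⟨h1, h2⟩

theorem Anti.at {X Y : Set V} (h : Anti G X Y) {y : V} (hy : y ∈ Y) : Anti G X {y} :=
  h.mono le_rfl (singleton_subset_iff.2 hy)

theorem Anti.at' {X Y : Set V} (h : Anti G X Y) {x : V} (hx : x ∈ X) : Anti G {x} Y :=
  h.mono (singleton_subset_iff.2 hx) le_rfl

theorem Sees.cN {X : Set V} {v : V} (h : Sees G v X) : v ∈ cN G X := Or.inr h

theorem Sees.left {X Y : Set V} {v : V} (h : Sees G v X) : Sees G v (X ∪ Y) :=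
  h.mono subset_union_left

theorem Sees.right {X Y : Set V} {v : V} (h : Sees G v Y) : Sees G v (X ∪ Y) :=
  h.mono subset_union_right

theorem sees1 {x v : V} (h : G.Adj v x) : Sees G v {x} := ⟨x, rfl, h⟩

theorem Conn.add {X : Set V} (hX : Conn G X) {v : V} (h : Sees G v X) : Conn G ({v} ∪ X) :=
  (conn_singleton v).un hX (Touch.of_sees rfl h)

theorem Conn.link {X Y : Set V} (hX : Conn G X) (hY : Conn G Y) {v : V} (h : v ∈ X)
    (h' : Sees G v Y) : Conn G (X ∪ Y) := hX.un hY (Touch.of_sees h h')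

/-- a connected set that touches `F` and is not inside `F` has a vertex outside that sees `F` -/
theorem Conn.exit {E F : Set V} (hE : Conn G E) (h1 : Touch G E F) (h2 : ¬E ⊆ F) :
    ∃ q ∈ E, q ∉ F ∧ Sees G q F := by
  by_contra h
  push Not at h
  obtain ⟨x, hx, hx'⟩ := touch_iff.1 h1
  have hxF : x ∈ F := by
    by_contra hn
    exact h x hx hn (hx'.resolve_left hn)
  refine h2 fun y hy => (hE.rin hx hy).closed hxF fun a b ha e hb => ?_
  by_contra hn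
  exact h b hb hn ⟨a, ha, e.symm⟩

theorem EHF.clq (hG : EHF G) {u v : V} (hne : u ≠ v) (hna : ¬G.Adj u v) {K : Set V}
    (h : ∀ x ∈ K, G.Adj u x ∧ G.Adj v x) : Clq G K := fun x hx y hy hxy =>
  hG.adj_of_common hne hna (h x hx).1 (h x hx).2 (h y hy).1 (h y hy).2 hxy

theorem clq_empty : Clq G ∅ := fun _ h => h.elim

/-- (CENTER) -/
theorem EHF.center (hG : EHF G) {c y v v' : V} {L A A' : Set V} (cy : Anti G {c} {y})
    (cL : Conn G L) (cA : Conn G A) (cA' : Conn G A') (LA : Anti G L A) (LA' : Anti G L A')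
    (AA : Anti G A A') (sL : Sees G c L) (sA : Sees G c A) (sA' : Sees G c A') (yL : Sees G y L)
    (yA : Anti G {y} A) (yA' : Anti G {y} A') (yv : G.Adj y v) (yv' : G.Adj y v')
    (cv : Anti G {c} {v}) (cv' : Anti G {c} {v'}) (vL : Anti G {v} L) (vL' : Anti G {v'} L)
    (n1 : v ∉ A') (n2 : v' ∉ A) (vA : Sees G v A) (vA' : Sees G v' A') :
    Anti G {v} A' ∧ Anti G {v'} A ∧ G.Adj v v' := by
  have key : ∀ x, Anti G {c} {x} → G.Adj y x → Sees G x A → Sees G x A' → False :=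
    fun x cx yx s1 s2 => hG.theta (cx.ne rfl rfl) (cx.not_adj rfl rfl) (cL.add yL) cA cA'
      (yA.union_left LA) (yA'.union_left LA') AA sL.right.cN (sees1 yx.symm).left.cN sA.cN s1.cN
      sA'.cN s2.cN
  have h1 : Anti G {v} A' := anti1' n1 (key v cv yv vA)
  have h2 : Anti G {v'} A := anti1' n2 fun h => key v' cv' yv' h vA'
  refine ⟨h1, h2, ?_⟩
  by_contra h
  have h3 : Anti G {v} {v'} := anti11 (fun e => h1.not_sees rfl (e ▸ vA')) h
  exact hG.theta (cy.ne rfl rfl) (cy.not_adj rfl rfl) cL (cA.add vA) (cA'.add vA')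
    (vL.symm.union_right LA) (vL'.symm.union_right LA')
    ((h3.union_right h1).union_left (h2.symm.union_right AA)) sL.cN yL.cN sA.right.cN
    (sees1 yv).left.cN sA'.right.cN (sees1 yv').left.cN

/-- a centre with a stable set of neighbours -/
structure Ctr (G : SimpleGraph V) (c : V) (W : Set V) : Prop where
  ehf : EHF G
  st : Stable G W
  cw : ∀ w ∈ W, G.Adj c w

namespace Ctr

variable {c : V} {W : Set V} (H : Ctr G c W)
include H

theorem ww {w w' : V} (hw : w ∈ W) (hw' : w' ∈ W) (h : w ≠ w') : Anti G {w} {w'} :=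
  anti11 h (H.st w hw w' hw')

theorem one {x w w' : V} (hx : Anti G {c} {x}) (hw : w ∈ W) (hw' : w' ∈ W) (e : G.Adj w x)
    (e' : G.Adj w' x) : w = w' := by
  by_contra h
  exact H.st w hw w' hw' (H.ehf.adj_of_common (hx.ne rfl rfl) (hx.not_adj rfl rfl) (H.cw w hw)
    e.symm (H.cw w' hw') e'.symm h)

theorem anti {X : Set V} {w : V} (hX : Anti G {c} X) (hw : w ∈ W) (h : ¬Sees G w X) :
    Anti G {w} X := anti1' (fun e => hX.not_adj rfl e (H.cw w hw)) h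

theorem anti_at {x w : V} (hx : Anti G {c} {x}) (hw : w ∈ W) (h : ¬G.Adj w x) :
    Anti G {w} {x} := H.anti hx hw fun e => h (sees_singleton.1 e)

/-- (W2) -/
theorem w2 {X X' : Set V} {w w' : V} (cX : Conn G X) (cX' : Conn G X') (hX : Anti G {c} X)
    (hX' : Anti G {c} X') (a : Anti G X X') (hw : w ∈ W) (hw' : w' ∈ W) (s1 : Sees G w X)
    (s2 : Sees G w X') (s3 : Sees G w' X) (s4 : Sees G w' X') : w = w' := by
  by_contra h
  exact H.ehf.theta h (H.st w hw w' hw') (conn_singleton c) cX cX' hX hX' a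
    (sees1 (H.cw w hw).symm).cN (sees1 (H.cw w' hw').symm).cN s1.cN s3.cN s2.cN s4.cN

theorem ip_odd {X : Set V} {w w' : V} (cX : Conn G X) (hX : Anti G {c} X) (hw : w ∈ W)
    (hw' : w' ∈ W) (h : w ≠ w') (s : Sees G w X) (s' : Sees G w' X) :
    ∃ d, Odd d ∧ IP G w w' d X := by
  obtain ⟨d, hd⟩ := cX.exists_ip_sees s s'
  exact ⟨d, H.ehf.odd_of_sector hd h (H.cw w hw) (H.cw w' hw') hX, hd⟩

/-- (W4) -/
theorem w4 {L₁ L₂ L₃ L₄ : Set V} {w₁ w₂ w₃ w₄ : V} (c1 : Conn G L₁) (c2 : Conn G L₂)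
    (c3 : Conn G L₃) (c4 : Conn G L₄) (h1 : Anti G {c} L₁) (h2 : Anti G {c} L₂)
    (h3 : Anti G {c} L₃) (h4 : Anti G {c} L₄) (a12 : Anti G L₁ L₂) (a13 : Anti G L₁ L₃)
    (a14 : Anti G L₁ L₄) (a23 : Anti G L₂ L₃) (a24 : Anti G L₂ L₄) (a34 : Anti G L₃ L₄)
    (m1 : w₁ ∈ W) (m2 : w₂ ∈ W) (m3 : w₃ ∈ W) (m4 : w₄ ∈ W)
    (s11 : Sees G w₁ L₁) (s12 : Sees G w₁ L₂) (n13 : ¬Sees G w₁ L₃) (n14 : ¬Sees G w₁ L₄)
    (s22 : Sees G w₂ L₂) (s23 : Sees G w₂ L₃) (n21 : ¬Sees G w₂ L₁) (n24 : ¬Sees G w₂ L₄)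
    (s33 : Sees G w₃ L₃) (s34 : Sees G w₃ L₄) (n31 : ¬Sees G w₃ L₁) (n32 : ¬Sees G w₃ L₂)
    (s44 : Sees G w₄ L₄) (s41 : Sees G w₄ L₁) (n42 : ¬Sees G w₄ L₂) (n43 : ¬Sees G w₄ L₃) :
    False := by
  have e41 : w₄ ≠ w₁ := fun e => n14 (e ▸ s44)
  have e12 : w₁ ≠ w₂ := fun e => n21 (e ▸ s11)
  have e32 : w₃ ≠ w₂ := fun e => n32 (e ▸ s22)
  have e43 : w₄ ≠ w₃ := fun e => n43 (e ▸ s33)
  obtain ⟨d1, o1, p1⟩ := H.ip_odd c1 h1 m4 m1 e41 s41 s11
  obtain ⟨d2, o2, p2⟩ := H.ip_odd c2 h2 m1 m2 e12 s12 s22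
  obtain ⟨d3, o3, p3⟩ := H.ip_odd c3 h3 m3 m2 e32 s33 s23
  obtain ⟨d4, o4, p4⟩ := H.ip_odd c4 h4 m4 m3 e43 s44 s34
  have := H.ehf.hole4 a12 a13 a14 a23 a24 a34 (H.anti h3 m1 n13) (H.anti h4 m1 n14)
    (H.anti h1 m2 n21) (H.anti h4 m2 n24) (H.anti h1 m3 n31) (H.anti h2 m3 n32)
    (H.anti h2 m4 n42) (H.anti h3 m4 n43) (H.ww m1 m3 fun e => n31 (e ▸ s11))
    (H.ww m4 m2 fun e => n42 (e ▸ s22)) e41 e12 e32 e43 p1 p2 p3 p4
  rw [Nat.odd_iff] at o1 o2 o3 o4 this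
  omega

end Ctr

/-- A state: `Y = {w₁} ∪ Yo` and a component `D` of `U - N[Y]`. -/
structure St (G : SimpleGraph V) (c w₁ u₁ : V) (W U Yo D : Set V) : Prop extends Ctr G c W where
  w1W : w₁ ∈ W
  cU : Anti G {c} U
  connU : Conn G U
  u1U : u₁ ∈ U
  u1w : G.Adj w₁ u₁
  only : ∀ x ∈ U, G.Adj w₁ x → x = u₁
  clU : ∀ x, Anti G {c} {x} → ¬G.Adj w₁ x → Sees G x U → x ∈ U
  YU : Yo ⊆ U
  hY : Yo = ∅ ∨ (Conn G Yo ∧ u₁ ∈ Yo)
  hD : ∃ d, d ∈ U \ cN G ({w₁} ∪ Yo) ∧ D = comp G (U \ cN G ({w₁} ∪ Yo)) d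

/-- the boundary of `D` in `U` -/
def Bd (G : SimpleGraph V) (U D : Set V) (y : V) : Prop := y ∈ U ∧ y ∉ D ∧ Sees G y D

/-- good whites -/
def Gd (G : SimpleGraph V) (W Yo D : Set V) (w : V) : Prop :=
  w ∈ W ∧ Sees G w D ∧ ¬Sees G w Yo

namespace St

variable {c w₁ u₁ : V} {W U Yo D : Set V} (T : St G c w₁ u₁ W U Yo D)
include T

theorem connD : Conn G D := by
  obtain ⟨d, h, rfl⟩ := T.hD
  exact conn_comp h

theorem DU : D ⊆ U := by
  obtain ⟨d, -, rfl⟩ := T.hD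
  exact (comp_subset _ d).trans sdiff_subset

theorem YD : Anti G ({w₁} ∪ Yo) D := by
  obtain ⟨d, -, rfl⟩ := T.hD
  exact (anti_iff.2 fun x hx => (comp_subset _ d hx).2).symm

theorem wD : Anti G {w₁} D := T.YD.mono subset_union_left le_rfl

theorem oD : Anti G Yo D := T.YD.mono subset_union_right le_rfl

theorem cD : Anti G {c} D := T.cU.mono le_rfl T.DU

theorem co : Anti G {c} Yo := T.cU.mono le_rfl T.YU

theorem closed {x : V} (h1 : x ∈ U) (h2 : Sees G x D) (h3 : x ∉ cN G ({w₁} ∪ Yo)) : x ∈ D := by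
  obtain ⟨d, -, rfl⟩ := T.hD
  exact mem_comp_of_sees ⟨h1, h3⟩ h2

theorem connY : Conn G ({w₁} ∪ Yo) := by
  rcases T.hY with rfl | h
  · simpa using conn_singleton w₁
  · exact h.1.add ⟨_, h.2, T.u1w⟩

theorem cY : Sees G c ({w₁} ∪ Yo) := (sees1 (T.cw _ T.w1W)).left

theorem conncY : Conn G ({c} ∪ ({w₁} ∪ Yo)) := T.connY.add T.cY

theorem u1Y : u₁ ∈ cN G ({w₁} ∪ Yo) := (sees1 T.u1w.symm).left.cN

theorem bdY {y : V} (h : Bd G U D y) : Sees G y ({w₁} ∪ Yo) := by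
  have h1 : y ∈ cN G ({w₁} ∪ Yo) := by
    by_contra hn
    exact h.2.1 (T.closed h.1 h.2.2 hn)
  exact h1.resolve_left fun e => T.YD.not_sees e h.2.2

theorem bdc {y : V} (h : Bd G U D y) : Anti G {c} {y} := T.cU.at h.1

theorem bd_cases {y : V} (h : Bd G U D y) : (Yo = ∅ ∧ y = u₁) ∨
    (Conn G Yo ∧ Sees G w₁ Yo ∧ Sees G y Yo ∧ Anti G {w₁} {y}) := by
  rcases T.hY with e | e
  · refine Or.inl ⟨e, ?_⟩
    have := T.bdY h
    rw [e, union_empty, sees_singleton] at this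
    exact T.only y h.1 this.symm
  · have h1 : ¬G.Adj w₁ y := fun a => T.oD.not_sees (T.only y h.1 a ▸ e.2) h.2.2
    exact Or.inr ⟨e.1, ⟨_, e.2, T.u1w⟩, (sees_union.1 (T.bdY h)).resolve_left
      fun a => h1 (sees_singleton.1 a).symm, T.anti_at (T.bdc h) T.w1W h1⟩

theorem bd_two {y y' : V} (h : Bd G U D y) (h' : Bd G U D y') (hne : y ≠ y') :
    Conn G Yo ∧ Sees G w₁ Yo ∧ Sees G y Yo ∧ Sees G y' Yo ∧ Anti G {w₁} {y} ∧
      Anti G {w₁} {y'} := by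
  rcases T.bd_cases h with a | a <;> rcases T.bd_cases h' with b | b
  · exact (hne (a.2.trans b.2.symm)).elim
  · exact (b.1.nonempty.ne_empty a.1).elim
  · exact (a.1.nonempty.ne_empty b.1).elim
  · exact ⟨a.1, a.2.1, a.2.2.1, b.2.2.1, a.2.2.2, b.2.2.2⟩

theorem u1D : u₁ ∉ D := fun h => T.wD.not_adj rfl h T.u1w

theorem exists_bd : ∃ y, Bd G U D y := by
  obtain ⟨d, hd⟩ := T.connD.nonempty
  exact T.connU.exit (Touch.of_mem (T.DU hd) hd) fun h => T.u1D (h T.u1U)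

theorem gd_ne {w : V} (h : Gd G W Yo D w) : w ≠ w₁ := fun e => T.wD.not_sees rfl (e ▸ h.2.1)

theorem gdw {w : V} (h : Gd G W Yo D w) : Anti G {w} {w₁} := T.ww h.1 T.w1W (T.gd_ne h)

theorem gdo {w : V} (h : Gd G W Yo D w) : Anti G {w} Yo := T.anti T.co h.1 h.2.2

theorem gdY {w : V} (h : Gd G W Yo D w) : Anti G {w} ({w₁} ∪ Yo) :=
  (T.gdw h).union_right (T.gdo h)

/-- (BAD) -/
theorem bad {w w' : V} (h1 : w ∈ W) (h2 : Sees G w D) (h3 : ¬Gd G W Yo D w) (h1' : w' ∈ W)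
    (h2' : Sees G w' D) (h3' : ¬Gd G W Yo D w') : w = w' := by
  have s : Sees G w Yo := by_contra fun h => h3 ⟨h1, h2, h⟩
  have s' : Sees G w' Yo := by_contra fun h => h3' ⟨h1', h2', h⟩
  rcases T.hY with rfl | e
  · obtain ⟨_, h, -⟩ := s
    exact h.elim
  · exact T.w2 e.1 T.connD T.co T.cD T.oD h1 h1' s h2 s' h2'

theorem out_sees {p : V} (h1 : p ∈ U) (h2 : ¬Bd G U D p) (h3 : p ∉ Yo)
    (h4 : p ∈ cN G ({w₁} ∪ Yo)) : Conn G Yo ∧ Sees G p Yo := by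
  have hw : ¬G.Adj w₁ p := fun a => by
    obtain rfl := T.only p h1 a
    obtain ⟨y, hy⟩ := T.exists_bd
    rcases T.hY with e | e
    · rcases T.bd_cases hy with b | b
      exacts [h2 (b.2 ▸ hy), b.1.nonempty.ne_empty e]
    · exact h3 e.2
  have s : Sees G p Yo := by
    rcases h4 with (rfl | h) | h
    · exact (T.cU.not_adj rfl h1 (T.cw _ T.w1W)).elim
    · exact (h3 h).elim
    · exact (sees_union.1 h).resolve_left fun a => hw (sees_singleton.1 a).symm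
  refine ⟨(T.hY.resolve_left ?_).1, s⟩
  rintro rfl
  obtain ⟨_, h, -⟩ := s
  exact h

theorem priv_aux {w p : V} (hw : Gd G W Yo D w) (hev : ∀ y, Bd G U D y → ¬G.Adj w y)
    (hp : p ∈ U) (hpD : p ∉ D) (e : G.Adj w p) :
    ∃ F, Conn G F ∧ Yo ⊆ F ∧ Yo.Nonempty ∧ F ⊆ U ∧ Anti G F D ∧ Sees G w F := by
  have pB : ¬Bd G U D p := fun h => hev p h e
  have aD : ∀ x ∈ U, x ∉ D → ¬Bd G U D x → Anti G {x} D := fun x h1 h2 h3 =>
    anti1' h2 fun s => h3 ⟨h1, h2, s⟩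
  by_cases c1 : p ∈ cN G ({w₁} ∪ Yo)
  · obtain ⟨h1, h2⟩ := T.out_sees hp pB (fun h => hw.2.2 ⟨p, h, e⟩) c1
    exact ⟨_, h1.add h2, subset_union_right, h1.nonempty,
      union_subset (singleton_subset_iff.2 hp) T.YU, (aD p hp hpD pB).union_left T.oD,
      (sees1 e).left⟩
  have cC := conn_comp (G := G) (U := U \ cN G ({w₁} ∪ Yo)) ⟨hp, c1⟩
  have pC := mem_comp_self (G := G) (U := U \ cN G ({w₁} ∪ Yo)) ⟨hp, c1⟩
  have sub := comp_subset (G := G) (U \ cN G ({w₁} ∪ Yo)) p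
  have CD : Anti G (comp G (U \ cN G ({w₁} ∪ Yo)) p) D := by
    obtain ⟨d, -, rfl⟩ := T.hD
    exact comp_anti_of_notMem ⟨hp, c1⟩ hpD
  have CY : Anti G (comp G (U \ cN G ({w₁} ∪ Yo)) p) ({w₁} ∪ Yo) :=
    anti_iff.2 fun x hx => (sub hx).2
  have CU := sub.trans sdiff_subset
  obtain ⟨q, q1, q2, q3⟩ := T.connU.exit (Touch.of_mem hp pC) fun h => (sub (h T.u1U)).2 T.u1Y
  have q4 : q ∈ cN G ({w₁} ∪ Yo) := by
    by_contra hn
    exact q2 (mem_comp_of_sees ⟨q1, hn⟩ q3)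
  have qB : ¬Bd G U D q := fun h => by
    have := T.anti_at (T.bdc h) hw.1 (hev q h)
    exact T.ehf.theta (this.ne rfl rfl) (this.not_adj rfl rfl) T.connD cC T.conncY CD.symm
      (T.cD.union_left T.YD).symm ((T.cU.mono le_rfl CU).symm.union_right CY) hw.2.1.cN h.2.2.cN
      (Or.inr ⟨p, pC, e⟩) q3.cN (sees1 (T.cw w hw.1).symm).left.cN (T.bdY h).right.cN
  obtain ⟨h1, h2⟩ := T.out_sees q1 qB (fun h => CY.symm.not_sees (Or.inr h) q3) q4
  refine ⟨_, (h1.add h2).link cC (Or.inl rfl) q3, subset_union_right.trans subset_union_left,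
    h1.nonempty, union_subset (union_subset (singleton_subset_iff.2 q1) T.YU) CU,
    ((aD q q1 (fun h => anti_iff.1 T.YD.symm q h q4) qB).union_left T.oD).union_left CD,
    Sees.right ⟨p, pC, e⟩⟩

/-- (PRIV) -/
theorem priv {w w' p p' : V} (hw : Gd G W Yo D w) (hev : ∀ y, Bd G U D y → ¬G.Adj w y)
    (hp : p ∈ U) (hpD : p ∉ D) (e : G.Adj w p) (hw' : Gd G W Yo D w')
    (hev' : ∀ y, Bd G U D y → ¬G.Adj w' y) (hp' : p' ∈ U) (hpD' : p' ∉ D) (e' : G.Adj w' p') :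
    w = w' := by
  obtain ⟨F, a1, a2, ⟨x, hx⟩, a4, a5, a6⟩ := T.priv_aux hw hev hp hpD e
  obtain ⟨F', b1, b2, -, b4, b5, b6⟩ := T.priv_aux hw' hev' hp' hpD' e'
  exact T.w2 (a1.un b1 (Touch.of_mem (a2 hx) (b2 hx))) T.connD
    (T.cU.mono le_rfl (union_subset a4 b4)) T.cD (a5.union_left b5) hw.1 hw'.1 a6.left hw.2.1
    b6.right hw'.2.1

/-- the next state -/
theorem next {y : V} (hy : Bd G U D y) {E : Set V} (hE : Conn G E) (ED : E ⊆ D)
    (yE : Anti G {y} E) : ∃ D', St G c w₁ u₁ W U ({y} ∪ Yo) D' ∧ E ⊆ D' ∧ D' ⊂ D := by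
  obtain ⟨e, he⟩ := hE.nonempty
  have aE : Anti G E ({w₁} ∪ ({y} ∪ Yo)) :=
    ((T.wD.mono le_rfl ED).union_left (yE.union_left (T.oD.mono le_rfl ED))).symm
  have sub : E ⊆ U \ cN G ({w₁} ∪ ({y} ∪ Yo)) := fun x hx =>
    ⟨T.DU (ED hx), anti_iff.1 aE x hx⟩
  have T' : St G c w₁ u₁ W U ({y} ∪ Yo) (comp G (U \ cN G ({w₁} ∪ ({y} ∪ Yo))) e) :=
    { T with
      YU := union_subset (singleton_subset_iff.2 hy.1) T.YU
      hY := Or.inr (by
        rcases T.bd_cases hy with ⟨rfl, rfl⟩ | h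
        · exact ⟨by simpa using conn_singleton y, Or.inl rfl⟩
        · exact ⟨h.1.add h.2.2.1, Or.inr (T.hY.resolve_left h.1.nonempty.ne_empty).2⟩)
      hD := ⟨e, sub he, rfl⟩ }
  refine ⟨_, T', hE.subset_comp_of_mem sub he, ?_, fun h => ?_⟩
  · by_contra hn
    obtain ⟨q, q1, q2, q3⟩ := T'.connD.exit (Touch.of_mem (mem_comp_self (sub he)) (ED he)) hn
    exact q2 (T.closed (T'.DU q1) q3 fun h => anti_iff.1 T'.YD.symm q q1
      (cN_mono (union_subset_union_right _ subset_union_right) h))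
  · exact T'.oD.not_sees (Or.inl rfl) (hy.2.2.mono h)

theorem in_or_out {E : Set V} (hE : Conn G E) (cE : Anti G {c} E) (wE : ¬Sees G w₁ E) :
    E ⊆ U ∨ Anti G E U := by
  by_contra h
  rw [not_or, not_anti] at h
  obtain ⟨q, q1, q2, q3⟩ := hE.exit h.2 h.1
  exact q2 (T.clU q (cE.at q1) (fun a => wE ⟨q, q1, a⟩) q3)

end St

end Pool.Agent.Ehf
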