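import Pool.Agent.MP_3ad207_lc.H56.StarA

/-!
Star case, part B: a good white adjacent to the boundary (case a), counting.
-/

set_option autoImplicit false

namespace Pool.Agent.Ehf

open Set

variable {V : Type*} {G : SimpleGraph V}

namespace St

variable {c w₁ u₁ : V} {W U Yo D : Set V} (T : St G c w₁ u₁ W U Yo D)
include T

/-- (a0) -/
theorem a0 {l y w p : V} (hl : Gd G W Yo D l) (hy : Bd G U D y) (ly : G.Adj l y)
    (hw : Gd G W Yo D w) (wl : w ≠ l) (hs : Sees G w (comp G (D \ {x | G.Adj l x}) p)) :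
    Anti G {y} (comp G (D \ {x | G.Adj l x}) p) ∧
      ∀ y' ∈ U, y' ∉ comp G (D \ {x | G.Adj l x}) p →
        Sees G y' (comp G (D \ {x | G.Adj l x}) p) → G.Adj l y' := by
  have hcl : ∀ x ∈ D, x ∉ comp G (D \ {x | G.Adj l x}) p →
      Sees G x (comp G (D \ {x | G.Adj l x}) p) → G.Adj l x := fun x h1 h2 h3 => by
    by_contra hn
    exact h2 (mem_comp_of_sees ⟨h1, hn⟩ h3)
  have sub := comp_subset (G := G) (D \ {x | G.Adj l x}) p
  have cF : Conn G (comp G (D \ {x | G.Adj l x}) p) := by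
    obtain ⟨x, hx, -⟩ := hs
    exact conn_comp hx.1
  generalize comp G (D \ {x | G.Adj l x}) p = F at *
  have FD : F ⊆ D := sub.trans sdiff_subset
  have hG := T.ehf
  have cF' : Anti G {c} F := T.cD.mono le_rfl FD
  have lF : Anti G {l} F := T.anti cF' hl.1 fun ⟨x, h1, h2⟩ => (sub h1).2 h2
  have wl' : Anti G {w} {l} := T.ww hw.1 hl.1 wl
  have YF : Anti G ({w₁} ∪ Yo) F := T.YD.mono le_rfl FD
  have oF : Anti G Yo F := T.oD.mono le_rfl FD
  have cw := T.cw w hw.1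
  have cl := T.cw l hl.1
  have c1 := T.cw w₁ T.w1W
  have cy := T.bdc hy
  have cFw : Conn G ({w} ∪ F) := cF.add hs
  have YFw : Anti G ({w₁} ∪ Yo) ({w} ∪ F) := (T.gdY hw).symm.union_right YF
  have lFw : Anti G {l} ({w} ∪ F) := wl'.symm.union_right lF
  have yF : Anti G {y} F := anti1' (fun h => hy.2.1 (FD h)) fun h =>
    hG.theta (cy.ne rfl rfl) (cy.not_adj rfl rfl) T.connY (conn_singleton l) cFw (T.gdY hl).symm
      YFw lFw T.cY.cN (T.bdY hy).cN (sees1 cl).cN (sees1 ly.symm).cN (sees1 cw).left.cN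
      h.right.cN
  refine ⟨yF, fun y' h1 h2 h3 => ?_⟩
  by_contra ly'
  have hy' : Bd G U D y' := ⟨h1, fun h => ly' (hcl y' h h2 h3), h3.mono FD⟩
  have cy' := T.bdc hy'
  have yy : y ≠ y' := fun e => ly' (e ▸ ly)
  obtain ⟨co, s1, s2, s3, a1, a2⟩ := T.bd_two hy hy' yy
  have ly'' : Anti G {l} {y'} := T.anti_at cy' hl.1 ly'
  have wy : Anti G {w} {y} := T.anti_at cy hw.1 fun e => wl (T.one cy hw.1 hl.1 e ly)
  obtain ⟨x, hx⟩ := cF.nonempty
  obtain ⟨n, f, hf, fY, f0, fn, fP, fQ⟩ := (T.connD.add hy.2.2).exists_min_path (P := {y})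
    (Q := cN G F) ⟨y, Or.inl rfl, rfl⟩ ⟨x, Or.inr (FD hx), Or.inl hx⟩
  obtain rfl : f 0 = y := f0
  have fD : ∀ i, 0 < i → i ≤ n → f i ∈ D := fun i h1 h2 => (fY i h2).resolve_left (fP i h1 h2)
  have n0 : 0 < n := Nat.pos_of_ne_zero fun e => anti_iff.1 yF _ rfl (e ▸ fn)
  have zD := fD n n0 le_rfl
  have zF : f n ∉ F := fun h => fQ (n - 1) (by omega) (Or.inr ⟨_, h, (hf.adj_pred n0 le_rfl).symm⟩)
  have sz : Sees G (f n) F := fn.resolve_left zF
  have lz : G.Adj l (f n) := hcl _ zD zF sz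
  have cz : Anti G {c} {f n} := T.cD.at zD
  have wz : Anti G {w} {f n} := T.anti_at cz hw.1 fun e => wl (T.one cz hw.1 hl.1 e lz)
  have Yz : Anti G ({w₁} ∪ Yo) {f n} := T.YD.at zD
  have zy' : f n ≠ y' := fun e => hy'.2.1 (e ▸ zD)
  have zy : f 0 ≠ f n := hf.ne (by omega) le_rfl n0.ne
  rcases Nat.eq_or_lt_of_le n0 with e | n1
  · have yz : G.Adj (f 0) (f n) := (hf.adj_iff (by omega) le_rfl).2 (by omega)
    exact hG.k4 (B₁ := Yo) (B₂ := F) (B₃ := ∅) (B₄ := {c}) (u₁₂ := y') (u₁₃ := f 0) (u₁₄ := w₁)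
      (u₂₃ := f n) (u₂₄ := w) (u₃₄ := l) oF anti_empty_right T.co.symm anti_empty_right cF'.symm
      anti_empty_left (anti_empty_right.union_right cy'.symm) (yF.union_right cy.symm)
      ((T.wD.mono le_rfl FD).union_right anti_empty_right)
      ((T.oD.at zD).symm.union_right cz.symm) ((T.gdo hw).union_right anti_empty_right)
      ((T.gdo hl).union_right lF) ly''.symm wy.symm (T.wD.at zD)
      ⟨yy.symm, (a2.ne rfl rfl).symm, (a1.ne rfl rfl).symm⟩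
      ⟨zy'.symm, fun e => cy'.not_adj rfl rfl (e ▸ cw), (wz.ne rfl rfl).symm⟩
      ⟨zy, ly.ne', lz.ne'⟩ ⟨(T.gd_ne hw).symm, (T.gd_ne hl).symm, wl⟩
      (Zone.of_sees co s3 s2 s1) (Zone.of_sees cF h3 sz hs)
      (Zone.of_triangle _ yz ly.symm lz.symm)
      (Zone.of_sees (conn_singleton c) (sees1 c1.symm) (sees1 cw.symm) (sees1 cl.symm))
  have yz : ¬G.Adj (f 0) (f n) := hf.not_adj n1 le_rfl
  have cE : Conn G (seg f 1 (n - 1)) := hf.conn_seg (by omega) (by omega)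
  have ED : seg f 1 (n - 1) ⊆ D := seg_subset fun k h1 h2 => fD k h1 (by omega)
  have sF : ∀ a b, b < n → Anti G (seg f a b) F := fun a b hb =>
    anti_iff.2 (by rintro _ ⟨k, -, h, rfl⟩; exact fQ k (by omega))
  have EF := sF 1 (n - 1) (by omega)
  have cE' : Anti G {c} (seg f 1 (n - 1)) := T.cD.mono le_rfl ED
  have YE := T.YD.mono le_rfl ED
  have oE := T.oD.mono le_rfl ED
  have yE : Sees G (f 0) (seg f 1 (n - 1)) :=
    ⟨_, apply_mem_seg le_rfl (by omega), hf.adj_succ n0⟩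
  have zE : Sees G (f n) (seg f 1 (n - 1)) :=
    ⟨_, apply_mem_seg (by omega) le_rfl, hf.adj_pred n0 le_rfl⟩
  have wE : Anti G {w} (seg f 1 (n - 1)) := by
    refine T.anti cE' hw.1 ?_
    rintro ⟨_, ⟨s, k1, k2, rfl⟩, e⟩
    have cs : Anti G {c} {f s} := T.cD.at (fD s k1 (by omega))
    rcases Nat.eq_or_lt_of_le k2 with k3 | k3
    · refine hG.theta (wz.ne rfl rfl) (wz.not_adj rfl rfl) cF (conn_singleton (f s))
        ((conn_singleton c).add (sees1 cl.symm)) (seg_self f s ▸ sF s s (by omega)).symm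
        (lF.union_left cF').symm
        ((T.anti_at cs hl.1 fun a => wl (T.one cs hw.1 hl.1 e a)).union_left cs).symm hs.cN sz.cN
        (sees1 e).cN (sees1 ?_).cN (sees1 cw.symm).right.cN (sees1 lz.symm).left.cN
      exact k3 ▸ hf.adj_pred n0 le_rfl
    · refine wl (T.w2 (cF.add sz) (hf.conn_seg (Nat.zero_le s) (by omega)) (cz.union_right cF')
        (anti1 ?_)
        ((seg_self f n ▸ hf.anti_seg (i := 0) (j := s) (k := n) (by omega) le_rfl).symm.union_left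
          (sF 0 s (by omega)).symm) hw.1 hl.1 hs.right ⟨_, apply_mem_seg (by omega) le_rfl, e⟩
        (sees1 lz).left ⟨_, apply_mem_seg le_rfl (by omega), ly⟩)
      rintro _ ⟨k, -, hk, rfl⟩
      rcases Nat.eq_zero_or_pos k with rfl | k0
      exacts [cy _ rfl _ rfl, T.cD _ rfl _ (fD k k0 (by omega))]
  have EFw : Anti G (seg f 1 (n - 1)) ({w} ∪ F) := wE.symm.union_right EF
  by_cases sE : Sees G y' (seg f 1 (n - 1))
  · by_cases lE : Sees G l (seg f 1 (n - 1))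
    · exact hG.theta (cy'.ne rfl rfl) (cy'.not_adj rfl rfl) T.connY cFw (cE.add lE) YFw
        ((T.gdY hl).symm.union_right YE) (lFw.union_left EFw).symm T.cY.cN (T.bdY hy').cN
        (sees1 cw).left.cN h3.right.cN (sees1 cl).left.cN sE.right.cN
    have lE' := T.anti cE' hl.1 lE
    have b1 : G.Adj (f 0) y' := by
      by_contra hn
      exact hG.theta yy hn co cE ((cFw.add (sees1 cw).left).add (sees1 cl.symm).left) oE
        ((T.gdo hl).union_left (T.co.union_left ((T.gdo hw).union_left oF.symm))).symm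
        (lE'.union_left (cE'.union_left EFw.symm)).symm s2.cN s3.cN yE.cN sE.cN
        (sees1 ly.symm).left.cN h3.right.right.right.cN
    have b2 : G.Adj (f n) y' := by
      by_contra hn
      exact hG.theta zy' hn cF cE (T.conncY.add (sees1 cl.symm).left) EF.symm
        (lF.union_left (cF'.union_left YF)).symm (lE'.union_left (cE'.union_left YE)).symm
        sz.cN h3.cN zE.cN sE.cN (sees1 lz.symm).left.cN (T.bdY hy').right.right.cN
    exact ly' (hG.adj_of_common zy yz ly.symm lz.symm b1 b2 (ly''.ne rfl rfl))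
  have y'E : Anti G {y'} (seg f 1 (n - 1)) := anti1' (fun h => hy'.2.1 (ED h)) sE
  obtain ⟨ρ, hρ⟩ := ((co.add s3).link cF (Or.inl rfl) h3).exists_ip_sees sz.right s2.right.left
  obtain ⟨d1, p1⟩ := cE.exists_ip_sees zE yE
  obtain ⟨d2, p2⟩ := cFw.exists_ip_sees sz.right (sees1 cw).left
  obtain ⟨d3, p3⟩ := T.connY.exists_ip_sees (T.bdY hy) T.cY
  have o1 := hG.odd_of_sector hρ zy.symm lz ly ((ly''.union_right (T.gdo hl)).union_right lF)
  have o2 := hG.odd_of_sector p2 (cz.ne rfl rfl).symm lz cl.symm lFw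
  have o3 := hG.odd_of_sector p3 (cy.ne rfl rfl).symm ly cl.symm (T.gdY hl)
  have o4 := hG.odd_add' hρ p1 zy.symm (fun e => yz e.symm)
    ((y'E.union_left oE).union_left EF.symm)
  have o5 := hG.hole3 EFw YE.symm YFw.symm Yz.symm (wy.symm.union_right yF) cE'
    zy.symm (cz.ne rfl rfl).symm (cy.ne rfl rfl).symm p1 p2 p3
  rw [Nat.odd_iff] at o1 o2 o3 o4 o5
  omega

/-- (a1) at most two event whites -/
theorem a1 {l i j y yi yj : V} (hl : Gd G W Yo D l) (hy : Bd G U D y) (ly : G.Adj l y)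
    (hi : Gd G W Yo D i) (hyi : Bd G U D yi) (iy : G.Adj i yi) (hj : Gd G W Yo D j)
    (hyj : Bd G U D yj) (jy : G.Adj j yj) (il : i ≠ l) (jl : j ≠ l) (ij : i ≠ j) : False := by
  obtain ⟨v, hv, yv⟩ := hy.2.2
  obtain ⟨n, f, hf, fD, f0, ⟨s, hs, sl, e⟩, -, fQ⟩ := T.connD.exists_min_path (P := {v})
    (Q := {x | ∃ s, Gd G W Yo D s ∧ s ≠ l ∧ G.Adj s x}) ⟨v, hv, rfl⟩ (by
      obtain ⟨x, h1, h2⟩ := hi.2.1
      exact ⟨x, h1, i, hi, il, h2⟩)
  obtain rfl : f 0 = v := f0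
  have key : ∀ i yi, Gd G W Yo D i → Bd G U D yi → G.Adj i yi → i ≠ l → s ≠ i → False := by
    intro i yi hi hyi iy il si
    have sub0 : seg f 0 n ⊆ D \ {x | G.Adj i x} := seg_subset fun k _ hk =>
      ⟨fD k hk, fun a => (Nat.lt_or_eq_of_le hk).elim (fun h => fQ k h ⟨i, hi, il, a⟩) fun h =>
        si (T.one (T.cD.at (fD n le_rfl)) hs.1 hi.1 e (h ▸ a))⟩
    have sub : seg f 0 n ⊆ comp G (D \ {x | G.Adj i x}) (f 0) :=
      (hf.conn_seg (Nat.zero_le n) le_rfl).subset_comp_of_mem sub0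
        (apply_mem_seg le_rfl (Nat.zero_le n))
    have := (T.a0 hi hyi iy hs si ⟨_, sub (apply_mem_seg (Nat.zero_le n) le_rfl), e⟩).2 y hy.1
      (fun h => hy.2.1 (comp_subset _ _ h).1) ⟨_, sub (apply_mem_seg le_rfl (Nat.zero_le n)), yv⟩
    exact il (T.one (T.bdc hy) hi.1 hl.1 this ly)
  by_cases c : s = i
  · exact key j yj hj hyj jy jl (c ▸ ij)
  · exact key i yi hi hyi iy il c

end St

/-! ### Counting -/

theorem ncard_le_one_of [Finite V] {P : Set V} (h : ∀ a ∈ P, ∀ b ∈ P, a = b) : P.ncard ≤ 1 :=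
  (ncard_le_one (toFinite P)).2 h

theorem ncard_le_two_of [Finite V] {P : Set V}
    (h : ∀ a ∈ P, ∀ b ∈ P, ∀ c ∈ P, a ≠ b → a ≠ c → b ≠ c → False) : P.ncard ≤ 2 := by
  by_contra hn
  obtain ⟨a, b, c, ha, hb, hc, h1, h2, h3⟩ := (two_lt_ncard_iff (toFinite P)).1 (not_le.1 hn)
  exact h a ha b hb c hc h1 h2 h3

theorem ncard_cover [Finite V] {A B C : Set V} {b c : ℕ} (hB : B.ncard ≤ b) (hC : C.ncard ≤ c)
    (h : ∀ x ∈ A, x ∉ B → x ∈ C) : A.ncard ≤ b + c :=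
  (ncard_le_ncard (t := B ∪ C) fun x hx => or_iff_not_imp_left.2 (h x hx)).trans
    ((ncard_union_le B C).trans (Nat.add_le_add hB hC))

theorem ncard_cover' [Finite V] {A B : Set V} {b c : ℕ} (hB : B.ncard ≤ b)
    (h : (A \ B).ncard ≤ c) : A.ncard ≤ b + c := ncard_cover hB h fun _ h1 h2 => ⟨h1, h2⟩

/-- the members of `M` seen by `E` -/
def seen (G : SimpleGraph V) (M E : Set V) : Set V := {w | w ∈ M ∧ Sees G w E}

/-- four cliques and the neighbourhoods of two whites cut `G - N[c]` into pieces that each miss `r`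
members of `M` -/
def Sep (G : SimpleGraph V) (c : V) (W M : Set V) (r : ℕ) : Prop :=
  ∃ K₁ K₂ K₃ K₄ w w', Clq G K₁ ∧ Clq G K₂ ∧ Clq G K₃ ∧ Clq G K₄ ∧ w ∈ W ∧ w' ∈ W ∧
    ∀ E, Conn G E → Anti G {c} E → Disjoint E K₁ → Disjoint E K₂ → Disjoint E K₃ →
      Disjoint E K₄ → ¬Sees G w E → ¬Sees G w' E → (seen G M E).ncard + r ≤ M.ncard

/-- a big state with `D` minimal -/
structure Big (G : SimpleGraph V) (c w₁ u₁ : V) (W U Yo D M : Set V) (m : ℕ) : Prop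
    extends St G c w₁ u₁ W U Yo D where
  MW : M ⊆ W
  big : {w | w ∈ M ∧ ¬Gd G W Yo D w}.ncard ≤ m
  min : ∀ y, Bd G U D y → ∀ E, Conn G E → E ⊆ D → Anti G {y} E →
    {w | w ∈ M ∧ Gd G W Yo D w ∧ ¬G.Adj w y ∧ Sees G w E}.ncard + m < M.ncard

namespace Big

variable [Finite V] {c w₁ u₁ : V} {W U Yo D M : Set V} {m : ℕ} (T : Big G c w₁ u₁ W U Yo D M m)
include T

theorem outside {E : Set V} (hE : Conn G E) (cE : Anti G {c} E) (h : Anti G E U) :
    (seen G M E).ncard ≤ m + 1 :=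
  ncard_cover' T.big (ncard_le_one_of fun _ ha _ hb =>
    T.w2 hE T.connD cE T.cD (h.mono le_rfl T.DU) (T.MW ha.1.1) (T.MW hb.1.1) ha.1.2
      (by_contra fun h => ha.2 ⟨ha.1.1, fun g => h g.2.1⟩) hb.1.2
      (by_contra fun h => hb.2 ⟨hb.1.1, fun g => h g.2.1⟩))

theorem inside {E : Set V} (ED : E ⊆ D) {k : ℕ}
    (h : {w | w ∈ M ∧ Gd G W Yo D w ∧ Sees G w E}.ncard ≤ k) : (seen G M E).ncard ≤ k + 1 :=
  ncard_cover' h (ncard_le_one_of fun _ ha _ hb =>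
    T.bad (T.MW ha.1.1) (ha.1.2.mono ED) (fun g => ha.2 ⟨ha.1.1, g, ha.1.2⟩) (T.MW hb.1.1)
      (hb.1.2.mono ED) fun g => hb.2 ⟨hb.1.1, g, hb.1.2⟩)

theorem event : {w | Gd G W Yo D w ∧ ∃ y, Bd G U D y ∧ G.Adj w y}.ncard ≤ 2 :=
  ncard_le_two_of fun _ ⟨h1, _, h2, h3⟩ _ ⟨h4, _, h5, h6⟩ _ ⟨h7, _, h8, h9⟩ e1 e2 e3 =>
    T.a1 h1 h2 h3 h4 h5 h6 h7 h8 h9 e1.symm e2.symm e3

/-- a set inside `U` sees few members of `M` through ports outside `D` -/
theorem nonpriv {E : Set V} (EU : E ⊆ U) {k : ℕ}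
    (h : {w | w ∈ M ∧ Gd G W Yo D w ∧ Sees G w (E ∩ D)}.ncard ≤ k) :
    (seen G M E).ncard ≤ m + (2 + (k + 1)) := by
  refine ncard_cover' T.big (ncard_cover' T.event (ncard_cover' h (ncard_le_one_of ?_)))
  rintro a ⟨⟨⟨⟨a1, p, a2, a3⟩, a4⟩, a5⟩, a6⟩ b ⟨⟨⟨⟨b1, q, b2, b3⟩, b4⟩, b5⟩, b6⟩
  have ga : Gd G W Yo D a := by_contra fun h => a4 ⟨a1, h⟩
  have gb : Gd G W Yo D b := by_contra fun h => b4 ⟨b1, h⟩
  exact T.priv ga (fun y h1 h2 => a5 ⟨ga, y, h1, h2⟩) (EU a2)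
    (fun h => a6 ⟨a1, ga, p, ⟨a2, h⟩, a3⟩) a3 gb (fun y h1 h2 => b5 ⟨gb, y, h1, h2⟩) (EU b2)
    (fun h => b6 ⟨b1, gb, q, ⟨b2, h⟩, b3⟩) b3

/-- case (a) -/
theorem caseA {l y : V} (hl : Gd G W Yo D l) (hy : Bd G U D y) (ly : G.Adj l y)
    (hm : 2 * m + 3 ≤ M.ncard) : Sep G c W M m := by
  refine ⟨∅, ∅, ∅, ∅, w₁, l, clq_empty, clq_empty, clq_empty, clq_empty, T.w1W, hl.1,
    fun E hE cE _ _ _ _ s1 s2 => ?_⟩
  rcases T.in_or_out hE cE s1 with EU | h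
  swap
  · have := T.outside hE cE h
    omega
  by_cases hc : ∃ w, Gd G W Yo D w ∧ Sees G w (E ∩ D)
  · obtain ⟨w, hw, p, ⟨pE, pD⟩, e⟩ := hc
    have pl : p ∈ D \ {x | G.Adj l x} := ⟨pD, fun a => s2 ⟨p, pE, a⟩⟩
    obtain ⟨h1, h2⟩ := T.a0 hl hy ly hw (fun a => s2 ⟨p, pE, a ▸ e⟩) ⟨p, mem_comp_self pl, e⟩
    have sub : E ⊆ comp G (D \ {x | G.Adj l x}) p := by
      by_contra hn
      obtain ⟨q, q1, q2, q3⟩ := hE.exit (Touch.of_mem pE (mem_comp_self pl)) hn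
      exact s2 ⟨q, q1, h2 q (EU q1) q2 q3⟩
    have ED : E ⊆ D := sub.trans ((comp_subset _ p).trans sdiff_subset)
    have h3 := T.min y hy E hE ED (h1.mono le_rfl sub)
    have h4 := T.inside ED (ncard_le_ncard
      (t := {w | w ∈ M ∧ Gd G W Yo D w ∧ ¬G.Adj w y ∧ Sees G w E}) fun w h =>
        ⟨h.1, h.2.1, fun a => s2 (T.one (T.bdc hy) h.2.1.1 hl.1 a ly ▸ h.2.2), h.2.2⟩)
    omega
  · have := T.nonpriv EU (k := 0) (le_of_eq ((ncard_eq_zero (toFinite _)).2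
      (eq_empty_of_forall_notMem fun w h => hc ⟨w, h.2⟩)))
    omega

end Big

end Pool.Agent.Ehf
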