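import Pool.Agent.MP_3ad207_lc.H56.StarB

/-!
Star case, part C: no good white is adjacent to the boundary (case b): arms, case B1.
-/

set_option autoImplicit false

namespace Pool.Agent.Ehf

open Set

variable {V : Type*} {G : SimpleGraph V}

/-- a component of `D - N(y)` -/
def Cp (G : SimpleGraph V) (D : Set V) (y : V) (P : Set V) : Prop :=
  ∃ d ∈ D \ {x | G.Adj y x}, P = comp G (D \ {x | G.Adj y x}) d

namespace Cp

variable {D P P' : Set V} {y : V}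

theorem conn (h : Cp G D y P) : Conn G P := by
  obtain ⟨d, h, rfl⟩ := h
  exact conn_comp h

theorem sub (h : Cp G D y P) : P ⊆ D \ {x | G.Adj y x} := by
  obtain ⟨d, -, rfl⟩ := h
  exact comp_subset _ d

theorem subD (h : Cp G D y P) : P ⊆ D := h.sub.trans sdiff_subset

theorem closed (h : Cp G D y P) {x : V} (h1 : x ∈ D) (h2 : x ∉ P) (h3 : Sees G x P) :
    G.Adj y x := by
  obtain ⟨d, -, rfl⟩ := h
  by_contra hn
  exact h2 (mem_comp_of_sees ⟨h1, hn⟩ h3)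

theorem anti (h : Cp G D y P) (h' : Cp G D y P') (hne : P ≠ P') : Anti G P P' := by
  obtain ⟨d, -, rfl⟩ := h
  obtain ⟨d', -, rfl⟩ := h'
  exact comp_anti_of_ne hne

theorem exists_v (h : Cp G D y P) (hD : Conn G D) (hy : Sees G y D) :
    ∃ v ∈ D, G.Adj y v ∧ Sees G v P := by
  obtain ⟨x, hx⟩ := h.conn.nonempty
  obtain ⟨z, hz, e⟩ := hy
  obtain ⟨q, q1, q2, q3⟩ := hD.exit (Touch.of_mem (h.subD hx) hx) fun a => (h.sub (a hz)).2 e
  exact ⟨q, q1, h.closed q1 q2 q3, q3⟩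

end Cp

/-- an arm `(v, P, w)` -/
def Arm (G : SimpleGraph V) (W Yo D : Set V) (y v : V) (P : Set V) (w : V) : Prop :=
  v ∈ D ∧ G.Adj y v ∧ Gd G W Yo D w ∧
    ((P = ∅ ∧ G.Adj w v) ∨ (Cp G D y P ∧ Sees G v P ∧ Sees G w P))

theorem not_sees_empty {x : V} : ¬Sees G x ∅ := fun ⟨_, h, _⟩ => h

namespace Arm

variable {W Yo D P P' : Set V} {y v w v' w' : V}

theorem cp (h : Arm G W Yo D y v P w) {x : V} (hx : Sees G x P) :
    Cp G D y P ∧ Sees G v P ∧ Sees G w P :=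
  h.2.2.2.resolve_left fun a => not_sees_empty (a.1 ▸ hx)

theorem sub (h : Arm G W Yo D y v P w) : P ⊆ D \ {x | G.Adj y x} :=
  h.2.2.2.elim (fun a => a.1 ▸ empty_subset _) fun a => a.1.sub

theorem subD (h : Arm G W Yo D y v P w) : P ⊆ D := h.sub.trans sdiff_subset

theorem conn (h : Arm G W Yo D y v P w) : Conn G ({w} ∪ P) := by
  rcases h.2.2.2 with ⟨rfl, -⟩ | a
  · simpa using conn_singleton w
  · exact a.1.conn.add a.2.2

theorem sees (h : Arm G W Yo D y v P w) : Sees G v ({w} ∪ P) :=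
  h.2.2.2.elim (fun a => (sees1 a.2.symm).left) fun a => a.2.1.right

theorem swap (h : Arm G W Yo D y v P w) (h1 : v' ∈ D) (h2 : G.Adj y v') (h3 : Sees G v' P) :
    Arm G W Yo D y v' P w := ⟨h1, h2, h.2.2.1, Or.inr ⟨(h.cp h3).1, h3, (h.cp h3).2.2⟩⟩

end Arm

/-- case (b) -/
structure StB (G : SimpleGraph V) (c w₁ u₁ : V) (W U Yo D : Set V) (y : V) : Prop
    extends St G c w₁ u₁ W U Yo D where
  hy : Bd G U D y
  nev : ∀ w, Gd G W Yo D w → ∀ y', Bd G U D y' → ¬G.Adj w y'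

namespace StB

variable {c w₁ u₁ y : V} {W U Yo D : Set V} (T : StB G c w₁ u₁ W U Yo D y)
  {P P' : Set V} {v w v' w' : V}
include T

theorem cA (h : Arm G W Yo D y v P w) : Sees G c ({w} ∪ P) := (sees1 (T.cw w h.2.2.1.1)).left

theorem cP (h : Arm G W Yo D y v P w) : Anti G {c} P := T.cD.mono le_rfl h.subD

theorem YA (h : Arm G W Yo D y v P w) : Anti G ({w₁} ∪ Yo) ({w} ∪ P) :=
  (T.gdY h.2.2.1).symm.union_right (T.YD.mono le_rfl h.subD)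

theorem oA (h : Arm G W Yo D y v P w) : Anti G Yo ({w} ∪ P) :=
  (T.YA h).mono subset_union_right le_rfl

theorem bw {y' : V} (hy' : Bd G U D y') (h : Gd G W Yo D w) : Anti G {y'} {w} :=
  (T.anti_at (T.bdc hy') h.1 (T.nev w h y' hy')).symm

theorem yA (h : Arm G W Yo D y v P w) : Anti G {y} ({w} ∪ P) :=
  (T.bw T.hy h.2.2.1).union_right (anti1' (fun a => T.hy.2.1 (h.subD a))
    fun ⟨_, a, e⟩ => (h.sub a).2 e)

theorem vn (h : Arm G W Yo D y v P w) (h' : Arm G W Yo D y v' P' w') : v ∉ {w'} ∪ P' := by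
  rintro (rfl | a)
  exacts [T.cD.not_adj rfl h.1 (T.cw _ h'.2.2.1.1), (h'.sub a).2 h.2.1]

theorem indep (h : Arm G W Yo D y v P w) (h' : Arm G W Yo D y v' P' w') (hne : w ≠ w')
    (n1 : ¬Sees G w P') (n2 : ¬Sees G w' P) : Anti G ({w} ∪ P) ({w'} ∪ P') := by
  refine ((T.ww h.2.2.1.1 h'.2.2.1.1 hne).union_right (T.anti (T.cP h') h.2.2.1.1 n1)).union_left
    ((T.anti (T.cP h) h'.2.2.1.1 n2).symm.union_right ?_)
  rcases h.2.2.2 with ⟨rfl, -⟩ | a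
  · exact anti_empty_left
  rcases h'.2.2.2 with ⟨rfl, -⟩ | b
  · exact anti_empty_right
  exact a.1.anti b.1 fun e => n1 (e ▸ a.2.2)

theorem exists_arm (h : Gd G W Yo D w) : ∃ v P, Arm G W Yo D y v P w := by
  obtain ⟨p, hp, e⟩ := h.2.1
  by_cases c : G.Adj y p
  · exact ⟨p, ∅, hp, c, h, Or.inl ⟨rfl, e⟩⟩
  · have hc : Cp G D y (comp G (D \ {x | G.Adj y x}) p) := ⟨p, ⟨hp, c⟩, rfl⟩
    obtain ⟨v, h1, h2, h3⟩ := hc.exists_v T.connD T.hy.2.2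
    exact ⟨v, _, h1, h2, h, Or.inr ⟨hc, h3, p, mem_comp_self ⟨hp, c⟩, e⟩⟩

theorem t12 (h : Arm G W Yo D y v P w) (h' : Arm G W Yo D y v' P' w')
    (a : Anti G ({w} ∪ P) ({w'} ∪ P')) :
    Anti G {v} ({w'} ∪ P') ∧ Anti G {v'} ({w} ∪ P) ∧ G.Adj v v' :=
  T.ehf.center (T.bdc T.hy) T.connY h.conn h'.conn (T.YA h) (T.YA h') a T.cY (T.cA h) (T.cA h')
    (T.bdY T.hy) (T.yA h) (T.yA h') h.2.1 h'.2.1 (T.cD.at h.1) (T.cD.at h'.1) (T.YD.at h.1).symm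
    (T.YD.at h'.1).symm (T.vn h h') (T.vn h' h) h.sees h'.sees

theorem t3 (h : Arm G W Yo D y v P w) (h' : Arm G W Yo D y v' P' w')
    (a : Anti G ({w} ∪ P) ({w'} ∪ P')) {y' : V} (hy' : Bd G U D y') (s : Sees G y' P) :
    G.Adj v' y' := by
  have cy' := T.bdc hy'
  have b1 : Anti G {y'} ({w'} ∪ P') := (T.bw hy' h'.2.2.1).union_right
    (anti1' (fun e => hy'.2.1 (h'.subD e)) fun e =>
      T.ehf.theta (cy'.ne rfl rfl) (cy'.not_adj rfl rfl) T.connY h.conn h'.conn (T.YA h) (T.YA h')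
        a T.cY.cN (T.bdY hy').cN (T.cA h).cN s.right.cN (T.cA h').cN e.right.cN)
  by_contra hn
  obtain ⟨p1, p2, p3⟩ := h.cp s
  obtain ⟨t1, t2, t3⟩ := T.t12 h h' a
  have yP := (T.yA h).mono le_rfl subset_union_right
  have yy : y ≠ y' := fun e => yP.not_sees rfl (e ▸ s)
  obtain ⟨co, s1, s2, s3, a1, a2⟩ := T.bd_two T.hy hy' yy
  have nD : ∀ x ∈ D, y' ≠ x := fun x hx e => hy'.2.1 (e ▸ hx)
  have yw := T.bw T.hy h.2.2.1
  have vw := t2.mono le_rfl subset_union_left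
  exact T.ehf.k4 (B₁ := Yo) (B₂ := P) (B₃ := ∅) (B₄ := {c} ∪ ({w'} ∪ P')) (u₁₂ := y') (u₁₃ := y)
    (u₁₄ := w₁) (u₂₃ := v) (u₂₄ := w) (u₃₄ := v') (T.oD.mono le_rfl h.subD) anti_empty_right
    (T.co.symm.union_right (T.oA h')) anti_empty_right
    ((T.cP h).symm.union_right (a.mono subset_union_right le_rfl)) anti_empty_left
    (anti_empty_right.union_right (cy'.symm.union_right b1))
    (yP.union_right ((T.bdc T.hy).symm.union_right (T.yA h')))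
    ((T.wD.mono le_rfl h.subD).union_right anti_empty_right)
    ((T.oD.at h.1).symm.union_right ((T.cD.at h.1).symm.union_right t1))
    ((T.gdo h.2.2.1).union_right anti_empty_right)
    ((T.oD.at h'.1).symm.union_right (t2.mono le_rfl subset_union_right))
    (anti11 (nD _ h'.1) fun e => hn e.symm) yw (T.wD.at h.1)
    ⟨yy.symm, (a2.ne rfl rfl).symm, (a1.ne rfl rfl).symm⟩
    ⟨nD _ h.1, (T.bw hy' h.2.2.1).ne rfl rfl, fun e => T.vn h h (Or.inl e)⟩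
    ⟨h.2.1.ne, h'.2.1.ne, t3.ne⟩
    ⟨(T.gd_ne h.2.2.1).symm, (T.wD.at h'.1).ne rfl rfl, (vw.ne rfl rfl).symm⟩
    (Zone.of_sees co s3 s2 s1) (Zone.of_sees p1.conn s p2 p3)
    (Zone.of_triangle _ h.2.1 h'.2.1 t3)
    (Zone.of_sees (h'.conn.add (T.cA h')) (sees1 (T.cw _ T.w1W).symm).left
      (sees1 (T.cw _ h.2.2.1.1).symm).left h'.sees.right)

theorem t4 (h : Arm G W Yo D y v P w) (h' : Arm G W Yo D y v' P' w')
    (a : Anti G ({w} ∪ P) ({w'} ∪ P')) : Clq G {y' | Bd G U D y' ∧ Sees G y' P} := by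
  intro x hx z hz hne
  by_contra hn
  obtain ⟨co, -, s2, s3, -, -⟩ := T.bd_two hx.1 hz.1 hne
  exact T.ehf.theta hne hn (conn_singleton v') co (h.cp hx.2).1.conn (T.oD.at h'.1).symm
    ((T.t12 h h' a).2.1.mono le_rfl subset_union_right) (T.oD.mono le_rfl h.subD)
    (sees1 (T.t3 h h' a hx.1 hx.2).symm).cN (sees1 (T.t3 h h' a hz.1 hz.2).symm).cN s2.cN s3.cN
    hx.2.cN hz.2.cN

end StB

theorem Ctr.share [Finite V] {c : V} {W : Set V} (H : Ctr G c W) {X X' : Set V}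
    (cX : X = ∅ ∨ Conn G X) (cX' : Conn G X') (hX : Anti G {c} X) (hX' : Anti G {c} X')
    (a : Anti G X X') : {w | w ∈ W ∧ Sees G w X ∧ Sees G w X'}.ncard ≤ 1 :=
  ncard_le_one_of fun _ h _ h' =>
    H.w2 (cX.resolve_left fun e => not_sees_empty (e ▸ h.2.1)) cX' hX hX' a h.1 h'.1 h.2.1 h.2.2
      h'.2.1 h'.2.2

theorem Ctr.close [Finite V] {c : V} {W M : Set V} (H : Ctr G c W) (MW : M ⊆ W) {K E : Set V}
    {r : ℕ} (cK : Conn G K) (hK : Anti G {c} K) (h1 : r + 1 ≤ (seen G M K).ncard)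
    (h2 : (seen G M K).ncard + r ≤ M.ncard) (cE : Conn G E) (hE : Anti G {c} E)
    (h : E ⊆ K ∨ Anti G E K) : (seen G M E).ncard + r ≤ M.ncard := by
  rcases h with h | h
  · have := ncard_le_ncard (s := seen G M E) (t := seen G M K) fun w a => ⟨a.1, a.2.mono h⟩
    omega
  · have h3 := ncard_cover (A := seen G M E) (H.share (Or.inr cE) cK hE hK h)
      (le_refl (M \ seen G M K).ncard) fun w a b => ⟨a.1, fun d => b ⟨MW a.1, a.2, d.2⟩⟩
    have h4 := ncard_sdiff_add_ncard_of_subset (s := seen G M K) (t := M) fun _ a => a.1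
    omega

theorem exists_of_ncard_lt [Finite V] {A B : Set V} (h : B.ncard < A.ncard) : ∃ x ∈ A, x ∉ B := by
  by_contra hn
  push Not at hn
  exact absurd (ncard_le_ncard hn) (not_le.2 h)

/-- case B1 -/
theorem caseB1 [Finite V] {c w₁ u₁ y : V} {W U Yo D M D' : Set V} {m r : ℕ}
    (B : Big G c w₁ u₁ W U Yo D M m) (T : StB G c w₁ u₁ W U Yo D y) (hD' : Cp G D y D')
    (hR : r + 3 ≤ {w | w ∈ M ∧ Gd G W Yo D w ∧ Sees G w D'}.ncard) (hr : r + 2 ≤ m) :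
    Sep G c W M r := by
  have hG := T.ehf
  have cD' := hD'.conn
  have cc : Anti G {c} D' := T.cD.mono le_rfl hD'.subD
  have yD' : Anti G {y} D' := anti1' (fun a => T.hy.2.1 (hD'.subD a)) fun ⟨_, a, e⟩ =>
    (hD'.sub a).2 e
  have m1 := B.min y T.hy D' cD' hD'.subD yD'
  have m2 : {w | w ∈ M ∧ Gd G W Yo D w ∧ Sees G w D'}.ncard + m < M.ncard := by
    refine lt_of_le_of_lt (Nat.add_le_add_right (ncard_le_ncard ?_) m) m1
    exact fun w a => ⟨a.1, a.2.1, T.nev w a.2.1 y T.hy, a.2.2⟩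
  have m3 := B.inside hD'.subD le_rfl
  have m4 : {w | w ∈ M ∧ Gd G W Yo D w ∧ Sees G w D'}.ncard ≤ (seen G M D').ncard :=
    ncard_le_ncard fun w a => ⟨a.1, a.2.2⟩
  obtain ⟨w', hw', nw'⟩ : ∃ w', Gd G W Yo D w' ∧ ¬Sees G w' D' := by
    by_contra hn
    push Not at hn
    have := ncard_cover (A := M) B.big (le_refl {w | w ∈ M ∧ Gd G W Yo D w ∧ Sees G w D'}.ncard)
      fun w a b => have g : Gd G W Yo D w := by_contra fun g => b ⟨a, g⟩; ⟨a, g, hn w g⟩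
    omega
  obtain ⟨v', P', h'⟩ := T.exists_arm hw'
  have cP' : P' = ∅ ∨ Conn G P' := h'.2.2.2.imp (·.1) (·.1.conn)
  have PD : Anti G P' D' := by
    rcases h'.2.2.2 with ⟨rfl, -⟩ | a
    exacts [anti_empty_left, a.1.anti hD' fun e => nw' (e ▸ a.2.2)]
  have pick : ∀ F, F = ∅ ∨ Conn G F → Anti G {c} F → Anti G F D' →
      ∃ w, Gd G W Yo D w ∧ Sees G w D' ∧ ¬Sees G w P' ∧ ¬Sees G w F := by
    intro F f1 f2 f3
    by_contra hn
    push Not at hn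
    have := ncard_cover (A := {w | w ∈ M ∧ Gd G W Yo D w ∧ Sees G w D'})
      (T.share cP' cD' (T.cP h') cc PD) (T.share f1 cD' f2 cc f3) fun w a b =>
        ⟨a.2.1.1, hn w a.2.1 a.2.2 fun d => b ⟨a.2.1.1, d, a.2.2⟩, a.2.2⟩
    omega
  have arm : ∀ v ∈ D, G.Adj y v → Sees G v D' → ∀ w, Gd G W Yo D w → Sees G w D' →
      ¬Sees G w P' → Arm G W Yo D y v D' w ∧ Anti G ({w} ∪ D') ({w'} ∪ P') :=
    fun v h1 h2 h3 w h4 h5 h6 =>
      have a : Arm G W Yo D y v D' w := ⟨h1, h2, h4, Or.inr ⟨hD', h3, h5⟩⟩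
      ⟨a, T.indep a h' (fun e => nw' (e ▸ h5)) h6 nw'⟩
  obtain ⟨w, g1, g2, g3, -⟩ := pick ∅ (Or.inl rfl) anti_empty_right anti_empty_left
  have t12 := fun v h1 h2 h3 => T.t12 (arm v h1 h2 h3 w g1 g2 g3).1 h' (arm v h1 h2 h3 w g1 g2 g3).2
  obtain ⟨v₀, z1, z2, z3⟩ := hD'.exists_v T.connD T.hy.2.2
  have k3 := T.t4 (arm v₀ z1 z2 z3 w g1 g2 g3).1 h' (arm v₀ z1 z2 z3 w g1 g2 g3).2
  have v'D' : Anti G {v'} D' := (t12 v₀ z1 z2 z3).2.1.mono le_rfl subset_union_right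
  by_cases hq : Clq G {v | v ∈ D ∧ G.Adj y v ∧ Sees G v D'}
  · refine ⟨_, _, ∅, ∅, w₁, w₁, hq, k3, clq_empty, clq_empty, T.w1W, T.w1W,
      fun E hE cE d1 d2 _ _ s1 _ => T.close B.MW cD' cc (by omega) (by omega) hE cE ?_⟩
    rcases T.in_or_out hE cE s1 with EU | h
    · by_contra hn
      rw [not_or, not_anti] at hn
      obtain ⟨q, q1, q2, q3⟩ := hE.exit hn.2 hn.1
      by_cases qD : q ∈ D
      · exact Set.disjoint_left.1 d1 q1 ⟨qD, hD'.closed qD q2 q3, q3⟩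
      · exact Set.disjoint_left.1 d2 q1 ⟨⟨EU q1, qD, q3.mono hD'.subD⟩, q3⟩
    · exact Or.inr (h.mono le_rfl (hD'.subD.trans T.DU))
  simp only [Clq, not_forall] at hq
  obtain ⟨v, ⟨v1, v2, v3⟩, v'', ⟨x1, x2, x3⟩, vne, vna⟩ := hq
  have k1 : Clq G ({v'} ∪ {u | u ∈ D ∧ G.Adj y u ∧ Sees G u P'}) := hG.clq vne vna (by
    rintro u (rfl | ⟨u1, u2, u3⟩)
    · exact ⟨(t12 v v1 v2 v3).2.2, (t12 v'' x1 x2 x3).2.2⟩
    · exact ⟨(T.t12 (arm v v1 v2 v3 w g1 g2 g3).1 (h'.swap u1 u2 u3)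
        (arm v v1 v2 v3 w g1 g2 g3).2).2.2, (T.t12 (arm v'' x1 x2 x3 w g1 g2 g3).1
        (h'.swap u1 u2 u3) (arm v v1 v2 v3 w g1 g2 g3).2).2.2⟩)
  have k2 := T.t4 h' (arm v v1 v2 v3 w g1 g2 g3).1 (arm v v1 v2 v3 w g1 g2 g3).2.symm
  obtain ⟨O, hO⟩ : ∃ O : Set V, ∀ x, x ∈ O ↔ Anti G {c} {x} ∧ ¬G.Adj w₁ x ∧ ¬G.Adj w' x ∧
      x ∉ {v'} ∪ {u | u ∈ D ∧ G.Adj y u ∧ Sees G u P'} ∧ ¬(Bd G U D x ∧ Sees G x P') ∧
      ¬(Bd G U D x ∧ Sees G x D') := ⟨_, fun _ => Iff.rfl⟩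
  have D'O : D' ⊆ O := fun x hx => (hO x).2 ⟨cc.at hx, T.wD.not_adj rfl (hD'.subD hx),
    fun e => nw' ⟨x, hx, e⟩, by
      rintro (rfl | a)
      exacts [v'D'.notMem rfl hx, (hD'.sub hx).2 a.2.1],
    fun a => a.1.2.1 (hD'.subD hx), fun a => a.1.2.1 (hD'.subD hx)⟩
  obtain ⟨d, hd⟩ := cD'.nonempty
  have cK := conn_comp (G := G) (D'O hd)
  have KO := comp_subset (G := G) O d
  have D'K := cD'.subset_comp_of_mem D'O hd
  have vK : ∀ v ∈ D, G.Adj y v → Sees G v D' → v ∈ comp G O d := fun v h1 h2 h3 =>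
    mem_comp_of_sees ((hO v).2 ⟨T.cD.at h1, T.wD.not_adj rfl h1,
      fun e => (t12 v h1 h2 h3).1.not_adj rfl (Or.inl rfl) e.symm, by
        rintro (rfl | a)
        exacts [(t12 v h1 h2 h3).2.2.ne rfl, (t12 v h1 h2 h3).1.not_sees rfl a.2.2.right],
      fun a => a.1.2.1 h1, fun a => a.1.2.1 h1⟩) (h3.mono D'K)
  have cK' : Anti G {c} (comp G O d) := anti1 fun x hx => ((hO x).1 (KO hx)).1 _ rfl _ rfl
  have KU : comp G O d ⊆ U := (T.in_or_out cK cK' fun ⟨x, a, e⟩ =>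
    ((hO x).1 (KO a)).2.1 e).resolve_right fun a => a.notMem (D'K hd) (T.DU (hD'.subD hd))
  have KA : Anti G (comp G O d) ({w'} ∪ P') := by
    refine (T.anti cK' hw'.1 fun ⟨x, a, e⟩ => ((hO x).1 (KO a)).2.2.1 e).symm.union_right ?_
    by_contra hn
    obtain ⟨q, q1, q2, q3⟩ := cK.exit (not_anti.1 hn) fun a => PD.notMem (a (D'K hd)) hd
    by_cases qD : q ∈ D
    · exact ((hO q).1 (KO q1)).2.2.2.1 (Or.inr ⟨qD, (h'.cp q3).1.closed qD q2 q3, q3⟩)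
    · exact ((hO q).1 (KO q1)).2.2.2.2.1 ⟨⟨KU q1, qD, q3.mono h'.subD⟩, q3⟩
  have v'K : v' ∉ comp G O d := fun a => ((hO _).1 (KO a)).2.2.2.1 (Or.inl rfl)
  obtain ⟨L, hL⟩ : ∃ L : Set V, ∀ q, q ∈ L ↔ q ∈ comp G O d ∧ G.Adj v' q ∧ ∃ w'' ∈ W, ∃ F,
      F ⊆ comp G O d \ {x | G.Adj v' x} ∧ (F = ∅ ∨ Conn G F) ∧ Conn G ({w''} ∪ F) ∧
      Sees G q ({w''} ∪ F) ∧ Anti G F D' ∧ w'' ≠ w' ∧ ¬Sees G w'' D' ∧ ¬Sees G w'' P' ∧
      ¬G.Adj w'' v' := ⟨_, fun _ => Iff.rfl⟩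
  have k4 : Clq G L := hG.clq vne vna (by
    intro q hq
    obtain ⟨q1, q2, w'', q3, F, f1, f2, f3, f4, f5, f6, f7, f8, f9⟩ := (hL q).1 hq
    have FK := f1.trans sdiff_subset
    have cF := cK'.mono le_rfl FK
    obtain ⟨w, g1, g2, g3, g4⟩ := pick F f2 cF f5
    have key : ∀ v ∈ D, G.Adj y v → Sees G v D' → G.Adj v q := fun v h1 h2 h3 => by
      obtain ⟨a1, a2⟩ := arm v h1 h2 h3 w g1 g2 g3
      obtain ⟨-, b2, b3⟩ := T.t12 a1 h' a2
      refine (hG.center (T.cD.at h'.1) h'.conn f3 a1.conn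
        (((T.ww q3 hw'.1 f6).union_right (T.anti (T.cP h') q3 f8)).union_left
          (KA.mono FK le_rfl)).symm a2.symm
        (((T.ww q3 g1.1 fun e => f7 (e ▸ g2)).union_right (T.anti cc q3 f7)).union_left
          ((T.anti cF g1.1 g4).symm.union_right f5))
        (T.cA h') (sees1 (T.cw _ q3)).left (T.cA a1) h'.sees
        ((T.anti_at (T.cD.at h'.1) q3 f9).symm.union_right
          (anti1' (fun a => v'K (FK a)) fun ⟨_, a, e⟩ => (f1 a).2 e))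
        b2 q2 b3.symm (cK'.at q1) (T.cD.at h1) (KA.at' q1) (KA.at' (vK v h1 h2 h3)) ?_ ?_
        f4 a1.sees).2.2.symm
      · rintro (rfl | a)
        exacts [cK'.not_adj rfl q1 (T.cw _ g1.1), v'D'.not_adj rfl a q2]
      · rintro (rfl | a)
        exacts [T.cD.not_adj rfl h1 (T.cw _ q3), (f1 a).2 b3.symm]
    exact ⟨key v v1 v2 v3, key v'' x1 x2 x3⟩)
  have D'L : D' ⊆ O \ L := fun x hx => ⟨D'O hx, fun a => v'D'.not_adj rfl hx ((hL x).1 a).2.1⟩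
  have cJ := conn_comp (G := G) (D'L hd)
  have JO := comp_subset (G := G) (O \ L) d
  have D'J := cD'.subset_comp_of_mem D'L hd
  have JK := cJ.subset_comp_of_mem (JO.trans sdiff_subset) (D'J hd)
  have m5 : (seen G M D').ncard ≤ (seen G M (comp G (O \ L) d)).ncard :=
    ncard_le_ncard fun w a => ⟨a.1, a.2.mono D'J⟩
  have m6 : (seen G M (comp G (O \ L) d)).ncard ≤ (seen G M D').ncard + (1 + 1) := by
    refine ncard_cover' le_rfl (ncard_cover (T.share cP' cK (T.cP h') cK'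
      (KA.mono le_rfl subset_union_right).symm) (C := {w | w ∈ W ∧ G.Adj w v'})
      (ncard_le_one_of fun _ a _ b => T.one (T.cD.at h'.1) a.1 b.1 a.2 b.2) ?_)
    rintro w'' ⟨⟨a1, p, a2, a3⟩, a4⟩ a5
    have n1 : ¬Sees G w'' D' := fun e => a4 ⟨a1, e⟩
    have n2 : ¬Sees G w'' P' := fun e => a5 ⟨B.MW a1, e, p, JK a2, a3⟩
    have n3 : w'' ≠ w' := fun e => ((hO p).1 (JO a2).1).2.2.1 (e ▸ a3)
    refine ⟨B.MW a1, by_contra fun n4 => ?_⟩
    by_cases pv : G.Adj v' p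
    · exact (JO a2).2 ((hL p).2 ⟨JK a2, pv, w'', B.MW a1, ∅, empty_subset _, Or.inl rfl,
        by simpa using conn_singleton w'', (sees1 a3.symm).left, anti_empty_left, n3, n1, n2, n4⟩)
    have pF := mem_comp_self (G := G) (U := comp G O d \ {x | G.Adj v' x}) ⟨JK a2, pv⟩
    have cF := conn_comp (G := G) (U := comp G O d \ {x | G.Adj v' x}) ⟨JK a2, pv⟩
    have sF := comp_subset (G := G) (comp G O d \ {x | G.Adj v' x}) p
    have FD : Anti G (comp G (comp G O d \ {x | G.Adj v' x}) p) D' := by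
      by_contra hn
      obtain ⟨q, q1, q2, q3⟩ := cF.exit (not_anti.1 hn) fun a => n1 ⟨p, a pF, a3⟩
      by_cases qD : q ∈ D
      · exact (sF q1).2 (t12 q qD (hD'.closed qD q2 q3) q3).2.2.symm
      · exact ((hO q).1 (KO (sF q1).1)).2.2.2.2.2 ⟨⟨KU (sF q1).1, qD, q3.mono hD'.subD⟩, q3⟩
    obtain ⟨q, q1, q2, q3⟩ := cJ.exit (Touch.of_mem a2 pF) fun a => FD.notMem (a (D'J hd)) hd
    exact (JO q1).2 ((hL q).2 ⟨JK q1, by_contra fun e => q2 (mem_comp_of_sees ⟨JK q1, e⟩ q3),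
      w'', B.MW a1, _, sF, Or.inr cF, cF.add ⟨p, pF, a3⟩, q3.right, FD, n3, n1, n2, n4⟩)
  refine ⟨_, _, _, L, w₁, w', k1, k2, k3, k4, T.w1W, hw'.1, fun E hE cE d1 d2 d3 d4 s1 s2 =>
    T.close B.MW cJ (cK'.mono le_rfl JK) (by omega) (by omega) hE cE ?_⟩
  by_cases t : Touch G E (comp G (O \ L) d)
  · refine Or.inl (hE.subset_comp ?_ t)
    exact fun x hx => ⟨(hO x).2 ⟨cE.at hx, fun e => s1 ⟨x, hx, e⟩,
      fun e => s2 ⟨x, hx, e⟩, Set.disjoint_left.1 d1 hx, Set.disjoint_left.1 d2 hx,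
      Set.disjoint_left.1 d3 hx⟩, Set.disjoint_left.1 d4 hx⟩
  · exact Or.inr (not_touch.1 t)

end Pool.Agent.Ehf
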