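import Pool.Agent.MP_3ad207_lc.H56.StarC

/-!
Star case, part D: case B2 and the splitting theorem (S2).
-/

set_option autoImplicit false

namespace Pool.Agent.Ehf

open Set

variable {V : Type*} {G : SimpleGraph V}

theorem exists_indeg [Finite V] (r : V → V → Prop) (d : ℕ) {s : Set V} (hne : s.Nonempty)
    (h : ∀ a ∈ s, {b | b ∈ s ∧ r a b}.ncard ≤ d) : ∃ b ∈ s, {a | a ∈ s ∧ r a b}.ncard ≤ d := by
  classical
  by_contra hn
  push Not at hn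
  obtain ⟨S, rfl⟩ := (toFinite s).exists_finset_coe
  have e : ∀ p : V → Prop, {b | b ∈ (S : Set V) ∧ p b}.ncard = (S.filter p).card := fun p => by
    rw [← ncard_coe_finset, Finset.coe_filter]; rfl
  have := Finset.card_mul_le_card_mul (fun a b => r b a) (s := S) (t := S) (m := d + 1) (n := d)
    (fun a ha => by have := hn a ha; rw [e] at this; exact this)
    fun b hb => by have := h b hb; rw [e] at this; exact this
  have h0 : 0 < S.card := Finset.card_pos.2 (Finset.coe_nonempty.1 hne)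
  have := Nat.le_of_mul_le_mul_left this h0
  omega

theorem exists_indep [Finite V] (r : V → V → Prop) (d t : ℕ) : ∀ s : Set V,
    (∀ a ∈ s, {b | b ∈ s ∧ r a b}.ncard ≤ d) → t * (2 * d + 1) ≤ s.ncard →
    ∃ J ⊆ s, J.ncard = t ∧ ∀ a ∈ J, ∀ b ∈ J, a ≠ b → ¬r a b := by
  induction t with
  | zero => exact fun s _ _ => ⟨∅, empty_subset _, ncard_empty _, fun _ h => h.elim⟩
  | succ t ih =>
    intro s h hs
    rw [Nat.succ_mul] at hs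
    obtain ⟨x, hx, h1⟩ := exists_indeg r d (nonempty_of_ncard_ne_zero (by omega)) h
    have h2 := ncard_cover' (A := s) (ncard_singleton x).le (ncard_cover' (h x hx)
      (ncard_cover' h1 le_rfl))
    obtain ⟨J, j1, j2, j3⟩ := ih (((s \ {x}) \ {b | b ∈ s ∧ r x b}) \ {a | a ∈ s ∧ r a x})
      (fun a ha => (ncard_le_ncard fun b hb => by exact ⟨hb.1.1.1.1, hb.2⟩).trans (h a ha.1.1.1))
      (by omega)
    refine ⟨insert x J, insert_subset hx fun a ha => (j1 ha).1.1.1, ?_, ?_⟩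
    · rw [ncard_insert_of_notMem fun a => (j1 a).1.1.2 rfl, j2]
    · rintro a (rfl | ha) b (rfl | hb) hab
      exacts [(hab rfl).elim, fun e => (j1 hb).1.2 ⟨(j1 hb).1.1.1, e⟩,
        fun e => (j1 ha).2 ⟨(j1 ha).1.1.1, e⟩, j3 a ha b hb hab]

namespace StB

variable {c w₁ u₁ y : V} {W U Yo D : Set V} (T : StB G c w₁ u₁ W U Yo D y)
include T

/-- the arms whose component sees a fixed white -/
theorem lam {z : V} (hz : z ∈ W) : ∃ L F, Clq G L ∧ (F = ∅ ∨ Cp G D y F) ∧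
    ∀ u P w, Arm G W Yo D y u P w → Sees G z P → w ≠ z → u ∈ L ∨ P = F := by
  have key : ∀ u P w u' P' w', Arm G W Yo D y u P w → Sees G z P → w ≠ z →
      Arm G W Yo D y u' P' w' → Sees G z P' → w' ≠ z → P ≠ P' → G.Adj u u' := by
    intro u P w u' P' w' h s n h' s' n' hne
    obtain ⟨a1, -, a3⟩ := h.cp s
    obtain ⟨b1, -, b3⟩ := h'.cp s'
    have w2 := fun x hx => T.w2 (w := x) a1.conn b1.conn (T.cP h) (T.cP h') (a1.anti b1 hne) hx hz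
    have n1 : ¬Sees G w P' := fun e => n (w2 w h.2.2.1.1 a3 e s s')
    exact (T.t12 h h' (T.indep h h' (fun e => n1 (e ▸ b3)) n1
      fun e => n' (w2 w' h'.2.2.1.1 e b3 s s'))).2.2
  by_cases hq : Clq G {u | ∃ P w, Arm G W Yo D y u P w ∧ Sees G z P ∧ w ≠ z}
  · exact ⟨_, ∅, hq, Or.inl rfl, fun u P w h s n => Or.inl ⟨P, w, h, s, n⟩⟩
  simp only [Clq, not_forall] at hq
  obtain ⟨a, ⟨P, w, h, s, n⟩, b, ⟨P', w', h', s', n'⟩, hne, hna⟩ := hq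
  obtain rfl : P = P' := by_contra fun e => hna (key _ _ _ _ _ _ h s n h' s' n' e)
  refine ⟨{u | ∃ Q w, Arm G W Yo D y u Q w ∧ Sees G z Q ∧ w ≠ z ∧ Q ≠ P}, P,
    T.ehf.clq hne hna ?_, Or.inr (h.cp s).1, fun u Q x a1 a2 a3 => ?_⟩
  · rintro u ⟨Q, x, a1, a2, a3, a4⟩
    exact ⟨key _ _ _ _ _ _ h s n a1 a2 a3 a4.symm, key _ _ _ _ _ _ h' s' n' a1 a2 a3 a4.symm⟩
  · by_cases e : Q = P
    exacts [Or.inr e, Or.inl ⟨Q, x, a1, a2, a3, e⟩]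

theorem lams [Finite V] {M : Set V} {R : ℕ}
    (few : ∀ P, P = ∅ ∨ Cp G D y P → {w | w ∈ M ∧ Gd G W Yo D w ∧ Sees G w P}.ncard ≤ R) :
    ∃ L₀ L₁ L₂, Clq G L₀ ∧ Clq G L₁ ∧ Clq G L₂ ∧ {w | w ∈ M ∧ ∃ u P, Arm G W Yo D y u P w ∧
      u ∉ L₀ ∧ u ∉ L₁ ∧ u ∉ L₂}.ncard ≤ 1 + (1 + (R + (R + (R + R)))) := by
  by_cases hq : Clq G {u | ∃ P w, Arm G W Yo D y u P w}
  · refine ⟨_, ∅, ∅, hq, clq_empty, clq_empty, le_trans (le_of_eq ?_) (Nat.zero_le _)⟩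
    exact (ncard_eq_zero (toFinite _)).2 (eq_empty_of_forall_notMem
      fun w ⟨_, u, P, h, h1, _⟩ => h1 ⟨P, w, h⟩)
  simp only [Clq, not_forall] at hq
  obtain ⟨a, ⟨P, w, h⟩, b, ⟨P', w', h'⟩, hne, hna⟩ := hq
  obtain ⟨L₁, F₁, k1, f1, l1⟩ := T.lam h.2.2.1.1
  obtain ⟨L₂, F₂, k2, f2, l2⟩ := T.lam h'.2.2.1.1
  refine ⟨{u | ∃ Q x, Arm G W Yo D y u Q x ∧ Anti G ({w} ∪ P) ({x} ∪ Q) ∧
    Anti G ({w'} ∪ P') ({x} ∪ Q)}, L₁, L₂, T.ehf.clq hne hna ?_, k1, k2, ?_⟩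
  · rintro u ⟨Q, x, a1, a2, a3⟩
    exact ⟨(T.t12 h a1 a2).2.2, (T.t12 h' a1 a3).2.2⟩
  refine ncard_cover' (ncard_singleton w).le (ncard_cover' (ncard_singleton w').le
    (ncard_cover' (few P (h.2.2.2.imp (·.1) (·.1))) (ncard_cover' (few P' (h'.2.2.2.imp (·.1) (·.1)))
      (ncard_cover (few F₁ f1) (few F₂ f2) ?_))))
  rintro x ⟨⟨⟨⟨⟨x1, u, Q, a, n0, n1, n2⟩, x2⟩, x3⟩, x4⟩, x5⟩ x6
  have g := a.2.2.1
  have s1 : ¬Sees G w Q := fun e =>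
    x6 ⟨x1, g, (l1 u Q x a e x2).resolve_left n1 ▸ (a.cp e).2.2⟩
  by_contra x7
  have s2 : ¬Sees G w' Q := fun e =>
    x7 ⟨x1, g, (l2 u Q x a e x3).resolve_left n2 ▸ (a.cp e).2.2⟩
  exact n0 ⟨Q, x, a, T.indep h a (Ne.symm x2) s1 fun e => x4 ⟨x1, g, e⟩,
    T.indep h' a (Ne.symm x3) s2 fun e => x5 ⟨x1, g, e⟩⟩

theorem bstar [Finite V] {M : Set V} {R : ℕ}
    (few : ∀ P, P = ∅ ∨ Cp G D y P → {w | w ∈ M ∧ Gd G W Yo D w ∧ Sees G w P}.ncard ≤ R)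
    (hN : 3 * (2 * R + 5) * (2 * R + 1) ≤ {w | w ∈ M ∧ Gd G W Yo D w}.ncard) :
    ∃ Fat : Set V, Fat.ncard ≤ 2 ∧ Clq G {y' | Bd G U D y' ∧
      ∃ v P w, Arm G W Yo D y v P w ∧ w ∉ Fat ∧ Sees G y' P} := by
  have := fun w (h : Gd G W Yo D w) => T.exists_arm h
  choose! av aP ha using this
  obtain ⟨J, j1, j2, j3⟩ := exists_indep (fun a b => Sees G b (aP a)) R (3 * (2 * R + 5))
    {w | w ∈ M ∧ Gd G W Yo D w} (fun a h => (ncard_le_ncard fun b hb => by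
      exact ⟨hb.1.1, hb.1.2, hb.2⟩).trans (few _ ((ha a h.2).2.2.2.imp (·.1) (·.1)))) hN
  have hJ := fun j (h : j ∈ J) => ha j (j1 h).2
  refine ⟨{w | w ∈ W ∧ 2 * R + 7 ≤ {j | j ∈ J ∧ Sees G w (aP j)}.ncard}, ?_, ?_⟩
  · have two : ∀ a ∈ W, ∀ b ∈ W, a ≠ b → ({j | j ∈ J ∧ Sees G a (aP j)} ∩
        {j | j ∈ J ∧ Sees G b (aP j)}).ncard ≤ 1 := fun a a1 b b1 hab =>
      ncard_le_one_of fun i hi j hj => by
        by_contra hij
        have p1 := hJ i hi.1.1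
        have p2 := hJ j hj.1.1
        exact hab (T.w2 (p1.cp hi.1.2).1.conn (p2.cp hj.1.2).1.conn (T.cP p1) (T.cP p2)
          ((T.indep p1 p2 hij (j3 j hj.1.1 i hi.1.1 (Ne.symm hij)) (j3 i hi.1.1 j hj.1.1 hij)).mono
            subset_union_right subset_union_right) a1 b1 hi.1.2 hj.1.2 hi.2.2 hj.2.2)
    refine ncard_le_two_of fun a a1 b b1 e e1 ab ae be => ?_
    have q1 := two a a1.1 b b1.1 ab
    have q2 := two a a1.1 e e1.1 ae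
    have q3 := two b b1.1 e e1.1 be
    have a2 := a1.2
    have b2 := b1.2
    have e2 := e1.2
    have q4 := ncard_union_add_ncard_inter {j | j ∈ J ∧ Sees G a (aP j)}
      {j | j ∈ J ∧ Sees G b (aP j)}
    have q5 := ncard_union_add_ncard_inter ({j | j ∈ J ∧ Sees G a (aP j)} ∪
      {j | j ∈ J ∧ Sees G b (aP j)}) {j | j ∈ J ∧ Sees G e (aP j)}
    have q6 := ncard_union_le ({j | j ∈ J ∧ Sees G a (aP j)} ∩ {j | j ∈ J ∧ Sees G e (aP j)})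
      ({j | j ∈ J ∧ Sees G b (aP j)} ∩ {j | j ∈ J ∧ Sees G e (aP j)})
    rw [← union_inter_distrib_right] at q6
    have q7 := ncard_le_ncard (s := {j | j ∈ J ∧ Sees G a (aP j)} ∪
      {j | j ∈ J ∧ Sees G b (aP j)} ∪ {j | j ∈ J ∧ Sees G e (aP j)}) (t := J) (by
        rintro j ((h | h) | h) <;> exact h.1)
    omega
  rintro x ⟨hx, v, P, w, h, nf, s⟩ z ⟨hz, v', P', w', h', nf', s'⟩ hne
  by_contra hn
  have dep : ∀ v P w, Arm G W Yo D y v P w →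
      w ∉ {w | w ∈ W ∧ 2 * R + 7 ≤ {j | j ∈ J ∧ Sees G w (aP j)}.ncard} →
      {j | j ∈ J ∧ ¬Anti G ({w} ∪ P) ({j} ∪ aP j)}.ncard ≤ 1 + (R + (2 * R + 6)) := by
    intro v P w h nf
    refine ncard_cover' (ncard_singleton w).le (ncard_cover (few P (h.2.2.2.imp (·.1) (·.1)))
      (C := {j | j ∈ J ∧ Sees G w (aP j)}) (Nat.le_of_lt_succ (not_le.1 fun e =>
        nf ⟨h.2.2.1.1, e⟩)) ?_)
    rintro j ⟨⟨a1, a2⟩, a3⟩ a4
    exact ⟨a1, by_contra fun e => a2 (T.indep h (hJ j a1) (Ne.symm a3) e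
      fun e' => a4 ⟨(j1 a1).1, (j1 a1).2, e'⟩)⟩
  obtain ⟨j, b1, b2⟩ := exists_of_ncard_lt (A := J) (lt_of_le_of_lt (ncard_union_le
    {j | j ∈ J ∧ ¬Anti G ({w} ∪ P) ({j} ∪ aP j)} {j | j ∈ J ∧ ¬Anti G ({w'} ∪ P') ({j} ∪ aP j)})
    (by have := dep v P w h nf; have := dep v' P' w' h' nf'; omega))
  have i1 : Anti G ({w} ∪ P) ({j} ∪ aP j) := by_contra fun e => b2 (Or.inl ⟨b1, e⟩)
  have i2 : Anti G ({w'} ∪ P') ({j} ∪ aP j) := by_contra fun e => b2 (Or.inr ⟨b1, e⟩)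
  have p := hJ j b1
  obtain ⟨co, -, s2, s3, -, -⟩ := T.bd_two hx hz hne
  exact T.ehf.theta hne hn (conn_singleton (av j)) co
    ((h.conn.add (T.cA h)).link h'.conn (Or.inl rfl) (T.cA h')) (T.oD.at p.1).symm
    (((T.cD.at p.1).symm.union_right (T.t12 h p i1).2.1).union_right (T.t12 h' p i2).2.1)
    ((T.co.symm.union_right (T.oA h)).union_right (T.oA h'))
    (sees1 (T.t3 h p i1 hx s).symm).cN (sees1 (T.t3 h' p i2 hz s').symm).cN s2.cN s3.cN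
    s.right.right.left.cN s'.right.right.cN

end StB

/-- case B2 -/
theorem caseB2 [Finite V] {c w₁ u₁ y : V} {W U Yo D M : Set V} {m r R : ℕ}
    (B : Big G c w₁ u₁ W U Yo D M m) (T : StB G c w₁ u₁ W U Yo D y)
    (few : ∀ P, Cp G D y P → {w | w ∈ M ∧ Gd G W Yo D w ∧ Sees G w P}.ncard ≤ R)
    (h1 : m + 3 * (2 * R + 5) * (2 * R + 1) ≤ M.ncard) (h2 : m + 4 * R + 7 + r ≤ M.ncard) :
    Sep G c W M r := by
  have few' : ∀ P, P = ∅ ∨ Cp G D y P →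
      {w | w ∈ M ∧ Gd G W Yo D w ∧ Sees G w P}.ncard ≤ R := by
    rintro P (rfl | h)
    · simp [not_sees_empty]
    · exact few P h
  obtain ⟨L₀, L₁, L₂, k0, k1, k2, hL⟩ := T.lams few'
  obtain ⟨Fat, hF, k3⟩ := T.bstar few' (by
    have := ncard_cover (A := M) B.big (le_refl {w | w ∈ M ∧ Gd G W Yo D w}.ncard)
      fun w a b => ⟨a, by_contra fun g => b ⟨a, g⟩⟩
    omega)
  refine ⟨_, _, _, _, w₁, w₁, k0, k1, k2, k3, T.w1W, T.w1W, fun E hE cE d0 d1 d2 d3 s1 _ => ?_⟩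
  rcases T.in_or_out hE cE s1 with EU | h
  swap
  · have := B.outside hE cE h
    omega
  by_cases hc : ∃ P, Cp G D y P ∧ E ⊆ P
  · obtain ⟨P, p1, p2⟩ := hc
    have := B.inside (p2.trans p1.subD) ((ncard_le_ncard fun w a => by
      exact ⟨a.1, a.2.1, a.2.2.mono p2⟩).trans (few P p1))
    omega
  have := B.nonpriv EU (ncard_cover hF hL (by
    rintro w ⟨a1, a2, p, ⟨pE, pD⟩, e⟩ nf
    have fin : ∀ u ∈ E, ∀ P, Arm G W Yo D y u P w → w ∈ {w | w ∈ M ∧ ∃ u P,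
        Arm G W Yo D y u P w ∧ u ∉ L₀ ∧ u ∉ L₁ ∧ u ∉ L₂} := fun u hu P a =>
      ⟨a1, u, P, a, Set.disjoint_left.1 d0 hu, Set.disjoint_left.1 d1 hu, Set.disjoint_left.1 d2 hu⟩
    by_cases py : G.Adj y p
    · exact fin p pE ∅ ⟨pD, py, a2, Or.inl ⟨rfl, e⟩⟩
    have hP : Cp G D y (comp G (D \ {x | G.Adj y x}) p) := ⟨p, ⟨pD, py⟩, rfl⟩
    have pP := mem_comp_self (G := G) (U := D \ {x | G.Adj y x}) ⟨pD, py⟩
    obtain ⟨q, q1, q2, q3⟩ := hE.exit (Touch.of_mem pE pP) fun a => hc ⟨_, hP, a⟩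
    by_cases qD : q ∈ D
    · exact fin q q1 _ ⟨qD, hP.closed qD q2 q3, a2, Or.inr ⟨hP, q3, p, pP, e⟩⟩
    · obtain ⟨v, v1, v2, v3⟩ := hP.exists_v T.connD T.hy.2.2
      exact (Set.disjoint_left.1 d3 q1 ⟨⟨EU q1, qD, q3.mono hP.subD⟩, v, _, w,
        ⟨v1, v2, a2, Or.inr ⟨hP, v3, p, pP, e⟩⟩, nf, q3⟩).elim))
  omega

theorem Sep.mono {c : V} {W M : Set V} {r r' : ℕ} (h : Sep G c W M r) (hr : r' ≤ r) :
    Sep G c W M r' := by
  obtain ⟨K₁, K₂, K₃, K₄, w, w', a1, a2, a3, a4, a5, a6, h⟩ := h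
  exact ⟨K₁, K₂, K₃, K₄, w, w', a1, a2, a3, a4, a5, a6, fun E b1 b2 b3 b4 b5 b6 b7 b8 =>
    le_trans (Nat.add_le_add_left hr _) (h E b1 b2 b3 b4 b5 b6 b7 b8)⟩

theorem St.exists_big [Finite V] {c w₁ u₁ : V} {W U M : Set V} {m : ℕ} (MW : M ⊆ W) (k : ℕ) :
    ∀ Yo D, St G c w₁ u₁ W U Yo D → {w | w ∈ M ∧ ¬Gd G W Yo D w}.ncard ≤ m → D.ncard ≤ k →
      ∃ Yo D, Big G c w₁ u₁ W U Yo D M m := by
  induction k with
  | zero =>
    intro Yo D T _ h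
    exact absurd ((ncard_pos (toFinite D)).2 T.connD.nonempty) (by omega)
  | succ k ih =>
    intro Yo D T hb h
    by_cases hm : ∀ y, Bd G U D y → ∀ E, Conn G E → E ⊆ D → Anti G {y} E →
      {w | w ∈ M ∧ Gd G W Yo D w ∧ ¬G.Adj w y ∧ Sees G w E}.ncard + m < M.ncard
    · exact ⟨Yo, D, T, MW, hb, hm⟩
    push Not at hm
    obtain ⟨y, hy, E, e1, e2, e3, e4⟩ := hm
    obtain ⟨D', T', d1, d2⟩ := T.next hy e1 e2 e3
    have h1 := ncard_lt_ncard d2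
    have h2 := ncard_sdiff_add_ncard_of_subset
      (s := {w | w ∈ M ∧ Gd G W Yo D w ∧ ¬G.Adj w y ∧ Sees G w E}) (t := M) fun _ a => a.1
    have h3 := ncard_le_ncard (s := {w | w ∈ M ∧ ¬Gd G W ({y} ∪ Yo) D' w})
      (t := M \ {w | w ∈ M ∧ Gd G W Yo D w ∧ ¬G.Adj w y ∧ Sees G w E}) fun w a =>
        ⟨a.1, fun b => a.2 ⟨b.2.1.1, b.2.2.2.mono d1, fun e => (sees_union.1 e).elim
          (fun e => b.2.2.1 (sees_singleton.1 e)) b.2.1.2.2⟩⟩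
    exact ih _ D' T' (by omega) (by omega)

/-- the bound in (S2) -/
def sepN (r : ℕ) : ℕ := 3 * (2 * (r + 2) + 5) * (2 * (r + 2) + 1) + 6 * r + 20

/-- (S2) -/
theorem Ctr.sep [Finite V] {c : V} {W M : Set V} (H : Ctr G c W) (MW : M ⊆ W) {r : ℕ}
    (hN : sepN r ≤ M.ncard) : Sep G c W M r := by
  unfold sepN at hN
  have triv : ∀ w ∈ W, (∀ E, Conn G E → Anti G {c} E → ¬Sees G w E →
      (seen G M E).ncard + r ≤ M.ncard) → Sep G c W M r := fun w hw h =>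
    ⟨∅, ∅, ∅, ∅, w, w, clq_empty, clq_empty, clq_empty, clq_empty, hw, hw,
      fun E b1 b2 _ _ _ _ b7 _ => h E b1 b2 b7⟩
  obtain ⟨w₀, hw₀⟩ : M.Nonempty := nonempty_of_ncard_ne_zero (by omega)
  by_contra hn
  have step := fun w hw => mt (triv w hw) hn
  push Not at step
  obtain ⟨K, k1, k2, -, k4⟩ := step w₀ (MW hw₀)
  obtain ⟨w₁, m1, p, pK, pw⟩ : (seen G M K).Nonempty := nonempty_of_ncard_ne_zero (by omega)
  obtain ⟨E, e1, e2, e3, e4⟩ := step w₁ (MW m1)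
  obtain ⟨e, he⟩ := e1.nonempty
  have EO : E ⊆ {x | Anti G {c} {x} ∧ ¬G.Adj w₁ x} := fun x hx => ⟨e2.at hx, fun a => e3 ⟨x, hx, a⟩⟩
  have c0 := conn_comp (G := G) (EO he)
  have s0 := comp_subset (G := G) {x | Anti G {c} {x} ∧ ¬G.Adj w₁ x} e
  have E0 := e1.subset_comp_of_mem EO he
  obtain ⟨u₁, u1, u2, u3⟩ := k1.exit (F := comp G {x | Anti G {c} {x} ∧ ¬G.Adj w₁ x} e) (by
    by_contra ht
    have h3 := ncard_cover (A := seen G M E) (H.share (Or.inr k1) e1 k2 e2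
      ((not_touch.1 ht).mono le_rfl E0)) (le_refl (M \ seen G M K).ncard)
      fun w a b => ⟨a.1, fun d => b ⟨MW a.1, d.2, a.2⟩⟩
    have h4 := ncard_sdiff_add_ncard_of_subset (s := seen G M K) (t := M) fun _ a => a.1
    omega) fun a => (s0 (a pK)).2 pw
  have wu : G.Adj w₁ u₁ := by_contra fun a => u2 (mem_comp_of_sees ⟨k2.at u1, a⟩ u3)
  have uO : u₁ ∈ {x | Anti G {c} {x} ∧ (¬G.Adj w₁ x ∨ x = u₁)} := ⟨k2.at u1, Or.inr rfl⟩
  have sU := comp_subset (G := G) {x | Anti G {c} {x} ∧ (¬G.Adj w₁ x ∨ x = u₁)} u₁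
  have EU : E ⊆ comp G {x | Anti G {c} {x} ∧ (¬G.Adj w₁ x ∨ x = u₁)} u₁ \ cN G ({w₁} ∪ ∅) := by
    have := (c0.add u3).subset_comp_of_mem (U := {x | Anti G {c} {x} ∧ (¬G.Adj w₁ x ∨ x = u₁)})
      (union_subset (singleton_subset_iff.2 uO) fun x hx => ⟨(s0 hx).1, Or.inl (s0 hx).2⟩)
      (Or.inl rfl)
    exact fun x hx => ⟨this (Or.inr (E0 hx)),
      anti_iff.1 ((H.anti e2 (MW m1) e3).union_left anti_empty_left).symm x hx⟩
  have T : St G c w₁ u₁ W _ ∅ _ :=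
    { H with
      w1W := MW m1
      cU := anti1 fun x hx => (sU hx).1 _ rfl _ rfl
      connU := conn_comp uO
      u1U := mem_comp_self uO
      u1w := wu
      only := fun x hx a => (sU hx).2.resolve_left fun b => b a
      clU := fun x a b s => mem_comp_of_sees ⟨a, Or.inl b⟩ s
      YU := empty_subset _
      hY := Or.inl rfl
      hD := ⟨e, EU he, rfl⟩ }
  obtain ⟨Yo, D, B⟩ := St.exists_big (m := r + 2) MW _ _ _ T (by
    have h4 := ncard_sdiff_add_ncard_of_subset (s := seen G M E) (t := M) fun _ a => a.1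
    refine (ncard_le_ncard (t := M \ seen G M E) fun w a => ⟨a.1, fun b => a.2
      ⟨MW a.1, b.2.mono (e1.subset_comp_of_mem EU he), not_sees_empty⟩⟩).trans (by omega)) le_rfl
  generalize comp G {x | Anti G {c} {x} ∧ (¬G.Adj w₁ x ∨ x = u₁)} u₁ = U at B
  by_cases ev : ∃ l y, Gd G W Yo D l ∧ Bd G U D y ∧ G.Adj l y
  · obtain ⟨l, y, a1, a2, a3⟩ := ev
    exact hn ((B.caseA a1 a2 a3 (by omega)).mono (by omega))
  obtain ⟨y, hy⟩ := B.exists_bd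
  have T' : StB G c w₁ u₁ W U Yo D y :=
    { B with hy := hy, nev := fun w a y' b e => ev ⟨w, y', a, b, e⟩ }
  by_cases b1 : ∃ P, Cp G D y P ∧ r + 3 ≤ {w | w ∈ M ∧ Gd G W Yo D w ∧ Sees G w P}.ncard
  · obtain ⟨P, p1, p2⟩ := b1
    exact hn (caseB1 B T' p1 p2 le_rfl)
  · exact hn (caseB2 (R := r + 2) B T' (fun P a => Nat.le_of_lt_succ (not_le.1 fun b =>
      b1 ⟨P, a, b⟩)) (by omega) (by omega))

end Pool.Agent.Ehf
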