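import Pool.Agent.MP_3ad207_lc.H56.StarD
import Pool.Agent.MP_3ad207_lc.H6.Spec4
import Pool.Agent.MP_3ad207_lc.H82.Tree

/-!
Star case, part E: (S3), (S4) and the thin cut (S5).
-/

set_option autoImplicit false

namespace Pool.Agent.Ehf

open Set

variable {V : Type*} {G : SimpleGraph V}

theorem ncard_biUnion_le [Finite V] (f : V → Set V) (k : ℕ) (s : Set V)
    (h : ∀ i ∈ s, (f i).ncard ≤ k) : (⋃ i ∈ s, f i).ncard ≤ s.ncard * k := by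
  induction s, toFinite s using Set.Finite.induction_on with
  | empty => simp
  | insert ha _ ih =>
    rw [biUnion_insert, ncard_insert_of_notMem ha, Nat.succ_mul]
    have := ih fun i hi => h i (Or.inr hi)
    have := h _ (Or.inl rfl)
    exact (ncard_union_le _ _).trans (by omega)

namespace Ctr

variable [Finite V] {c : V} {W O : Set V} (H : Ctr G c W) (hO : Anti G {c} O)
include H hO

theorem common {A : Set V} (AW : A ⊆ W) {j j' : V} (hj : j ∈ W) (hj' : j' ∈ W) (hne : j ≠ j')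
    {ρ : ℕ} (h : ∀ p ∈ O, Sees G j (comp G O p) ∨ Sees G j' (comp G O p) →
      (seen G A (comp G O p)).ncard ≤ ρ) :
    {i | i ∈ A ∧ (∃ p ∈ O, Sees G i (comp G O p) ∧ Sees G j (comp G O p)) ∧
      ∃ p ∈ O, Sees G i (comp G O p) ∧ Sees G j' (comp G O p)}.ncard ≤ ρ + (8 * ρ + 1) := by
  have cc : ∀ p, Anti G {c} (comp G O p) := fun p => hO.mono le_rfl (comp_subset _ p)
  have hZ : {i | i ∈ A ∧ ∃ p ∈ O, Sees G i (comp G O p) ∧ Sees G j (comp G O p) ∧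
      Sees G j' (comp G O p)}.ncard ≤ ρ := by
    by_cases e : ∃ p ∈ O, Sees G j (comp G O p) ∧ Sees G j' (comp G O p)
    · obtain ⟨p, p1, p2, p3⟩ := e
      refine (ncard_le_ncard ?_).trans (h p p1 (Or.inl p2))
      rintro i ⟨a, q, q1, q2, q3, q4⟩
      have : comp G O q = comp G O p := by_contra fun n => hne (H.w2 (conn_comp q1) (conn_comp p1)
        (cc q) (cc p) (comp_anti_of_ne n) hj hj' q3 p2 q4 p3)
      exact ⟨a, this ▸ q2⟩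
    · exact le_trans (le_of_eq ((ncard_eq_zero (toFinite _)).2 (eq_empty_of_forall_notMem
        fun i ⟨_, p, a, _, b⟩ => e ⟨p, a, b⟩))) (Nat.zero_le _)
  refine ncard_cover' hZ ?_
  by_contra hn
  generalize hs : {i | i ∈ A ∧ (∃ p ∈ O, Sees G i (comp G O p) ∧ Sees G j (comp G O p)) ∧
      ∃ p ∈ O, Sees G i (comp G O p) ∧ Sees G j' (comp G O p)} \ {i | i ∈ A ∧ ∃ p ∈ O,
      Sees G i (comp G O p) ∧ Sees G j (comp G O p) ∧ Sees G j' (comp G O p)} = s at hn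
  have : ∀ i ∈ s, i ∈ A ∧ ∃ p q, (p ∈ O ∧ Sees G i (comp G O p) ∧ Sees G j (comp G O p) ∧
      ¬Sees G j' (comp G O p)) ∧ q ∈ O ∧ Sees G i (comp G O q) ∧ Sees G j' (comp G O q) ∧
      ¬Sees G j (comp G O q) := by
    subst hs
    rintro i ⟨⟨a, ⟨p, p1, p2, p3⟩, q, q1, q2, q3⟩, b⟩
    exact ⟨a, p, q, ⟨p1, p2, p3, fun e => b ⟨a, p, p1, p2, p3, e⟩⟩, q1, q2, q3,
      fun e => b ⟨a, q, q1, q2, e, q3⟩⟩
  choose! sA P Q hP hQ using this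
  obtain ⟨J, j1, j2, j3⟩ := exists_indep
    (fun a b => Sees G b (comp G O (P a)) ∨ Sees G b (comp G O (Q a))) (2 * ρ) 2 s (fun a ha => by
      have := ncard_cover (A := {b | b ∈ s ∧ (Sees G b (comp G O (P a)) ∨
        Sees G b (comp G O (Q a)))}) (h _ (hP a ha).1 (Or.inl (hP a ha).2.2.1))
        (h _ (hQ a ha).1 (Or.inr (hQ a ha).2.2.1)) fun b b1 b2 =>
          ⟨sA b b1.1, b1.2.resolve_left fun e => b2 ⟨sA b b1.1, e⟩⟩
      omega) (by omega)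
  obtain ⟨a, b, ab, rfl⟩ := ncard_eq_two.1 j2
  have a1 := j1 (mem_insert a _)
  have b1 := j1 (mem_insert_of_mem a rfl)
  have n1 := not_or.1 (j3 a (by simp) b (by simp) ab)
  have n2 := not_or.1 (j3 b (by simp) a (by simp) ab.symm)
  obtain ⟨p1, p2, p3, p4⟩ := hP a a1
  obtain ⟨q1, q2, q3, q4⟩ := hQ a a1
  obtain ⟨r1, r2, r3, r4⟩ := hP b b1
  obtain ⟨t1, t2, t3, t4⟩ := hQ b b1
  exact H.w4 (w₁ := a) (w₂ := j') (w₃ := b) (w₄ := j) (conn_comp p1) (conn_comp q1) (conn_comp t1)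
    (conn_comp r1) (cc _) (cc _) (cc _) (cc _) (comp_anti_of_ne fun e => q4 (e ▸ p3))
    (comp_anti_of_ne fun e => t4 (e ▸ p3)) (comp_anti_of_ne fun e => n2.1 (e ▸ p2))
    (comp_anti_of_ne fun e => n2.2 (e ▸ q2)) (comp_anti_of_ne fun e => r4 (e ▸ q3))
    (comp_anti_of_ne fun e => r4 (e ▸ t3)) (AW (sA a a1)) hj' (AW (sA b b1)) hj p2 q2 n2.2 n2.1
    q3 t3 p4 r4 t2 r2 n1.1 n1.2 r3 p3 q4 t4

/-- (S3) -/
theorem see {A B : Set V} (AW : A ⊆ W) (BW : B ⊆ W) {m ρ : ℕ} (hB : 2 * m ≤ B.ncard)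
    (hA : 2 * m + m * (m * (ρ + (8 * ρ + 1))) ≤ A.ncard)
    (h : ∀ p ∈ O, ∀ j ∈ B, Sees G j (comp G O p) → (seen G A (comp G O p)).ncard ≤ ρ) :
    ∃ MA ⊆ A, ∃ MB ⊆ B, m ≤ MA.ncard ∧ m ≤ MB.ncard ∧
      ∀ p ∈ O, ∀ i ∈ MA, ∀ j ∈ MB, Sees G i (comp G O p) → ¬Sees G j (comp G O p) := by
  obtain ⟨P, p1, p2⟩ := exists_subset_card_eq (s := B) (n := m) (by omega)
  obtain ⟨Q, q1, q2⟩ := exists_subset_card_eq (s := B \ P) (n := m) (by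
    have := ncard_sdiff_add_ncard_of_subset p1
    omega)
  have key : ∀ P ⊆ B, P.ncard = m → m ≤ {i | i ∈ A ∧ ∀ p ∈ O, ∀ j ∈ P, Sees G i (comp G O p) →
      ¬Sees G j (comp G O p)}.ncard → ∃ MA ⊆ A, ∃ MB ⊆ B, m ≤ MA.ncard ∧ m ≤ MB.ncard ∧
      ∀ p ∈ O, ∀ i ∈ MA, ∀ j ∈ MB, Sees G i (comp G O p) → ¬Sees G j (comp G O p) :=
    fun P a b e => ⟨_, fun _ x => x.1, P, a, e, b.ge, fun p x _ y => y.2 p x⟩
  by_contra hn
  have h1 := not_le.1 (mt (key P p1 p2) hn)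
  have h2 := not_le.1 (mt (key Q (q1.trans sdiff_subset) q2) hn)
  have h3 := ncard_biUnion_le _ _ P fun j hj => ncard_biUnion_le _ _ Q fun j' hj' =>
    H.common hO AW (BW (p1 hj)) (BW (q1 hj').1) (fun e => (q1 hj').2 (e ▸ hj))
      fun p a b => b.elim (h p a j (p1 hj)) (h p a j' (q1 hj').1)
  have h4 := ncard_cover' (A := A) (Nat.le_sub_one_of_lt h1) (ncard_cover h2.le h3 (by
    rintro i ⟨a, b⟩ d
    simp only [mem_ofPred_eq, a, true_and, not_forall, not_not] at b d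
    obtain ⟨p, b1, j, b2, b3, b4⟩ := b
    obtain ⟨q, d1, j', d2, d3, d4⟩ := d
    exact mem_biUnion b2 (mem_biUnion d2 ⟨a, ⟨p, b1, b3, b4⟩, q, d1, d3, d4⟩)))
  rw [p2, q2] at h4
  omega

end Ctr

/-- the bound in (S4) -/
def seeN (m : ℕ) : ℕ :=
  sepN (2 * m) + 4 * m + m * (m * (2 * m + m * (m * 10) + (8 * (2 * m + m * (m * 10)) + 1)))

/-- (S4) -/
theorem Ctr.split [Finite V] {c : V} {W M : Set V} (H : Ctr G c W) (MW : M ⊆ W) {m : ℕ}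
    (hN : seeN m ≤ M.ncard) :
    ∃ K₁ K₂ K₃ K₄ w w', Clq G K₁ ∧ Clq G K₂ ∧ Clq G K₃ ∧ Clq G K₄ ∧ w ∈ W ∧ w' ∈ W ∧
      ∃ MA ⊆ M, ∃ MB ⊆ M, m ≤ MA.ncard ∧ m ≤ MB.ncard ∧
        ∀ O, O = {x | Anti G {c} {x} ∧ x ∉ K₁ ∧ x ∉ K₂ ∧ x ∉ K₃ ∧ x ∉ K₄ ∧ ¬G.Adj w x ∧
          ¬G.Adj w' x} → ∀ p ∈ O, ∀ i ∈ MA, ∀ j ∈ MB,
            Sees G i (comp G O p) → ¬Sees G j (comp G O p) := by
  unfold seeN at hN
  obtain ⟨K₁, K₂, K₃, K₄, w, w', a1, a2, a3, a4, a5, a6, h⟩ := H.sep MW (r := 2 * m) (by omega)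
  refine ⟨K₁, K₂, K₃, K₄, w, w', a1, a2, a3, a4, a5, a6, ?_⟩
  obtain ⟨O, hO⟩ : ∃ O, O = {x | Anti G {c} {x} ∧ x ∉ K₁ ∧ x ∉ K₂ ∧ x ∉ K₃ ∧ x ∉ K₄ ∧
    ¬G.Adj w x ∧ ¬G.Adj w' x} := ⟨_, rfl⟩
  simp only [← hO, forall_eq]
  have cO : Anti G {c} O := anti1 fun x hx => (hO ▸ hx).1 _ rfl _ rfl
  have cc : ∀ p, Anti G {c} (comp G O p) := fun p => cO.mono le_rfl (comp_subset _ p)
  by_cases big : ∃ p ∈ O, 2 * m + m * (m * 10) ≤ (seen G M (comp G O p)).ncard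
  · obtain ⟨p, p1, p2⟩ := big
    have sub : ∀ x ∈ comp G O p, Anti G {c} {x} ∧ x ∉ K₁ ∧ x ∉ K₂ ∧ x ∉ K₃ ∧ x ∉ K₄ ∧
      ¬G.Adj w x ∧ ¬G.Adj w' x := fun x hx => by simpa [hO] using comp_subset O p hx
    have h1 := h _ (conn_comp p1) (cc p) (Set.disjoint_left.2 fun x a => (sub x a).2.1)
      (Set.disjoint_left.2 fun x a => (sub x a).2.2.1)
      (Set.disjoint_left.2 fun x a => (sub x a).2.2.2.1)
      (Set.disjoint_left.2 fun x a => (sub x a).2.2.2.2.1)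
      (fun ⟨x, a, e⟩ => (sub x a).2.2.2.2.2.1 e) fun ⟨x, a, e⟩ => (sub x a).2.2.2.2.2.2 e
    have h2 := ncard_sdiff_add_ncard_of_subset (s := seen G M (comp G O p)) (t := M) fun _ a => a.1
    obtain ⟨MA, b1, MB, b2, b3⟩ := H.see cO (A := seen G M (comp G O p))
      (B := M \ seen G M (comp G O p)) (m := m) (ρ := 1) (fun _ a => MW a.1) (fun _ a => MW a.1)
      (by omega) p2 fun q q1 j j1 j2 => (ncard_le_ncard fun i a => by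
        exact ⟨MW a.1.1, a.2, a.1.2⟩).trans (H.share (Or.inr (conn_comp q1)) (conn_comp p1) (cc q)
          (cc p) (comp_anti_of_ne fun e => j1.2 ⟨j1.1, e ▸ j2⟩))
    exact ⟨MA, fun _ a => (b1 a).1, MB, fun _ a => (b2 a).1, b3⟩
  · obtain ⟨B, p1, p2⟩ := exists_subset_card_eq (s := M) (n := 2 * m) (by omega)
    have h2 := ncard_sdiff_add_ncard_of_subset p1
    obtain ⟨MA, b1, MB, b2, b3⟩ := H.see cO (A := M \ B) (B := B) (m := m)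
      (ρ := 2 * m + m * (m * 10)) (fun _ a => MW a.1) (p1.trans MW) p2.ge (by omega)
      fun q q1 _ _ _ => (ncard_le_ncard fun i a => by exact ⟨a.1.1, a.2⟩).trans
        (not_le.1 fun e => big ⟨q, q1, e⟩).le
    exact ⟨MA, fun _ a => (b1 a).1, MB, b2.trans p1, b3⟩

theorem nuLe_four {U A B K₁ K₂ K₃ K₄ : Set V} (a1 : Clq G K₁) (a2 : Clq G K₂) (a3 : Clq G K₃)
    (a4 : Clq G K₄) (h : ∀ F, Conn G F → F ⊆ U → Touch G F A → Touch G F B →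
      ∃ x ∈ F, x ∈ K₁ ∨ x ∈ K₂ ∨ x ∈ K₃ ∨ x ∈ K₄) : NuLe G U A B 4 := by
  classical
  intro s hs hT
  have one : ∀ K, Clq G K → (s.filter fun F => ∃ x ∈ F, x ∈ K).card ≤ 1 := fun K hK =>
    Finset.card_le_one.2 fun F hF F' hF' => by
      obtain ⟨f1, x, x1, x2⟩ := Finset.mem_filter.1 hF
      obtain ⟨f2, z, z1, z2⟩ := Finset.mem_filter.1 hF'
      by_contra hne
      have := hs.2 F f1 F' f2 hne x x1 z z1
      exact this.2 (hK x x2 z z2 this.1)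
  have := Finset.card_le_card (s := s) (t := (s.filter fun F => ∃ x ∈ F, x ∈ K₁) ∪
    ((s.filter fun F => ∃ x ∈ F, x ∈ K₂) ∪ ((s.filter fun F => ∃ x ∈ F, x ∈ K₃) ∪
    (s.filter fun F => ∃ x ∈ F, x ∈ K₄)))) fun F hF => by
      obtain ⟨x, x1, x2⟩ := h F (hs.1 F hF) (hT F hF).1 (hT F hF).2.1 (hT F hF).2.2
      simp only [Finset.mem_union, Finset.mem_filter, hF, true_and]
      exact x2.imp (⟨x, x1, ·⟩) (·.imp (⟨x, x1, ·⟩) (·.imp (⟨x, x1, ·⟩) (⟨x, x1, ·⟩)))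
  refine this.trans ((Finset.card_union_le _ _).trans (Nat.add_le_add (one _ a1)
    ((Finset.card_union_le _ _).trans (Nat.add_le_add (one _ a2)
    ((Finset.card_union_le _ _).trans (Nat.add_le_add (one _ a3) (one _ a4)))))))

/-- (WIDTH*) in the star case -/
def StarStmt : Prop :=
  ∃ (N : ℕ → ℕ) (c k : ℕ), ∀ (V : Type) [Fintype V] (G : SimpleGraph V) (S I : Set V),
    Setup G S I → ∀ (m : ℕ) (M : Finset V) (x : V) (w : V → V), x ∈ I \ S →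
      (∀ p ∈ M, w p ∈ S \ I ∧ G.Adj x (w p) ∧ p ∈ comp G (HH S I \ {x}) (w p)) →
      Set.InjOn w M → N m ≤ M.card →
      ∃ (D MA MB : Finset V) (A B : Set V), D.card ≤ c ∧ MA ⊆ M ∧ MB ⊆ M ∧ m ≤ MA.card ∧
        m ≤ MB.card ∧ Cut G S I (HH S I ∪ {z | Sees G z D})ᶜ D A B MA MB k

theorem starStmt : StarStmt := by
  classical
  refine ⟨fun m => seeN (m + 15), 15, 4, fun V _ G S I h m M x w hx hM inj hN => ?_⟩
  have H : Ctr G x {u | u ∈ S \ I ∧ G.Adj x u} :=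
    ⟨h.ehf, fun a a1 b b1 => h.white_not_adj a1.1 b1.1, fun _ a => a.2⟩
  obtain ⟨K₁, K₂, K₃, K₄, u, u', a1, a2, a3, a4, a5, a6, MA, b1, MB, b2, b3, b4, b5⟩ :=
    H.split (M := w '' M) (by rintro _ ⟨p, hp, rfl⟩; exact ⟨(hM p hp).1, (hM p hp).2.1⟩)
      (m := m + 15) (by rw [inj.ncard_image, ncard_coe_finset]; exact hN)
  obtain ⟨O, hO⟩ : ∃ O, O = {z | Anti G {x} {z} ∧ z ∉ K₁ ∧ z ∉ K₂ ∧ z ∉ K₃ ∧ z ∉ K₄ ∧
    ¬G.Adj u z ∧ ¬G.Adj u' z} := ⟨_, rfl⟩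
  replace b5 := b5 O hO
  have xH : x ∈ HH S I := Or.inl hx
  have two : ∀ K, Clq G K → (K ∩ HH S I).ncard ≤ 2 := fun K hK =>
    ncard_le_two_of fun a a1 b b1 c c1 e1 e2 e3 => h.triFree a a1.2 b b1.2 c c1.2
      (hK a a1.1 b b1.1 e1) (hK a a1.1 c c1.1 e2) (hK b b1.1 c c1.1 e3)
  have two' : ∀ v ∈ S \ I, {z | z ∈ HH S I ∧ G.Adj v z}.ncard ≤ 2 := fun v hv => by
    obtain ⟨a, b, -, -, -, -, -, e⟩ := h.deg v hv
    exact ncard_cover (ncard_singleton a).le (ncard_singleton b).le fun z z1 z2 =>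
      (e z (h.black_of_adj_white hv z1.1 z1.2) z1.2).resolve_left z2
  obtain ⟨D, hD⟩ := (toFinite {z | z ∈ HH S I ∧ (z = x ∨ z = u ∨ z = u' ∨ G.Adj u z ∨
    G.Adj u' z ∨ z ∈ K₁ ∨ z ∈ K₂ ∨ z ∈ K₃ ∨ z ∈ K₄)}).exists_finset_coe
  have mD : ∀ z, z ∈ D ↔ z ∈ HH S I ∧ (z = x ∨ z = u ∨ z = u' ∨ G.Adj u z ∨
    G.Adj u' z ∨ z ∈ K₁ ∨ z ∈ K₂ ∨ z ∈ K₃ ∨ z ∈ K₄) := fun z => by
      rw [← Finset.mem_coe, hD]; rfl
  have cD : (D : Set V).ncard ≤ 15 := ncard_cover' (ncard_singleton x).le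
    (ncard_cover' (ncard_singleton u).le (ncard_cover' (ncard_singleton u').le
    (ncard_cover' (two' u a5.1) (ncard_cover' (two' u' a6.1) (ncard_cover' (two _ a1)
    (ncard_cover' (two _ a2) (ncard_cover (two _ a3) (two _ a4) (by
      rintro z ⟨⟨⟨⟨⟨⟨⟨z0, z1⟩, z2⟩, z3⟩, z4⟩, z5⟩, z6⟩, z7⟩ z8
      have := (mD z).1 z0
      simp only [mem_singleton_iff, mem_ofPred_eq, mem_inter_iff] at *
      tauto))))))))
  have xD : x ∈ D := (mD x).2 ⟨xH, Or.inl rfl⟩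
  have HO : HC G S I D ⊆ O := by
    rintro z ⟨z1, z2, z3⟩
    rw [mD] at z2
    rw [hO]
    have := z3 x xD hx
    refine ⟨anti11 (fun e => z2 ⟨z1, Or.inl e.symm⟩) fun e => this e.symm, ?_⟩
    tauto
  have bad : {v | v ∈ {u | u ∈ S \ I ∧ G.Adj x u} ∧ ∃ d ∈ D, d ∈ comp G (HH S I \ {x}) v}.ncard
      ≤ 15 := by
    have := ncard_biUnion_le (fun d => {v | v ∈ {u | u ∈ S \ I ∧ G.Adj x u} ∧
      d ∈ comp G (HH S I \ {x}) v}) 1 D fun d _ => ncard_le_one_of fun a a1 b b1 =>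
        h.one_nbr (conn_comp a1.2.1) ((comp_subset _ a).trans sdiff_subset) xH
          (fun e => (comp_subset _ a e).2 rfl) (mem_comp_self a1.2.1)
          ⟨a1.2.1, a1.2.2.trans (b1.2.2.symm b1.2.1)⟩ a1.1.2 b1.1.2
    refine (ncard_le_ncard ?_).trans (this.trans (by omega))
    rintro v ⟨v1, d, d1, d2⟩
    exact mem_biUnion d1 ⟨v1, d2⟩
  have cnt : ∀ Z ⊆ w '' M, m + 15 ≤ Z.ncard →
      m ≤ (M.filter fun p => w p ∈ Z ∧ ∀ d ∈ D, d ∉ comp G (HH S I \ {x}) (w p)).card := by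
    intro Z z1 z2
    have := ncard_cover (A := Z) bad (ncard_image_le (f := w) (s := (M.filter fun p =>
      w p ∈ Z ∧ ∀ d ∈ D, d ∉ comp G (HH S I \ {x}) (w p) : Finset V))) fun v v1 v2 => by
        obtain ⟨p, hp, rfl⟩ := z1 v1
        exact ⟨p, Finset.mem_coe.2 (Finset.mem_filter.2 ⟨hp, v1, fun d d1 d2 =>
          v2 ⟨⟨(hM p hp).1, (hM p hp).2.1⟩, d, d1, d2⟩⟩), rfl⟩
    rw [ncard_coe_finset] at this
    omega
  have mark : ∀ p ∈ M, (∀ d ∈ D, d ∉ comp G (HH S I \ {x}) (w p)) → ∃ q ∈ HC G S I D,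
      Sees G (w p) (comp G O q) ∧ (q = p ∨ (p = w p ∧ G.Adj p q)) := by
    intro p hp hd
    obtain ⟨m1, m2, m3⟩ := hM p hp
    have cB := conn_comp (G := G) m3.1
    have sB := comp_subset (G := G) (HH S I \ {x}) (w p)
    have inn : ∀ z ∈ comp G (HH S I \ {x}) (w p), z ≠ w p → z ∈ HC G S I D := fun z z1 z2 =>
      ⟨(sB z1).1, fun e => hd z e z1, fun y y1 y2 e => by
        by_cases c : y = x
        · exact z2 (h.one_nbr cB (sB.trans sdiff_subset) xH (fun e => (sB e).2 rfl) z1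
            (mem_comp_self m3.1) (c ▸ e.symm) m2)
        · exact hd y y1 (mem_comp_of_adj z1 e ⟨Or.inl y2, c⟩)⟩
    by_cases c : p = w p
    · obtain ⟨q, q1, q2, q3⟩ : ∃ q, q ∈ I \ S ∧ q ≠ x ∧ G.Adj (w p) q := by
        obtain ⟨a, b, e0, e1, e2, e3, e4, -⟩ := h.deg _ m1
        by_cases d : a = x
        exacts [⟨b, e2, fun e => e0 (d.trans e.symm), e4⟩, ⟨a, e1, d, e3⟩]
      have := inn q (mem_comp_of_adj (mem_comp_self m3.1) q3 ⟨Or.inl q1, q2⟩) q3.ne'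
      exact ⟨q, this, ⟨q, mem_comp_self (HO this), q3⟩, Or.inr ⟨c, c ▸ q3⟩⟩
    · obtain ⟨n, f, hf, f0, fn, fX⟩ := cB.exists_ipc (mem_comp_self m3.1) m3
      have n0 : 0 < n := Nat.pos_of_ne_zero fun e => c (fn.symm.trans (e ▸ f0))
      have := (hf.conn_seg n0 le_rfl).subset_comp_of_mem (U := O) (seg_subset fun k k1 k2 =>
        HO (inn _ (fX k k2) (f0 ▸ hf.ne k2 (Nat.zero_le _) (by omega))))
        (v := p) ⟨n, n0, le_rfl, fn⟩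
      exact ⟨p, inn p m3 c, ⟨_, this (apply_mem_seg le_rfl n0), f0 ▸ hf.adj_succ n0⟩, Or.inl rfl⟩
  have side : ∀ (Z : Set V) (P : V → Prop), (∀ q ∈ HC G S I D, ∀ i ∈ Z, Sees G i (comp G O q) →
      P q) → ∀ p ∈ M.filter fun p => w p ∈ Z ∧ ∀ d ∈ D, d ∉ comp G (HH S I \ {x}) (w p),
      ForSide G S I {a | a ∈ HC G S I D ∧ P a} p ∧ (p ∈ {a | a ∈ HC G S I D ∧ P a} ∨ p ∈ Z) := by
    intro Z P hP p hp
    obtain ⟨p1, p2, p3⟩ := Finset.mem_filter.1 hp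
    obtain ⟨q, q1, q2, rfl | q3⟩ := mark p p1 p3
    · exact ⟨Or.inl ⟨q1, hP q q1 _ p2 q2⟩, Or.inl ⟨q1, hP q q1 _ p2 q2⟩⟩
    · exact ⟨Or.inr ⟨q3.1 ▸ (hM p p1).1, q, ⟨q1, hP q q1 _ p2 q2⟩, q3.2⟩, Or.inr (q3.1 ▸ p2)⟩
  have sA := side MA (fun a => ¬∃ j ∈ MB, Sees G j (comp G O a))
    fun q q1 i i1 i2 ⟨j, j1, j2⟩ => b5 q (HO q1) i i1 j j1 i2 j2
  have sB := side MB (fun a => ∃ j ∈ MB, Sees G j (comp G O a)) fun q _ i i1 i2 => ⟨i, i1, i2⟩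
  have link : ∀ F, Conn G F → F ⊆ (HH S I ∪ {z | Sees G z D})ᶜ →
      (¬∃ x ∈ F, x ∈ K₁ ∨ x ∈ K₂ ∨ x ∈ K₃ ∨ x ∈ K₄) → ∀ a ∈ HC G S I D, Touch G F {a} →
      (∀ b ∈ HC G S I D, Touch G F {b} → comp G O b = comp G O a) ∧
      ∀ j ∈ w '' M, Touch G F {j} → Sees G j (comp G O a) := by
    intro F f1 f2 f3 a ha ta
    have FO : F ⊆ O := fun z hz => by
      have n1 : z ∉ HH S I := fun e => f2 hz (Or.inl e)
      have n2 : ∀ d ∈ D, ¬G.Adj d z := fun d d1 e => f2 hz (Or.inr ⟨d, d1, e.symm⟩)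
      rw [hO]
      exact ⟨anti11 (fun e => n1 (e ▸ xH)) (n2 x xD), fun e => f3 ⟨z, hz, by tauto⟩,
        fun e => f3 ⟨z, hz, by tauto⟩, fun e => f3 ⟨z, hz, by tauto⟩, fun e => f3 ⟨z, hz, by tauto⟩,
        n2 u ((mD u).2 ⟨Or.inr a5.1, by tauto⟩), n2 u' ((mD u').2 ⟨Or.inr a6.1, by tauto⟩)⟩
    have sub : ∀ b ∈ HC G S I D, Touch G F {b} → F ⊆ comp G O b := fun b hb t =>
      f1.subset_comp FO (t.mono le_rfl (singleton_subset_iff.2 (mem_comp_self (HO hb))))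
    refine ⟨fun b hb t => ?_, ?_⟩
    · obtain ⟨z, hz⟩ := f1.nonempty
      exact comp_eq_of_touch (Touch.of_mem (sub b hb t hz) (sub a ha ta hz))
    · rintro _ ⟨p, hp, rfl⟩ t
      exact ((touch_singleton_left.1 t.symm).resolve_left fun e =>
        f2 e (Or.inl (Or.inr (hM p hp).1))).mono (sub a ha ta)
  have pt : ∀ {F X : Set V}, Touch G F X → ∃ a ∈ X, Touch G F {a} := fun ⟨z, z1, a, z2, e⟩ =>
    ⟨a, z2, z, z1, a, rfl, e⟩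
  refine ⟨D, _, _, _, _, by simpa using cD, Finset.filter_subset _ _, Finset.filter_subset _ _,
    cnt MA b1 b3, cnt MB b2 b4, fun z hz => ((mD z).1 hz).1, ?_, ?_, fun p hp => (sA p hp).1,
    fun p hp => (sB p hp).1, nuLe_four a1 a2 a3 a4 fun F f1 f2 t1 t2 => by_contra fun f3 => ?_,
    nuLe_four a1 a2 a3 a4 fun F f1 f2 t1 t2 => by_contra fun f3 => ?_⟩
  · ext z
    simp only [mem_union, mem_ofPred_eq]
    tauto
  · rw [← not_touch]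
    rintro ⟨a, ha, b, hb, e⟩
    exact ha.2 (comp_eq_of_touch ⟨b, mem_comp_self (HO hb.1), a, mem_comp_self (HO ha.1),
      e.imp Eq.symm G.adj_symm⟩ ▸ hb.2)
  · obtain ⟨a, ha, t1⟩ := pt t1
    obtain ⟨b, hb, t2⟩ := pt t2
    obtain ⟨l1, l2⟩ := link F f1 f2 f3 a ha.1 t1
    rcases hb.elim Or.inl fun e => (sB b e).2 with e | e
    exacts [ha.2 (l1 b e.1 t2 ▸ e.2), ha.2 ⟨b, e, l2 b (b2 e) t2⟩]
  · obtain ⟨a, ha, t1⟩ := pt t1
    obtain ⟨b, hb, t2⟩ := pt t2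
    obtain ⟨l1, l2⟩ := link F f1 f2 f3 a ha.1 t1
    rcases hb.elim Or.inl fun e => (sA b e).2 with e | e
    · exact e.2 (l1 b e.1 t2 ▸ ha.2)
    · obtain ⟨j, j1, j2⟩ := ha.2
      exact b5 a (HO ha.1) b e j j1 (l2 b (b1 e) t2) j2

end Pool.Agent.Ehf
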